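import Pool.Agent.Q259.TM.DivF
import Pool.Agent.Q259.AS.BC

set_option autoImplicit false

/-! Typical integers have no divisors in sparse sets. -/

namespace Pool.Agent.Q259.TM

open MeasureTheory Finset Filter
open Pool.Agent.Q259.AS (exp_choice)

/-- sums over sparse sets -/
lemma sparse_sum (c : ℝ) (hc : 0 < c) : ∃ C₂ : ℝ, 0 ≤ C₂ ∧ ∀ (D : Finset ℕ) (z : ℝ), 1 ≤ z → (∀ d ∈ D, z < (d : ℝ)) →
    (∀ X : ℝ, 1 ≤ X → ((D.filter (fun d : ℕ => (d : ℝ) ≤ X)).card : ℝ) ≤ X ^ (c / 2)) →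
    ∑ d ∈ D, 1 / (d : ℝ) ^ c ≤ C₂ / z ^ (c / 2) := by
  classical
  obtain ⟨θ, hθ⟩ : ∃ θ : ℝ, θ = (2 : ℝ) ^ (-(c / 2)) := ⟨_, rfl⟩
  have hθ0 : 0 < θ := by rw [hθ]; positivity
  have hθ1 : θ < 1 := by
    rw [hθ]
    exact Real.rpow_lt_one_of_one_lt_of_neg (by norm_num) (by linarith)
  have hθi : ∀ i : ℕ, θ ^ i = 1 / ((2 : ℝ) ^ i) ^ (c / 2) := by
    intro i
    rw [hθ, Real.rpow_neg (by norm_num), inv_pow, ← Real.rpow_natCast, ← Real.rpow_natCast, ← Real.rpow_mul (by norm_num),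
      ← Real.rpow_mul (by norm_num), mul_comm, one_div]
  refine ⟨(2 : ℝ) ^ (c / 2) * (2 : ℝ) ^ (c / 2) / (1 - θ), by
    have : 0 < 1 - θ := by linarith
    positivity, fun D z hz hD hsp => ?_⟩
  have h1θ : 0 < 1 - θ := by linarith
  obtain ⟨i₀, hi₀⟩ : ∃ i₀, i₀ = Nat.log 2 ⌊z⌋₊ := ⟨_, rfl⟩
  obtain ⟨L, hL⟩ : ∃ L : ℕ, ∀ d ∈ D, Nat.log 2 d < L :=
    ⟨D.sup (fun d => Nat.log 2 d) + 1, fun d hd => Nat.lt_succ_of_le (le_sup (f := fun d => Nat.log 2 d) hd)⟩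
  have hmaps : ∀ d ∈ D, Nat.log 2 d ∈ Ico i₀ L := by
    intro d hd
    rw [mem_Ico]
    refine ⟨?_, hL d hd⟩
    rw [hi₀]
    apply Nat.log_mono_right
    have h1 := hD d hd
    have h2 : (⌊z⌋₊ : ℝ) ≤ z := Nat.floor_le (by linarith)
    have h3 : (⌊z⌋₊ : ℝ) < d := by linarith
    exact le_of_lt (by exact_mod_cast h3)
  rw [← sum_fiberwise_of_maps_to hmaps]
  have hfib : ∀ i ∈ Ico i₀ L, ∑ d ∈ D.filter (fun d => Nat.log 2 d = i), 1 / (d : ℝ) ^ c ≤ (2 : ℝ) ^ (c / 2) * θ ^ i := by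
    intro i _
    have h1 : ∀ d ∈ D.filter (fun d => Nat.log 2 d = i), 1 / (d : ℝ) ^ c ≤ 1 / ((2 : ℝ) ^ i) ^ c := by
      intro d hd
      rw [mem_filter] at hd
      have h2 := hD d hd.1
      have h3 : d ≠ 0 := by
        rintro rfl
        push_cast at h2
        linarith
      have h4 : 2 ^ i ≤ d := by rw [← hd.2]; exact Nat.pow_log_le_self 2 h3
      have h5 : (2 : ℝ) ^ i ≤ d := by exact_mod_cast h4
      apply one_div_le_one_div_of_le (by positivity)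
      exact Real.rpow_le_rpow (by positivity) h5 hc.le
    refine (sum_le_sum h1).trans ?_
    rw [sum_const, nsmul_eq_mul]
    have h2 : ((D.filter (fun d => Nat.log 2 d = i)).card : ℝ) ≤ ((2 : ℝ) ^ (i + 1)) ^ (c / 2) := by
      refine le_trans ?_ (hsp ((2 : ℝ) ^ (i + 1)) (one_le_pow₀ (by norm_num)))
      have h3 : D.filter (fun d => Nat.log 2 d = i) ⊆ D.filter (fun d : ℕ => (d : ℝ) ≤ (2 : ℝ) ^ (i + 1)) := by
        intro d hd
        rw [mem_filter] at hd ⊢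
        refine ⟨hd.1, ?_⟩
        have h4 := Nat.lt_pow_succ_log_self (by norm_num : 1 < 2) d
        rw [hd.2] at h4
        exact_mod_cast h4.le
      exact_mod_cast card_le_card h3
    have h3 : ((2 : ℝ) ^ (i + 1)) ^ (c / 2) = (2 : ℝ) ^ (c / 2) * ((2 : ℝ) ^ i) ^ (c / 2) := by
      rw [pow_succ, Real.mul_rpow (by positivity) (by norm_num), mul_comm]
    have h4 : ((2 : ℝ) ^ i) ^ c = ((2 : ℝ) ^ i) ^ (c / 2) * ((2 : ℝ) ^ i) ^ (c / 2) := by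
      rw [← Real.rpow_add (by positivity)]
      congr 1
      ring
    have h5 : 0 < ((2 : ℝ) ^ i) ^ (c / 2) := by positivity
    calc ((D.filter (fun d => Nat.log 2 d = i)).card : ℝ) * (1 / ((2 : ℝ) ^ i) ^ c) ≤
        ((2 : ℝ) ^ (i + 1)) ^ (c / 2) * (1 / ((2 : ℝ) ^ i) ^ c) := mul_le_mul_of_nonneg_right h2 (by positivity)
      _ = (2 : ℝ) ^ (c / 2) * θ ^ i := by
          rw [h3, h4, hθi]
          field_simp
  refine (sum_le_sum hfib).trans ?_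
  rw [← mul_sum]
  have h1 : ∑ i ∈ Ico i₀ L, θ ^ i ≤ θ ^ i₀ / (1 - θ) := geom_sum_Ico_le_of_lt_one hθ0.le hθ1
  have h2 : θ ^ i₀ ≤ (2 : ℝ) ^ (c / 2) / z ^ (c / 2) := by
    rw [hθi, ← Real.div_rpow (by norm_num) (by linarith)]
    rw [one_div, ← Real.inv_rpow (by positivity)]
    apply Real.rpow_le_rpow (by positivity) _ (by linarith)
    rw [inv_eq_one_div, div_le_div_iff₀ (by positivity) (by linarith), one_mul]
    have h3 := Nat.lt_pow_succ_log_self (by norm_num : 1 < 2) ⌊z⌋₊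
    rw [← hi₀] at h3
    have h4 : z < (⌊z⌋₊ : ℝ) + 1 := Nat.lt_floor_add_one z
    have h5 : (⌊z⌋₊ : ℝ) + 1 ≤ (2 : ℝ) ^ (i₀ + 1) := by exact_mod_cast h3
    rw [pow_succ] at h5
    linarith
  calc (2 : ℝ) ^ (c / 2) * ∑ i ∈ Ico i₀ L, θ ^ i ≤ (2 : ℝ) ^ (c / 2) * (((2 : ℝ) ^ (c / 2) / z ^ (c / 2)) / (1 - θ)) := by
        apply mul_le_mul_of_nonneg_left _ (by positivity)
        exact h1.trans (div_le_div_of_nonneg_right h2 h1θ.le)
    _ = _ := by ring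

/-- a family of sparse sets of large integers -/
structure Fam (c : ℝ) (A j₁ : ℕ) (D : ℕ → Finset ℕ) : Prop where
  large : ∀ j, j₁ ≤ j → ∀ d ∈ D j, Real.log (((2 ^ j : ℕ) : ℝ)) ^ A < (d : ℝ)
  sparse : ∀ j, j₁ ≤ j → ∀ X : ℝ, 1 ≤ X → (((D j).filter (fun d : ℕ => (d : ℝ) ≤ X)).card : ℝ) ≤ X ^ (c / 2)

lemma fam_sum (c : ℝ) (hc : 0 < c) (A : ℕ) (hA : 4 / c ≤ A) : ∃ C₃ : ℝ, 0 ≤ C₃ ∧ ∀ (j₁ : ℕ) (D : ℕ → Finset ℕ),
    Fam c A j₁ D → ∀ j, j₁ ≤ j → 2 ≤ j → ∑ d ∈ D j, 1 / (d : ℝ) ^ c ≤ C₃ * ((j : ℝ) ^ 2)⁻¹ := by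
  obtain ⟨C₂, hC₂, h2⟩ := sparse_sum c hc
  refine ⟨4 * C₂, by positivity, fun j₁ D hD j hj hj2 => ?_⟩
  have hl2 := Real.log_two_gt_d9
  have hj2r : (2 : ℝ) ≤ j := by exact_mod_cast hj2
  have hlog : Real.log (((2 ^ j : ℕ) : ℝ)) = j * Real.log 2 := by
    push_cast
    rw [Real.log_pow]
  obtain ⟨l, hl⟩ : ∃ l, l = Real.log (((2 ^ j : ℕ) : ℝ)) := ⟨_, rfl⟩
  have hl1 : (j : ℝ) / 2 ≤ l := by rw [hl, hlog]; nlinarith
  have hl1' : 1 ≤ l := by linarith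
  have h3 := h2 (D j) (l ^ A) (one_le_pow₀ hl1') (by rw [hl]; exact hD.large j hj) (hD.sparse j hj)
  have h4 : l ^ 2 ≤ (l ^ A) ^ (c / 2) := by
    rw [← Real.rpow_natCast, ← Real.rpow_natCast, ← Real.rpow_mul (by linarith)]
    apply Real.rpow_le_rpow_of_exponent_le hl1'
    rw [div_le_iff₀ hc] at hA
    push_cast
    linarith
  refine h3.trans ?_
  have h5 : (j : ℝ) ^ 2 / 4 ≤ l ^ 2 := by nlinarith
  have hj0 : (0 : ℝ) < (j : ℝ) ^ 2 := by positivity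
  calc C₂ / (l ^ A) ^ (c / 2) ≤ C₂ / ((j : ℝ) ^ 2 / 4) := by
        apply div_le_div_of_nonneg_left hC₂ (by positivity) (h5.trans h4)
    _ = _ := by field_simp

/-- the integers near `a x + y` with a divisor in the sparse sets -/
def EvD (D : ℕ → Finset ℕ) (C₀ D₀ B : ℕ) (a y : ℝ) : Set ℝ :=
  {x | |x| ≤ B ∧ ∃ q : ℕ, 1 ≤ q ∧ |(q : ℝ) - (a * x + y)| ≤ Real.log a ^ C₀ ∧ ∃ j : ℕ, Real.log a ^ D₀ ≤ (j : ℝ) ∧
    ∃ d ∈ D j, d ∣ q}

theorem div_rare (μ : Measure ℝ) [IsProbabilityMeasure μ] (c : ℝ) (hc : 0 < c)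
    (hμ : ∀ B : ℕ, ∃ C : ℝ, 0 ≤ C ∧ ∀ a y : ℝ, 1 ≤ a → |y| ≤ B * a → ∀ d : ℕ, 1 ≤ d → (d : ℝ) ≤ B * a →
      μ.real {x | |x| ≤ B ∧ (d : ℤ) ∣ ⌊a * x + y⌋} ≤ C / (d : ℝ) ^ c)
    (A : ℕ) (hA : 4 / c ≤ A) (j₁ : ℕ) (D : ℕ → Finset ℕ) (hD : Fam c A j₁ D) (C₀ U B : ℕ) :
    ∃ a₀ : ℝ, ∀ a : ℝ, a₀ ≤ a → ∀ y : ℝ, |y| ≤ B * a →
      μ.real (EvD D C₀ (U + C₀ + 1) B a y) ≤ 1 / Real.log a ^ U := by
  classical
  obtain ⟨C₃, hC₃, h3⟩ := fam_sum c hc A hA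
  obtain ⟨C, hC, hdv⟩ := hμ (2 * B + 3)
  have hA1 : 1 ≤ A := by
    have h1 : (0 : ℝ) < A := lt_of_lt_of_le (by positivity) hA
    have h2 : 0 < A := by exact_mod_cast h1
    omega
  -- large `a`
  have hev : ∀ᶠ a : ℝ in atTop, max (max ((j₁ : ℝ) + 2) (10 * C * C₃ + 10 * C * C₃)) 2 ≤ Real.log a ∧
      Real.log a ^ C₀ + 3 ≤ a ∧ 1 ≤ a := by
    have e1 := Real.tendsto_log_atTop.eventually_ge_atTop (max (max ((j₁ : ℝ) + 2) (10 * C * C₃ + 10 * C * C₃)) 2)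
    have e2 := (Real.isLittleO_pow_log_id_atTop (n := C₀)).bound (show (0 : ℝ) < 1 / 2 by norm_num)
    filter_upwards [e1, e2, eventually_ge_atTop (6 : ℝ)] with a g1 g2 g3
    refine ⟨g1, ?_, by linarith⟩
    have g4 : 2 ≤ Real.log a := (le_max_right _ _).trans g1
    simp only [id, Real.norm_eq_abs] at g2
    rw [abs_of_nonneg (by positivity), abs_of_nonneg (by linarith)] at g2
    linarith
  obtain ⟨a₀, ha₀⟩ := eventually_atTop.1 hev
  refine ⟨a₀, fun a ha y hy => ?_⟩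
  obtain ⟨hl, hla, ha1⟩ := ha₀ a ha
  obtain ⟨l, hld⟩ : ∃ l, l = Real.log a := ⟨_, rfl⟩
  rw [← hld] at hl hla ⊢
  have hl2 : 2 ≤ l := (le_max_right _ _).trans hl
  have hlj : (j₁ : ℝ) + 2 ≤ l := ((le_max_left _ _).trans (le_max_left _ _)).trans hl
  have hlC : 10 * C * C₃ + 10 * C * C₃ ≤ l := ((le_max_right _ _).trans (le_max_left _ _)).trans hl
  have ha0 : 0 < a := by linarith
  have hB0 : (0 : ℝ) ≤ B := Nat.cast_nonneg _
  obtain ⟨R, hR⟩ : ∃ R : ℕ, R = ⌈l ^ C₀⌉₊ + 1 := ⟨_, rfl⟩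
  have hR1 : l ^ C₀ + 1 ≤ R := by rw [hR]; push_cast; linarith [Nat.le_ceil (l ^ C₀)]
  have hR2 : (R : ℝ) ≤ l ^ C₀ + 2 := by
    rw [hR]; push_cast
    linarith [Nat.ceil_lt_add_one (a := l ^ C₀) (by positivity)]
  have hRa : (R : ℝ) ≤ a := by linarith
  obtain ⟨J, hJ⟩ : ∃ J : ℕ, J = ⌈l ^ (U + C₀ + 1)⌉₊ := ⟨_, rfl⟩
  have hJ1 : l ^ (U + C₀ + 1) ≤ J := by rw [hJ]; exact Nat.le_ceil _
  have hJl : l ≤ J := by
    refine le_trans ?_ hJ1
    rw [pow_succ]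
    exact le_mul_of_one_le_left (by linarith) (one_le_pow₀ (by linarith))
  have hJj : j₁ + 2 ≤ J := by
    have : (j₁ : ℝ) + 2 ≤ J := hlj.trans hJl
    exact_mod_cast this
  obtain ⟨Jm, hJm⟩ : ∃ Jm : ℕ, Jm = ⌈2 * ((2 * B + 3) * a)⌉₊ + 1 := ⟨_, rfl⟩
  -- the union
  have hsub : EvD D C₀ (U + C₀ + 1) B a y ⊆ ⋃ z ∈ Icc (-(R : ℤ)) R, ⋃ j ∈ Ioo (J - 1) Jm,
      ⋃ d ∈ (D j).filter (fun d : ℕ => (d : ℝ) ≤ (2 * B + 3 : ℕ) * a),
        {x : ℝ | |x| ≤ (2 * B + 3 : ℕ) ∧ (d : ℤ) ∣ ⌊a * x + (y + z)⌋} := by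
    rintro x ⟨hx, q, hq1, hq2, j, hj, d, hd, hdq⟩
    rw [← hld] at hq2 hj
    have f1 := Int.floor_le (a * x + y)
    have f2 := Int.lt_floor_add_one (a * x + y)
    have hq2' := abs_le.1 hq2
    obtain ⟨z, hz⟩ : ∃ z : ℤ, z = q - ⌊a * x + y⌋ := ⟨_, rfl⟩
    have hzr : (z : ℝ) = q - (⌊a * x + y⌋ : ℝ) := by rw [hz]; push_cast; rfl
    have hax : |a * x| ≤ a * B := by
      rw [abs_mul, abs_of_pos ha0]
      exact mul_le_mul_of_nonneg_left hx ha0.le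
    have hqa : (q : ℝ) ≤ (2 * B + 1) * a := by
      have h1 := (abs_le.1 hax).2
      have h2 := (abs_le.1 hy).2
      linarith [hq2'.2]
    have hdle : (d : ℝ) ≤ q := by exact_mod_cast Nat.le_of_dvd (by omega) hdq
    have hjJ : J ≤ j := by
      rw [hJ]
      exact Nat.ceil_le.2 hj
    have hj2 : 2 ≤ j := by omega
    have hj2r : (2 : ℝ) ≤ j := by exact_mod_cast hj2
    have hjd : (j : ℝ) / 2 < d := by
      have h1 := hD.large j (by omega) d hd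
      have h2 : Real.log (((2 ^ j : ℕ) : ℝ)) = j * Real.log 2 := by
        push_cast
        rw [Real.log_pow]
      rw [h2] at h1
      have h3 := Real.log_two_gt_d9
      have h4 : (j : ℝ) / 2 ≤ j * Real.log 2 := by nlinarith
      have h5 : (1 : ℝ) ≤ j * Real.log 2 := by linarith
      have h6 : (j : ℝ) * Real.log 2 ≤ (j * Real.log 2) ^ A := le_self_pow₀ h5 (by omega)
      linarith
    rw [Set.mem_iUnion₂]
    refine ⟨z, ?_, ?_⟩
    · rw [mem_Icc]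
      constructor
      · have : -(R : ℝ) ≤ z := by rw [hzr]; linarith [hq2'.1]
        exact_mod_cast this
      · have : (z : ℝ) ≤ R := by rw [hzr]; linarith [hq2'.2]
        exact_mod_cast this
    · rw [Set.mem_iUnion₂]
      refine ⟨j, ?_, ?_⟩
      · rw [mem_Ioo]
        refine ⟨by omega, ?_⟩
        have h1 : (j : ℝ) < Jm := by
          rw [hJm]; push_cast
          have h2 := Nat.le_ceil (2 * ((2 * (B : ℝ) + 3) * a))
          nlinarith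
        exact_mod_cast h1
      · rw [Set.mem_iUnion₂]
        refine ⟨d, ?_, ?_, ?_⟩
        · rw [mem_filter]
          refine ⟨hd, ?_⟩
          push_cast
          nlinarith
        · push_cast
          linarith
        · have h1 : a * x + (y + z) = (a * x + y) + (z : ℝ) := by ring
          rw [h1, Int.floor_add_intCast]
          have h2 : ⌊a * x + y⌋ + z = q := by rw [hz]; ring
          rw [h2]
          exact_mod_cast hdq
  -- the sum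
  have hz : ∀ z ∈ Icc (-(R : ℤ)) R, μ.real (⋃ j ∈ Ioo (J - 1) Jm,
      ⋃ d ∈ (D j).filter (fun d : ℕ => (d : ℝ) ≤ (2 * B + 3 : ℕ) * a),
        {x : ℝ | |x| ≤ (2 * B + 3 : ℕ) ∧ (d : ℤ) ∣ ⌊a * x + (y + z)⌋}) ≤ C * C₃ * (2 / J) := by
    intro z hz
    rw [mem_Icc] at hz
    have hzR : |(z : ℝ)| ≤ R := by
      rw [abs_le]
      constructor
      · exact_mod_cast hz.1
      · exact_mod_cast hz.2
    have hyz : |y + z| ≤ (2 * B + 3 : ℕ) * a := by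
      have h1 := abs_add_le y (z : ℝ)
      push_cast
      nlinarith
    refine (measureReal_biUnion_finset_le _ _).trans ?_
    have hj : ∀ j ∈ Ioo (J - 1) Jm, μ.real (⋃ d ∈ (D j).filter (fun d : ℕ => (d : ℝ) ≤ (2 * B + 3 : ℕ) * a),
        {x : ℝ | |x| ≤ (2 * B + 3 : ℕ) ∧ (d : ℤ) ∣ ⌊a * x + (y + z)⌋}) ≤ C * (C₃ * ((j : ℝ) ^ 2)⁻¹) := by
      intro j hj
      rw [mem_Ioo] at hj
      refine (measureReal_biUnion_finset_le _ _).trans ?_
      have hd : ∀ d ∈ (D j).filter (fun d : ℕ => (d : ℝ) ≤ (2 * B + 3 : ℕ) * a),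
          μ.real {x : ℝ | |x| ≤ (2 * B + 3 : ℕ) ∧ (d : ℤ) ∣ ⌊a * x + (y + z)⌋} ≤ C * (1 / (d : ℝ) ^ c) := by
        intro d hd
        rw [mem_filter] at hd
        have hd1 : 1 ≤ d := by
          have h1 := hD.large j (by omega) d hd.1
          have h2 : (0 : ℝ) < d := lt_of_le_of_lt (pow_nonneg (Real.log_nonneg (by
            exact_mod_cast Nat.one_le_two_pow)) _) h1
          have h3 : 0 < d := by exact_mod_cast h2
          omega
        rw [mul_one_div]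
        exact hdv a (y + z) ha1 hyz d hd1 hd.2
      refine (sum_le_sum hd).trans ?_
      rw [← mul_sum]
      apply mul_le_mul_of_nonneg_left _ hC
      refine le_trans ?_ (h3 j₁ D hD j (by omega) (by omega))
      apply sum_le_sum_of_subset_of_nonneg (filter_subset _ _)
      intro d _ _
      positivity
    refine (sum_le_sum hj).trans ?_
    rw [← mul_sum, ← mul_sum, ← mul_assoc]
    apply mul_le_mul_of_nonneg_left _ (by positivity)
    have h4 := sum_Ioo_inv_sq_le (α := ℝ) (J - 1) Jm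
    have h5 : (((J - 1 : ℕ) : ℝ)) + 1 = J := by
      rw [Nat.cast_sub (by omega)]
      push_cast
      ring
    rwa [h5] at h4
  refine (measureReal_mono hsub (measure_ne_top _ _)).trans ?_
  refine (measureReal_biUnion_finset_le _ _).trans ((sum_le_sum hz).trans ?_)
  rw [sum_const, nsmul_eq_mul, Int.card_Icc]
  have h4 : (((R : ℤ) + 1 - -(R : ℤ)).toNat : ℝ) = 2 * R + 1 := by
    have h5 : ((R : ℤ) + 1 - -(R : ℤ)).toNat = 2 * R + 1 := by omega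
    rw [h5]
    push_cast
    ring
  rw [h4]
  have hlC0 : 1 ≤ l ^ C₀ := one_le_pow₀ (by linarith)
  have hJ0 : (0 : ℝ) < J := by linarith
  have h5 : (2 * (R : ℝ) + 1) ≤ 7 * l ^ C₀ := by linarith
  have hCC : 0 ≤ C * C₃ := by positivity
  calc (2 * (R : ℝ) + 1) * (C * C₃ * (2 / J)) ≤ (7 * l ^ C₀) * (C * C₃ * (2 / l ^ (U + C₀ + 1))) := by
        apply mul_le_mul h5 _ (by positivity) (by positivity)
        apply mul_le_mul_of_nonneg_left _ hCC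
        exact div_le_div_of_nonneg_left (by norm_num) (by positivity) hJ1
    _ = (14 * (C * C₃)) / l * (1 / l ^ U) := by
        rw [pow_succ, pow_add]
        field_simp
        ring
    _ ≤ 1 * (1 / l ^ U) := by
        apply mul_le_mul_of_nonneg_right _ (by positivity)
        rw [div_le_one (by linarith)]
        linarith
    _ = _ := one_mul _

/-- the lemma of Borel and Cantelli -/
lemma bc_gen (μ : Measure ℝ) [IsProbabilityMeasure μ] (a : ℕ → ℝ) (ρ : ℝ) (_hρ : 0 < ρ)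
    (ha : ∀ᶠ k : ℕ in atTop, (k : ℝ) ^ ρ ≤ Real.log (a k)) (T U : ℕ)
    (hU : ∀ k : ℕ, 1 ≤ k → ∀ l : ℝ, (k : ℝ) ^ ρ ≤ l → (k : ℝ) ^ (T + 2) ≤ l ^ U)
    {𝒥 : Type} (J : ℕ → Finset 𝒥) (hm : ∀ᶠ k : ℕ in atTop, (J k).card ≤ k ^ T) (Ev : ℕ → 𝒥 → Set ℝ)
    (hEv : ∀ᶠ k : ℕ in atTop, ∀ j ∈ J k, μ.real (Ev k j) ≤ 1 / Real.log (a k) ^ U) :
    ∀ᵐ x ∂μ, ∀ᶠ k : ℕ in atTop, ∀ j ∈ J k, x ∉ Ev k j := by
  classical
  obtain ⟨k₀, hk₀⟩ := eventually_atTop.1 (ha.and (hm.and (hEv.and (eventually_ge_atTop 2))))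
  obtain ⟨E, hE⟩ : ∃ E : ℕ → Set ℝ, E = fun k => if k₀ ≤ k then ⋃ j ∈ J k, Ev k j else ∅ := ⟨_, rfl⟩
  have hmeas : ∀ k, μ (E k) ≤ ENNReal.ofReal (1 / (k : ℝ) ^ 2) := by
    intro k
    by_cases hk : k₀ ≤ k
    · obtain ⟨g2, g4, g5, g7⟩ := hk₀ k hk
      have hk0 : (0 : ℝ) < k := by exact_mod_cast (by omega : 0 < k)
      have hl0 : 0 < Real.log (a k) := lt_of_lt_of_le (Real.rpow_pos_of_pos hk0 ρ) g2
      have h2 : μ.real (E k) ≤ 1 / (k : ℝ) ^ 2 := by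
        rw [hE]
        simp only [hk, if_true]
        refine (measureReal_biUnion_finset_le _ _).trans ((sum_le_sum g5).trans ?_)
        rw [sum_const, nsmul_eq_mul]
        have h4 : (((J k).card : ℕ) : ℝ) ≤ (k : ℝ) ^ T := by exact_mod_cast g4
        have h5 := hU k (by omega) _ g2
        have h6 : 0 < Real.log (a k) ^ U := by positivity
        calc ((J k).card : ℝ) * (1 / Real.log (a k) ^ U) ≤ (k : ℝ) ^ T * (1 / (k : ℝ) ^ (T + 2)) :=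
              mul_le_mul h4 (one_div_le_one_div_of_le (by positivity) h5) (by positivity) (by positivity)
          _ = 1 / (k : ℝ) ^ 2 := by
              rw [pow_add]
              field_simp
      have h3 : μ (E k) = ENNReal.ofReal (μ.real (E k)) := by
        rw [Measure.real, ENNReal.ofReal_toReal (measure_ne_top _ _)]
      rw [h3]
      exact ENNReal.ofReal_le_ofReal h2
    · rw [hE]
      simp only [hk, if_false, measure_empty]
      exact zero_le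
  have hsum : ∑' k, μ (E k) ≠ ⊤ := by
    refine ne_top_of_le_ne_top ?_ (ENNReal.tsum_le_tsum hmeas)
    rw [← ENNReal.ofReal_tsum_of_nonneg (fun k => by positivity) (Real.summable_one_div_nat_pow.2 (by norm_num))]
    exact ENNReal.ofReal_ne_top
  filter_upwards [ae_eventually_notMem hsum] with x hx
  filter_upwards [hx, eventually_ge_atTop k₀] with k h1 hk j hj hcon
  rw [hE] at h1
  simp only [hk, if_true, Set.mem_iUnion, not_exists] at h1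
  exact h1 j hj hcon

end Pool.Agent.Q259.TM
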