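import Pool.Agent.Q259.TM.As
import Pool.Agent.Q259.TM.Spa
import Pool.Agent.TH786.GM.Final

set_option autoImplicit false

/-! Goldbach's conjecture for all multiples of typical integers. -/

namespace Pool.Agent.Q259.TM

open Finset MeasureTheory Filter
open Pool.Agent.Q259.AS (SelfSim FourLp sizes_ev exp_choice)
open Pool.Agent.H560R3.GB (g HL)

lemma exc_eq (ε : ℝ) (N q : ℕ) : Exc ε (N : ℝ) q = ((Pool.Agent.TH786.GM.exc ε N q : Finset ℕ) : Set ℕ) := by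
  classical
  ext n
  constructor
  · rintro ⟨h1, h2, h3, h4, h5⟩
    exact mem_coe.2 (mem_filter.2 ⟨mem_Icc.2 ⟨h1, by exact_mod_cast h2⟩, h3, h4, h5⟩)
  · intro h
    obtain ⟨h1, h3, h4, h5⟩ := mem_filter.1 (mem_coe.1 h)
    obtain ⟨h1, h2⟩ := mem_Icc.1 h1
    exact ⟨h1, by exact_mod_cast h2, h3, h4, h5⟩

/-- the sparse sets of the starting files -/
lemma exists_fam (ε c : ℝ) (hε : 0 < ε) (hc : 0 < c) (A : ℕ) : ∃ (j₁ : ℕ) (D : ℕ → Finset ℕ), Fam c A j₁ D ∧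
    ∀ j, j₁ ≤ j → ∀ q : ℕ, 1 ≤ q → q * q ≤ 2 ^ j → (∀ d ∈ D j, ¬ d ∣ q) →
      ((Exc ε ((2 ^ j : ℕ) : ℝ) q).ncard : ℝ) ≤ ((2 ^ j : ℕ) : ℝ) / (q * Real.log ((2 ^ j : ℕ) : ℝ) ^ A) := by
  classical
  obtain ⟨N₀, h0⟩ := Pool.Agent.TH786.GM.main ε (c / 2) hε (by linarith) A 0
  have h1 : ∀ j : ℕ, ∃ D : Finset ℕ, N₀ ≤ j → (∀ d ∈ D, Real.log ((2 ^ j : ℕ) : ℝ) ^ A < (d : ℝ)) ∧
      (∀ X : ℝ, 1 ≤ X → ((D.filter (fun d : ℕ => (d : ℝ) ≤ X)).card : ℝ) ≤ X ^ (c / 2)) ∧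
      ∀ q : ℕ, 1 ≤ q → q ≤ 2 ^ j → (q : ℝ) * q ≤ ((2 ^ j : ℕ) : ℝ) * Real.log ((2 ^ j : ℕ) : ℝ) ^ 0 → (∀ d ∈ D, ¬ d ∣ q) →
        ((Pool.Agent.TH786.GM.exc ε (2 ^ j) q).card : ℝ) ≤ ((2 ^ j : ℕ) : ℝ) / (q * Real.log ((2 ^ j : ℕ) : ℝ) ^ A) := by
    intro j
    by_cases hj : N₀ ≤ j
    · obtain ⟨D, hD⟩ := h0 (2 ^ j) (hj.trans (Nat.lt_two_pow_self).le)
      exact ⟨D, fun _ => hD⟩
    · exact ⟨∅, fun h => absurd h hj⟩
  choose D hD using h1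
  refine ⟨N₀, D, ⟨fun j hj => (hD j hj).1, fun j hj => (hD j hj).2.1⟩, fun j hj q hq hqq hdv => ?_⟩
  rw [exc_eq, Set.ncard_coe_finset]
  apply (hD j hj).2.2 q hq _ _ hdv
  · exact (Nat.le_mul_of_pos_left q (by omega)).trans hqq
  · rw [pow_zero, mul_one]
    exact_mod_cast hqq

/-- the multiples of typical integers, for large `x` -/
theorem as_far (μ : Measure ℝ) [IsProbabilityMeasure μ] (hμ : SelfSim μ ∨ FourLp μ) (a : ℕ → ℝ) (ρ : ℝ) (hρ : 0 < ρ)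
    (ha : ∀ᶠ k : ℕ in atTop, 0 < a k ∧ (k : ℝ) ^ ρ ≤ Real.log (a k)) (B T : ℕ) (Y : ℕ → Finset ℝ)
    (hY : ∀ᶠ k : ℕ in atTop, (Y k).card ≤ k ^ T ∧ ∀ y ∈ Y k, |y| ≤ B * a k) (ε : ℝ) (hε : 0 < ε) (A C : ℕ) :
    ∃ D₁ : ℕ, ∀ᵐ t ∂μ, ∀ᶠ k : ℕ in atTop, ∀ y ∈ Y k, ∀ q : ℕ, 0 < q →
      |(q : ℝ) - (a k * t + y)| ≤ Real.log (a k) ^ C → ∀ x : ℝ, Real.exp (Real.log (a k) ^ D₁) ≤ x →
      ((Exc ε x q).ncard : ℝ) ≤ x / (q * Real.log x ^ A) ∧ Real.log (a k) ≤ Real.log x := by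
  obtain ⟨c, hc, hdv⟩ := dvb_of μ hμ
  obtain ⟨A', hA'⟩ := exists_nat_ge (4 / c)
  obtain ⟨As, hAs⟩ : ∃ As, As = A + 1 + A' := ⟨_, rfl⟩
  have hAs' : 4 / c ≤ As := by rw [hAs]; push_cast; linarith [(Nat.cast_nonneg A : (0 : ℝ) ≤ A)]
  obtain ⟨j₁, D, hfam, hgood⟩ := exists_fam ε c hε hc As
  obtain ⟨U, hU⟩ := exp_choice ρ hρ T
  refine ⟨U + C + 1 + 2, ?_⟩
  have h1 : ∀ B' : ℕ, ∀ᵐ t ∂μ, ∀ᶠ k : ℕ in atTop, ∀ y ∈ Y k, t ∉ EvD D C (U + C + 1) (B + B') (a k) y := by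
    intro B'
    obtain ⟨a₀, ha₀⟩ := div_rare μ c hc hdv As hAs' j₁ D hfam C U (B + B')
    apply bc_gen μ a ρ hρ (ha.mono fun k h => h.2) T U hU Y (hY.mono fun k h => h.1)
      (fun k y => EvD D C (U + C + 1) (B + B') (a k) y)
    filter_upwards [hY, ha, sizes_ev a ρ hρ ha (Real.log (|a₀| + 1))] with k h2 h3 h4 y hy
    apply ha₀ (a k)
    · have h6 := (Real.log_le_log_iff (by positivity) h3.1).1 h4.1
      linarith [le_abs_self a₀]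
    · refine (h2.2 y hy).trans (mul_le_mul_of_nonneg_right ?_ h3.1.le)
      push_cast
      linarith [Nat.cast_nonneg (α := ℝ) B']
  filter_upwards [ae_all_iff.2 h1] with t ht
  obtain ⟨B', hB'⟩ := exists_nat_ge |t|
  obtain ⟨l₀, hl₀⟩ : ∃ l₀ : ℝ, ∀ l : ℝ, l₀ ≤ l → l ^ C ≤ Real.exp l := by
    have h1 := (Real.tendsto_pow_mul_exp_neg_atTop_nhds_zero C).eventually_le_const (show (0 : ℝ) < 1 by norm_num)
    obtain ⟨l₀, h2⟩ := eventually_atTop.1 h1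
    refine ⟨l₀, fun l hl => ?_⟩
    have h3 := h2 l hl
    rw [Real.exp_neg] at h3
    rwa [← div_eq_mul_inv, div_le_one (Real.exp_pos l)] at h3
  filter_upwards [ht B', hY, sizes_ev a ρ hρ ha (max (max 8 (j₁ : ℝ)) (max l₀ (|t| + B + 1)))]
    with k hk hYk hs y hy q hq hdist x hx
  obtain ⟨hs1, -, ha1⟩ := hs
  obtain ⟨l, hl⟩ : ∃ l, l = Real.log (a k) := ⟨_, rfl⟩
  rw [← hl] at hs1 hdist hx ⊢
  have hl8 : 8 ≤ l := ((le_max_left _ _).trans (le_max_left _ _)).trans hs1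
  have hlj : (j₁ : ℝ) ≤ l := ((le_max_right _ _).trans (le_max_left _ _)).trans hs1
  have hll₀ : l₀ ≤ l := ((le_max_left _ _).trans (le_max_right _ _)).trans hs1
  have hlt : |t| + B + 1 ≤ l := ((le_max_right _ _).trans (le_max_right _ _)).trans hs1
  have hq0 : (0 : ℝ) < q := by exact_mod_cast hq
  have hq1 : (1 : ℝ) ≤ q := by exact_mod_cast hq
  have hal : a k = Real.exp l := by rw [hl, Real.exp_log (by linarith)]
  have hlexp : l ≤ Real.exp l := by linarith [Real.add_one_le_exp l]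
  have hqle : (q : ℝ) ≤ Real.exp (2 * l) := by
    have h2 := (abs_le.1 hdist).2
    have h3 : a k * t ≤ a k * |t| := mul_le_mul_of_nonneg_left (le_abs_self t) (by linarith)
    have h4 : y ≤ B * a k := (le_abs_self y).trans (hYk.2 y hy)
    have h5 : l ^ C ≤ a k := by rw [hal]; exact hl₀ l hll₀
    have h6 : (q : ℝ) ≤ a k * (|t| + B + 1) := by nlinarith
    have h7 : a k * (|t| + B + 1) ≤ a k * a k := by
      apply mul_le_mul_of_nonneg_left _ (by linarith)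
      rw [hal]
      linarith
    have h8 : a k * a k = Real.exp (2 * l) := by rw [hal, ← Real.exp_add]; congr 1; ring
    linarith
  obtain ⟨D₀, hD₀⟩ : ∃ D₀, D₀ = U + C + 1 := ⟨_, rfl⟩
  rw [← hD₀] at hx hk
  have hx0 : 0 < x := lt_of_lt_of_le (Real.exp_pos _) hx
  have hlx : l ^ (D₀ + 2) ≤ Real.log x := (Real.le_log_iff_exp_le hx0).2 hx
  have hl1D : 1 ≤ l ^ D₀ := one_le_pow₀ (by linarith)
  have hlD : l ^ D₀ * 64 ≤ l ^ (D₀ + 2) := by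
    rw [pow_add]
    apply mul_le_mul_of_nonneg_left _ (by positivity)
    nlinarith
  have hl4 : 8 * l ≤ l ^ (D₀ + 2) := by
    rw [pow_add]
    have : 8 * l ≤ l ^ 2 := by nlinarith
    nlinarith
  have hlogx : 8 ≤ Real.log x := by linarith
  refine ⟨?_, by linarith⟩
  -- the power of two
  obtain ⟨i, hi⟩ : ∃ i, i = Nat.log 2 ⌊x⌋₊ := ⟨_, rfl⟩
  have hx1 : 1 ≤ x := by
    have h2 := Real.add_one_le_exp (l ^ (D₀ + 2))
    have h3 : (0 : ℝ) < l ^ (D₀ + 2) := by positivity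
    linarith
  have hfl1 : 1 ≤ ⌊x⌋₊ := Nat.le_floor (by push_cast; exact hx1)
  have hi1 : ((2 ^ i : ℕ) : ℝ) ≤ x := by
    have h2 : 2 ^ i ≤ ⌊x⌋₊ := by rw [hi]; exact Nat.pow_log_le_self 2 (by omega)
    exact (by exact_mod_cast h2 : ((2 ^ i : ℕ) : ℝ) ≤ (⌊x⌋₊ : ℝ)).trans (Nat.floor_le hx0.le)
  obtain ⟨j, hj⟩ : ∃ j, j = i + 1 := ⟨_, rfl⟩
  have hj1 : x ≤ ((2 ^ j : ℕ) : ℝ) := by
    have h2 : ⌊x⌋₊ + 1 ≤ 2 ^ j := by rw [hj, hi]; exact Nat.lt_pow_succ_log_self (by norm_num) _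
    have h3 : x < (⌊x⌋₊ : ℝ) + 1 := Nat.lt_floor_add_one x
    have h4 : (⌊x⌋₊ : ℝ) + 1 ≤ ((2 ^ j : ℕ) : ℝ) := by exact_mod_cast h2
    linarith
  have hj2 : ((2 ^ j : ℕ) : ℝ) ≤ 2 * x := by
    rw [hj, pow_succ]
    push_cast at hi1 ⊢
    linarith
  have hlogj : Real.log x ≤ Real.log ((2 ^ j : ℕ) : ℝ) := Real.log_le_log hx0 hj1
  have hjlog : Real.log ((2 ^ j : ℕ) : ℝ) ≤ j := by
    push_cast
    rw [Real.log_pow]
    have h2 := Real.log_two_lt_d9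
    have h3 : (0 : ℝ) ≤ j := Nat.cast_nonneg _
    nlinarith
  have hjl : l ^ D₀ ≤ (j : ℝ) := by linarith
  have hjj : j₁ ≤ j := by
    have h2 : (j₁ : ℝ) ≤ j := by linarith
    exact_mod_cast h2
  have hqq : q * q ≤ 2 ^ j := by
    have h2 : ((q * q : ℕ) : ℝ) ≤ ((2 ^ j : ℕ) : ℝ) := by
      push_cast
      calc (q : ℝ) * q ≤ Real.exp (2 * l) * Real.exp (2 * l) := mul_le_mul hqle hqle hq0.le (Real.exp_pos _).le
        _ = Real.exp (4 * l) := by rw [← Real.exp_add]; congr 1; ring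
        _ ≤ Real.exp (l ^ (D₀ + 2)) := Real.exp_le_exp.2 (by linarith)
        _ ≤ x := hx
        _ ≤ 2 ^ j := by exact_mod_cast hj1
    exact_mod_cast h2
  have hnd : ∀ d ∈ D j, ¬ d ∣ q := by
    intro d hd hdq
    apply hk y hy
    refine ⟨?_, q, hq, by rw [← hl]; exact hdist, j, by rw [← hl]; exact hjl, d, hd, hdq⟩
    push_cast
    linarith [(Nat.cast_nonneg B : (0 : ℝ) ≤ B)]
  have h2 := hgood j hjj q hq hqq hnd
  have h3 : (Exc ε x q).ncard ≤ (Exc ε ((2 ^ j : ℕ) : ℝ) q).ncard := by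
    apply Set.ncard_le_ncard _ (exc_finite _ _ _)
    rintro n ⟨b1, b2, b3, b4, b5⟩
    exact ⟨b1, b2.trans hj1, b3, b4, b5⟩
  have h4 : ((Exc ε x q).ncard : ℝ) ≤ ((Exc ε ((2 ^ j : ℕ) : ℝ) q).ncard : ℝ) := by exact_mod_cast h3
  refine h4.trans (h2.trans ?_)
  have hlx0 : 0 < Real.log x := by linarith
  have h5 : 2 * Real.log x ^ A ≤ Real.log ((2 ^ j : ℕ) : ℝ) ^ As := by
    calc 2 * Real.log x ^ A ≤ Real.log x ^ A * Real.log x := by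
          rw [mul_comm]
          exact mul_le_mul_of_nonneg_left (by linarith) (by positivity)
      _ = Real.log x ^ (A + 1) := (pow_succ _ _).symm
      _ ≤ Real.log x ^ As := pow_le_pow_right₀ (by linarith) (by omega)
      _ ≤ _ := pow_le_pow_left₀ hlx0.le hlogj _
  have hlj0 : 0 < Real.log ((2 ^ j : ℕ) : ℝ) := by linarith
  rw [div_le_div_iff₀ (by positivity) (by positivity)]
  calc ((2 ^ j : ℕ) : ℝ) * (q * Real.log x ^ A) ≤ (2 * x) * (q * Real.log x ^ A) :=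
        mul_le_mul_of_nonneg_right hj2 (by positivity)
    _ = x * (q * (2 * Real.log x ^ A)) := by ring
    _ ≤ x * (q * Real.log ((2 ^ j : ℕ) : ℝ) ^ As) := by
        apply mul_le_mul_of_nonneg_left _ hx0.le
        exact mul_le_mul_of_nonneg_left h5 hq0.le

/-- **All multiples of typical integers.** -/
theorem as_all (μ : Measure ℝ) [IsProbabilityMeasure μ] (hμ : SelfSim μ ∨ FourLp μ) (a : ℕ → ℝ) (ρ : ℝ) (hρ : 0 < ρ)
    (ha : ∀ᶠ k : ℕ in atTop, 0 < a k ∧ (k : ℝ) ^ ρ ≤ Real.log (a k)) (B T : ℕ) (Y : ℕ → Finset ℝ)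
    (hY : ∀ᶠ k : ℕ in atTop, (Y k).card ≤ k ^ T ∧ ∀ y ∈ Y k, |y| ≤ B * a k) :
    ∀ᵐ t ∂μ, ∀ ε : ℝ, 0 < ε → ∀ A C : ℕ, ∀ᶠ k : ℕ in atTop, ∀ y ∈ Y k, ∀ q : ℕ, 0 < q →
      |(q : ℝ) - (a k * t + y)| ≤ Real.log (a k) ^ C → ∀ x : ℝ, (q : ℝ) ≤ x →
      ((Exc ε x q).ncard : ℝ) ≤ x / (q * Real.log (a k) ^ A) ∧
      (2 ≤ x → ((Exc ε x q).ncard : ℝ) ≤ x / (q * Real.log x ^ A)) := by
  have h0 : ∀ m A C : ℕ, ∃ D₁ : ℕ, ∀ᵐ t ∂μ, ∀ᶠ k : ℕ in atTop, ∀ y ∈ Y k, ∀ q : ℕ, 0 < q →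
      |(q : ℝ) - (a k * t + y)| ≤ Real.log (a k) ^ C → ∀ x : ℝ, Real.exp (Real.log (a k) ^ D₁) ≤ x →
      ((Exc (1 / ((m : ℝ) + 1)) x q).ncard : ℝ) ≤ x / (q * Real.log x ^ A) ∧ Real.log (a k) ≤ Real.log x :=
    fun m A C => as_far μ hμ a ρ hρ ha B T Y hY (1 / ((m : ℝ) + 1)) (by positivity) A C
  choose D₁ hD₁ using h0
  have h1 := ae_all_iff.2 (fun m => ae_all_iff.2 (fun A => ae_all_iff.2 (fun C => hD₁ m A C)))
  filter_upwards [h1, as_multiples μ hμ a ρ hρ ha B T Y hY] with t ht1 ht2 ε hε A C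
  obtain ⟨m, hm⟩ := exists_nat_one_div_lt hε
  obtain ⟨E, hE⟩ : ∃ E, E = D₁ m A C := ⟨_, rfl⟩
  filter_upwards [ht1 m A C, ht2 ε hε (E * A + A) C E, sizes_ev a ρ hρ ha 2] with k hk1 hk2 hs y hy q hq hdist x hx
  rw [← hE] at hk1
  obtain ⟨hs2, -, ha1⟩ := hs
  obtain ⟨l, hl⟩ : ∃ l, l = Real.log (a k) := ⟨_, rfl⟩
  have hq0 : (0 : ℝ) < q := by exact_mod_cast hq
  have hx0 : 0 < x := lt_of_lt_of_le hq0 hx
  rcases le_total (Real.exp (Real.log (a k) ^ E)) x with h | h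
  · obtain ⟨h2, h3⟩ := hk1 y hy q hq hdist x h
    have h4 : ((Exc ε x q).ncard : ℝ) ≤ x / (q * Real.log x ^ A) := by
      refine le_trans ?_ h2
      have h5 : (Exc ε x q).ncard ≤ (Exc (1 / ((m : ℝ) + 1)) x q).ncard := by
        apply Set.ncard_le_ncard _ (exc_finite _ _ _)
        rintro n ⟨b1, b2, b3, b4, b5⟩
        exact ⟨b1, b2, b3, b4, fun h => b5 (good_mono hm.le h)⟩
      exact_mod_cast h5
    refine ⟨h4.trans ?_, fun _ => h4⟩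
    rw [← hl] at h3 hs2 ⊢
    apply div_le_div_of_nonneg_left hx0.le (by positivity)
    apply mul_le_mul_of_nonneg_left _ hq0.le
    exact pow_le_pow_left₀ (by linarith) h3 A
  · have h2 := hk2 y hy q hq hdist x hx h
    have h3 : Real.log x ≤ Real.log (a k) ^ E := by
      have := Real.log_le_log hx0 h
      rwa [Real.log_exp] at this
    rw [← hl] at h2 h3 hs2 ⊢
    have hl1 : 1 ≤ l := by linarith
    constructor
    · refine h2.trans ?_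
      apply div_le_div_of_nonneg_left hx0.le (by positivity)
      apply mul_le_mul_of_nonneg_left _ hq0.le
      exact pow_le_pow_right₀ hl1 (by omega)
    · intro hx2
      have hlx : 0 < Real.log x := Real.log_pos (by linarith)
      refine h2.trans ?_
      apply div_le_div_of_nonneg_left hx0.le (by positivity)
      apply mul_le_mul_of_nonneg_left _ hq0.le
      calc Real.log x ^ A ≤ (l ^ E) ^ A := pow_le_pow_left₀ hlx.le h3 A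
        _ = l ^ (E * A) := (pow_mul _ _ _).symm
        _ ≤ _ := pow_le_pow_right₀ hl1 (by omega)

end Pool.Agent.Q259.TM
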