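import Pool.Agent.Q259.TM.Eng
import Pool.Agent.Q259.AS.FnA

set_option autoImplicit false

/-! Goldbach's conjecture for the multiples of typical integers: almost sure statements. -/

namespace Pool.Agent.Q259.TM

open Finset MeasureTheory Filter
open Pool.Agent.Q259.AS (SelfSim FourLp niceM_of as_one sizes_ev)
open Pool.Agent.H560R3.GB (g HL)

/-- the exceptional even multiples `n ≤ x` of `q` -/
def Exc (ε x : ℝ) (q : ℕ) : Set ℕ := {n : ℕ | 0 < n ∧ (n : ℝ) ≤ x ∧ 2 ∣ n ∧ q ∣ n ∧ ¬ Good ε n}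

lemma HL_nonneg (n : ℕ) : 0 ≤ HL n := by
  have h2 := Pool.Agent.W93.GB.one_le_sing n
  unfold HL
  positivity

lemma good_mono {ε ε' : ℝ} (h : ε ≤ ε') {n : ℕ} (hn : Good ε n) : Good ε' n :=
  ⟨hn.1.trans (mul_le_mul_of_nonneg_right h (HL_nonneg n)), hn.2⟩

lemma exc_finite (ε x : ℝ) (q : ℕ) : (Exc ε x q).Finite := by
  apply (Set.finite_Iic ⌊x⌋₊).subset
  intro n hn
  exact Nat.le_floor hn.2.1

/-- an integer outside of the exceptional sets has few exceptional multiples -/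
lemma exc_le (ε : ℝ) (T A X q : ℕ) (hq : 0 < q) (hbad : (q : ℤ) ∉ BadM ε T A X) (x : ℝ) (hx : (q : ℝ) ≤ x)
    (hxT : Nat.log 2 ⌊x / q⌋₊ ≤ Nat.log 2 X ^ T) (hX : 1 ≤ Nat.log 2 X) :
    ((Exc ε x q).ncard : ℝ) ≤ 2 * (x / q) / (Nat.log 2 X : ℝ) ^ A := by
  classical
  have hq0 : (0 : ℝ) < q := by exact_mod_cast hq
  obtain ⟨L, hL⟩ : ∃ L, L = Nat.log 2 ⌊x / q⌋₊ := ⟨_, rfl⟩
  have hbad' : ∀ l : ℕ, l ≤ Nat.log 2 X ^ T → Nat.log 2 X ^ A * (badm ε l q).card ≤ 2 ^ l := by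
    intro l hl
    by_contra hcon
    push Not at hcon
    exact hbad ⟨l, hl, hcon⟩
  have h1 : Exc ε x q ⊆ (((range (L + 1)).biUnion (fun l => badm ε l q)).image (fun m => m * q) : Finset ℕ) := by
    rintro n ⟨h1, h2, h3, ⟨m, rfl⟩, h5⟩
    have hm : 0 < m := by
      rcases Nat.eq_zero_or_pos m with h0 | h0
      · rw [h0, mul_zero] at h1; omega
      · exact h0
    have hmx : m ≤ ⌊x / q⌋₊ := by
      apply Nat.le_floor
      rw [le_div_iff₀ hq0]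
      push_cast at h2
      linarith
    rw [mem_coe, mem_image]
    refine ⟨m, ?_, mul_comm _ _⟩
    rw [mem_biUnion]
    refine ⟨Nat.log 2 m, ?_, ?_⟩
    · rw [mem_range, hL]
      exact Nat.lt_succ_of_le (Nat.log_mono_right hmx)
    · unfold badm
      rw [mem_filter, mem_Ico]
      refine ⟨⟨Nat.pow_log_le_self 2 (by omega), ?_⟩, ?_, ?_, ?_⟩
      · have := Nat.lt_pow_succ_log_self (by norm_num : 1 < 2) m
        rw [pow_succ] at this
        omega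
      · have : 0 < (m : ℤ) := by exact_mod_cast hm
        have : 0 < (q : ℤ) := by exact_mod_cast hq
        positivity
      · have : ((2 : ℕ) : ℤ) ∣ ((q * m : ℕ) : ℤ) := Int.natCast_dvd_natCast.2 h3
        push_cast at this
        rwa [mul_comm] at this
      · have : ((m : ℤ) * (q : ℤ)).toNat = q * m := by
          have h6 : (m : ℤ) * (q : ℤ) = ((q * m : ℕ) : ℤ) := by push_cast; ring
          rw [h6, Int.toNat_natCast]
        rw [this]
        exact h5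
  have h2 : (Exc ε x q).ncard ≤ ∑ l ∈ range (L + 1), (badm ε l q).card := by
    refine (Set.ncard_le_ncard h1 (Finset.finite_toSet _)).trans ?_
    rw [Set.ncard_coe_finset]
    exact card_image_le.trans card_biUnion_le
  have hLg : (0 : ℝ) < (Nat.log 2 X : ℝ) := by exact_mod_cast hX
  have h3 : ∑ l ∈ range (L + 1), ((badm ε l q).card : ℝ) ≤ ∑ l ∈ range (L + 1), 2 ^ l / (Nat.log 2 X : ℝ) ^ A := by
    apply sum_le_sum
    intro l hl
    have h4 := hbad' l (by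
      have := mem_range.1 hl
      rw [← hL] at hxT
      omega)
    rw [le_div_iff₀ (by positivity), mul_comm]
    exact_mod_cast h4
  have h4 : ((Exc ε x q).ncard : ℝ) ≤ ∑ l ∈ range (L + 1), ((badm ε l q).card : ℝ) := by exact_mod_cast h2
  refine h4.trans (h3.trans ?_)
  rw [← sum_div]
  apply div_le_div_of_nonneg_right _ (by positivity)
  have h5 : ∑ l ∈ range (L + 1), (2 : ℝ) ^ l = 2 ^ (L + 1) - 1 := by
    have := geom_sum_eq (by norm_num : (2 : ℝ) ≠ 1) (L + 1)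
    rw [this]
    norm_num
  rw [h5]
  have h6 : (2 : ℝ) ^ L ≤ x / q := by
    have h7 : 1 ≤ ⌊x / q⌋₊ := by
      apply Nat.le_floor
      push_cast
      rw [le_div_iff₀ hq0, one_mul]
      exact hx
    have h8 : 2 ^ L ≤ ⌊x / q⌋₊ := by rw [hL]; exact Nat.pow_log_le_self 2 (by omega)
    have h9 : ((2 ^ L : ℕ) : ℝ) ≤ x / q := (by exact_mod_cast h8 : ((2 ^ L : ℕ) : ℝ) ≤ (⌊x / q⌋₊ : ℝ)).trans
      (Nat.floor_le (by have := hq0.le.trans hx; positivity))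
    push_cast at h9
    exact h9
  rw [pow_succ]
  linarith

/-- **The multiples of typical integers.** -/
theorem as_multiples (μ : Measure ℝ) [IsProbabilityMeasure μ] (hμ : SelfSim μ ∨ FourLp μ) (a : ℕ → ℝ) (ρ : ℝ) (hρ : 0 < ρ)
    (ha : ∀ᶠ k : ℕ in atTop, 0 < a k ∧ (k : ℝ) ^ ρ ≤ Real.log (a k)) (B T : ℕ) (Y : ℕ → Finset ℝ)
    (hY : ∀ᶠ k : ℕ in atTop, (Y k).card ≤ k ^ T ∧ ∀ y ∈ Y k, |y| ≤ B * a k) :
    ∀ᵐ t ∂μ, ∀ ε : ℝ, 0 < ε → ∀ A C D : ℕ, ∀ᶠ k : ℕ in atTop, ∀ y ∈ Y k, ∀ q : ℕ, 0 < q →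
      |(q : ℝ) - (a k * t + y)| ≤ Real.log (a k) ^ C → ∀ x : ℝ, (q : ℝ) ≤ x → x ≤ Real.exp (Real.log (a k) ^ D) →
      ((Exc ε x q).ncard : ℝ) ≤ x / (q * Real.log (a k) ^ A) := by
  have h1 : ∀ m A C D : ℕ, ∀ᵐ t ∂μ, ∀ᶠ k : ℕ in atTop, ∀ y ∈ Y k, ∀ n ∈ BadM (1 / ((m : ℝ) + 1)) (D + 1) (A + 1) ⌈a k⌉₊,
      Real.log (a k) ^ C < |(n : ℝ) - (a k * t + y)| := by
    intro m A C D
    exact as_one (eng_multiples (1 / ((m : ℝ) + 1)) (by positivity) (D + 1) (A + 1)) μ (niceM_of μ hμ) a ρ hρ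
      (ha.mono fun k h => h.2) (ha.mono fun k h => h.1) T C (B + 2) Y (hY.mono fun k h => h.1) (fun _ y => y)
      (by
        filter_upwards [hY, ha] with k h h2 y hy
        refine (h.2 y hy).trans (mul_le_mul_of_nonneg_right ?_ h2.1.le)
        push_cast
        linarith)
      (fun k _ => ⌈a k⌉₊)
      (by
        filter_upwards [ha, eventually_ge_atTop 1] with k h hk y _
        have h0 : 0 < Real.log (a k) :=
          lt_of_lt_of_le (Real.rpow_pos_of_pos (by exact_mod_cast hk) ρ) h.2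
        have h1 : 1 < a k := (Real.log_pos_iff h.1.le).1 h0
        have h3 := Nat.le_ceil (a k)
        have h4 := Nat.ceil_lt_add_one h.1.le
        have h5 : (0 : ℝ) ≤ B := Nat.cast_nonneg B
        simp only [id]
        push_cast
        constructor
        · nlinarith
        · nlinarith)
  have h2 := ae_all_iff.2 (fun m => ae_all_iff.2 (fun A => ae_all_iff.2 (fun C => ae_all_iff.2 (fun D => h1 m A C D))))
  filter_upwards [h2] with t ht ε hε A C D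
  obtain ⟨m, hm⟩ := exists_nat_one_div_lt hε
  filter_upwards [ht m A C D, sizes_ev a ρ hρ ha 4] with k hk hs y hy q hq hdist x hx hxD
  obtain ⟨hs4, hs1, ha1⟩ := hs
  obtain ⟨l, hl⟩ : ∃ l, l = Real.log (a k) := ⟨_, rfl⟩
  rw [← hl] at hs4 hxD hdist ⊢
  have hq0 : (0 : ℝ) < q := by exact_mod_cast hq
  have hbad : (q : ℤ) ∉ BadM (1 / ((m : ℝ) + 1)) (D + 1) (A + 1) ⌈a k⌉₊ := by
    intro hcon
    have h3 := hk y hy (q : ℤ) hcon
    rw [← hl] at h3
    push_cast at h3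
    linarith
  have hLg : l ≤ (Nat.log 2 ⌈a k⌉₊ : ℝ) := by
    have h3 : a k < ((2 ^ (Nat.log 2 ⌈a k⌉₊ + 1) : ℕ) : ℝ) := by
      refine lt_of_le_of_lt (Nat.le_ceil (a k)) ?_
      exact_mod_cast Nat.lt_pow_succ_log_self (by norm_num : 1 < 2) ⌈a k⌉₊
    have h4 : l ≤ ((Nat.log 2 ⌈a k⌉₊ : ℝ) + 1) * Real.log 2 := by
      rw [hl]
      have h5 := Real.log_le_log (by linarith) h3.le
      push_cast at h5
      rw [Real.log_pow] at h5
      push_cast at h5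
      exact h5
    have h5 := Real.log_two_lt_d9
    have h6 : (0 : ℝ) ≤ (Nat.log 2 ⌈a k⌉₊ : ℝ) := Nat.cast_nonneg _
    nlinarith
  have hLg1 : 1 ≤ Nat.log 2 ⌈a k⌉₊ := by
    have : (1 : ℝ) ≤ (Nat.log 2 ⌈a k⌉₊ : ℝ) := by linarith
    exact_mod_cast this
  have hxq : (1 : ℝ) ≤ x / q := by
    rw [le_div_iff₀ hq0, one_mul]
    exact hx
  have hq1 : (1 : ℝ) ≤ q := by exact_mod_cast hq
  have hL : Nat.log 2 ⌊x / q⌋₊ ≤ Nat.log 2 ⌈a k⌉₊ ^ (D + 1) := by
    obtain ⟨L, hLd⟩ : ∃ L, L = Nat.log 2 ⌊x / q⌋₊ := ⟨_, rfl⟩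
    rw [← hLd]
    have h3 : 1 ≤ ⌊x / q⌋₊ := Nat.le_floor (by push_cast; exact hxq)
    have h4 : ((2 ^ L : ℕ) : ℝ) ≤ x := by
      have h5 : 2 ^ L ≤ ⌊x / q⌋₊ := by rw [hLd]; exact Nat.pow_log_le_self 2 (by omega)
      have h6 : ((2 ^ L : ℕ) : ℝ) ≤ (⌊x / q⌋₊ : ℝ) := by exact_mod_cast h5
      have h7 : (⌊x / q⌋₊ : ℝ) ≤ x / q := Nat.floor_le (by linarith)
      have h8 : x / q ≤ x := div_le_self (by linarith) hq1
      linarith
    have h5 : (L : ℝ) * Real.log 2 ≤ l ^ D := by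
      have h6 := Real.log_le_log (by positivity) (h4.trans hxD)
      rw [Real.log_exp] at h6
      push_cast at h6
      rwa [Real.log_pow] at h6
    have h6 := Real.log_two_gt_d9
    have h7 : (L : ℝ) ≤ l ^ (D + 1) := by
      have h8 : 0 ≤ l ^ D := by positivity
      have h9 : (0 : ℝ) ≤ L := Nat.cast_nonneg _
      rw [pow_succ]
      nlinarith
    have h8 : (L : ℝ) ≤ (Nat.log 2 ⌈a k⌉₊ : ℝ) ^ (D + 1) := h7.trans (pow_le_pow_left₀ (by linarith) hLg _)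
    exact_mod_cast h8
  have h3 := exc_le (1 / ((m : ℝ) + 1)) (D + 1) (A + 1) ⌈a k⌉₊ q hq hbad x hx hL hLg1
  have h4 : (Exc ε x q).ncard ≤ (Exc (1 / ((m : ℝ) + 1)) x q).ncard := by
    apply Set.ncard_le_ncard _ (exc_finite _ _ _)
    rintro n ⟨b1, b2, b3, b4, b5⟩
    exact ⟨b1, b2, b3, b4, fun h => b5 (good_mono hm.le h)⟩
  have h5 : ((Exc ε x q).ncard : ℝ) ≤ 2 * (x / q) / (Nat.log 2 ⌈a k⌉₊ : ℝ) ^ (A + 1) :=
    (by exact_mod_cast h4 : ((Exc ε x q).ncard : ℝ) ≤ ((Exc (1 / ((m : ℝ) + 1)) x q).ncard : ℝ)).trans h3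
  refine h5.trans ?_
  calc 2 * (x / q) / (Nat.log 2 ⌈a k⌉₊ : ℝ) ^ (A + 1) ≤ 2 * (x / q) / l ^ (A + 1) := by
        apply div_le_div_of_nonneg_left (by positivity) (by positivity)
        exact pow_le_pow_left₀ (by linarith) hLg _
    _ = (x / q) / l ^ A * (2 / l) := by rw [pow_succ]; field_simp
    _ ≤ (x / q) / l ^ A * 1 := by
        apply mul_le_mul_of_nonneg_left _ (by positivity)
        rw [div_le_one (by linarith)]
        linarith
    _ = x / (q * l ^ A) := by rw [mul_one, div_div]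

end Pool.Agent.Q259.TM
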