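import Mathlib

set_option autoImplicit false

/-! Counting the frequencies whose multiples are often near a given set of frequencies. -/

namespace Pool.Agent.Q259.TM

open Finset

lemma card_le_interval {ι : Type} (s : Finset ι) (f : ι → ℤ) (hf : Set.InjOn f s) (y w : ℝ) (hw : 0 ≤ w)
    (h : ∀ i ∈ s, y ≤ f i ∧ (f i : ℝ) ≤ y + w) : (s.card : ℝ) ≤ w + 1 := by
  classical
  have h1 : (s.image f) ⊆ Icc ⌈y⌉ ⌊y + w⌋ := by
    intro x hx
    obtain ⟨i, hi, rfl⟩ := mem_image.1 hx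
    exact mem_Icc.2 ⟨Int.ceil_le.2 (h i hi).1, Int.le_floor.2 (h i hi).2⟩
  have h2 := card_le_card h1
  rw [card_image_of_injOn hf, Int.card_Icc] at h2
  have h3 : (((⌊y + w⌋ + 1 - ⌈y⌉).toNat : ℕ) : ℝ) ≤ w + 1 := by
    have h4 := Int.floor_le (y + w)
    have h5 := Int.le_ceil y
    rcases le_total 0 (⌊y + w⌋ + 1 - ⌈y⌉) with h6 | h6
    · have h7 : (((⌊y + w⌋ + 1 - ⌈y⌉).toNat : ℕ) : ℝ) = ((⌊y + w⌋ + 1 - ⌈y⌉ : ℤ) : ℝ) := by
        have := Int.toNat_of_nonneg h6
        exact_mod_cast this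
      rw [h7]
      push_cast
      linarith
    · rw [Int.toNat_of_nonpos h6]
      push_cast
      linarith
  exact (by exact_mod_cast h2 : (s.card : ℝ) ≤ _).trans h3

/-- the multiple `m t' / B` of the frequency `t' / B` is within `H` of a member of `P`, modulo `N` -/
def Hit (N B H : ℕ) (P : Finset ℕ) (m t' : ℕ) : Prop :=
  ∃ t : ℤ, |(B : ℤ) * t - m * t'| ≤ H * B ∧ (t % (N : ℤ)).toNat ∈ P

open Classical in
lemma double_count (M Z V : ℕ) (hM : 1 ≤ M) (C : Finset ℕ) (R : ℕ → ℕ → Prop)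
    (h1 : ∀ u ∈ C, M ≤ Z * ((Ico M (2 * M)).filter (fun m => R m u)).card)
    (h2 : ∀ m ∈ Ico M (2 * M), (C.filter (fun u => R m u)).card ≤ V) : C.card ≤ Z * V := by
  have h3 : C.card * M ≤ Z * V * M := by
    calc C.card * M = ∑ _u ∈ C, M := by rw [sum_const, smul_eq_mul]
      _ ≤ ∑ u ∈ C, Z * ((Ico M (2 * M)).filter (fun m => R m u)).card := sum_le_sum h1
      _ = Z * ∑ m ∈ Ico M (2 * M), (C.filter (fun u => R m u)).card := by
          rw [← mul_sum]
          congr 1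
          simp only [card_filter]
          rw [sum_comm]
      _ ≤ Z * ∑ _m ∈ Ico M (2 * M), V := Nat.mul_le_mul_left _ (sum_le_sum h2)
      _ = Z * V * M := by
          rw [sum_const, Nat.card_Ico, smul_eq_mul]
          have : 2 * M - M = M := by omega
          rw [this]
          ring
  exact Nat.le_of_mul_le_mul_right h3 (by omega)

/-- few cells have the same image -/
lemma fiber (b B M H l l' m : ℕ) (hm : M ≤ m) (hM : 1 ≤ M) (hB : B ≤ 2 * b * M) (hl : l ≤ b * l') (hl' : 1 ≤ l')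
    (hl1 : 1 ≤ l) (U : Finset ℕ) (τ : ℕ → ℕ) (hτ : ∀ u ∈ U, τ u / l' = u) (t : ℕ → ℤ)
    (ht : ∀ u ∈ U, |(B : ℤ) * t u - m * τ u| ≤ H * B) :
    U.card ≤ (2 * b * (b + 2 * H) + 1) * (U.image (fun u => t u / (l : ℤ))).card := by
  classical
  apply card_le_mul_card_image
  intro v hv
  obtain ⟨u₁, hu₁, hu₁v⟩ := mem_image.1 hv
  have hne : (U.filter (fun u => t u / (l : ℤ) = v)).Nonempty := ⟨u₁, mem_filter.2 ⟨hu₁, hu₁v⟩⟩
  obtain ⟨u₀, hu₀, hmin⟩ := exists_min_image (U.filter (fun u => t u / (l : ℤ) = v)) id hne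
  have key : (U.filter (fun u => t u / (l : ℤ) = v)) ⊆ Icc u₀ (u₀ + 2 * b * (b + 2 * H)) := by
    intro u hu
    have hle := hmin u hu
    rw [mem_Icc]
    refine ⟨hle, ?_⟩
    rw [mem_filter] at hu hu₀
    have a1 := abs_le.1 (ht u hu.1)
    have a2 := abs_le.1 (ht u₀ hu₀.1)
    have hlz : (0 : ℤ) < l := by exact_mod_cast hl1
    have c1 : t u < (v + 1) * l := by
      have := Int.lt_ediv_add_one_mul_self (t u) hlz
      rwa [hu.2] at this
    have c2 : v * l ≤ t u₀ := by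
      have := Int.ediv_mul_le (t u₀) hlz.ne'
      rwa [hu₀.2] at this
    have hBz : (B : ℤ) ≤ 2 * b * M := by exact_mod_cast hB
    have hmz : (M : ℤ) ≤ m := by exact_mod_cast hm
    have hM0 : (1 : ℤ) ≤ M := by exact_mod_cast hM
    have hm0 : (0 : ℤ) < m := by linarith
    have hlz' : (l : ℤ) ≤ b * l' := by exact_mod_cast hl
    have hB0 : (0 : ℤ) ≤ B := Int.natCast_nonneg _
    have hH0 : (0 : ℤ) ≤ H := Int.natCast_nonneg _
    have hl'0 : (1 : ℤ) ≤ l' := by exact_mod_cast hl'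
    have hb0 : (0 : ℤ) ≤ b := Int.natCast_nonneg _
    have d1 : (m : ℤ) * (τ u - τ u₀) ≤ B * (l + 2 * H) := by
      have e1 : (B : ℤ) * t u ≤ B * ((v + 1) * l) := mul_le_mul_of_nonneg_left c1.le hB0
      have e2 : (B : ℤ) * (v * l) ≤ B * t u₀ := mul_le_mul_of_nonneg_left c2 hB0
      nlinarith [a1.1, a2.2]
    have d2 : (B : ℤ) * (l + 2 * H) ≤ m * (2 * b * (b + 2 * H) * l') := by
      have e1 : (l : ℤ) + 2 * H ≤ (b + 2 * H) * l' := by nlinarith
      calc (B : ℤ) * (l + 2 * H) ≤ (2 * b * M) * ((b + 2 * H) * l') :=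
            mul_le_mul hBz e1 (by positivity) (by positivity)
        _ ≤ (2 * b * m) * ((b + 2 * H) * l') := by
            apply mul_le_mul_of_nonneg_right _ (by positivity)
            exact mul_le_mul_of_nonneg_left hmz (by positivity)
        _ = _ := by ring
    have d3 : (τ u : ℤ) - τ u₀ ≤ 2 * b * (b + 2 * H) * l' := le_of_mul_le_mul_left (d1.trans d2) hm0
    have d4 : τ u ≤ τ u₀ + (2 * b * (b + 2 * H)) * l' := by
      have : (τ u : ℤ) ≤ ((τ u₀ + (2 * b * (b + 2 * H)) * l' : ℕ) : ℤ) := by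
        push_cast
        linarith
      exact_mod_cast this
    rw [← hτ u hu.1, ← hτ u₀ hu₀.1]
    calc τ u / l' ≤ (τ u₀ + (2 * b * (b + 2 * H)) * l') / l' := Nat.div_le_div_right d4
      _ = τ u₀ / l' + 2 * b * (b + 2 * H) := Nat.add_mul_div_right _ _ (by omega)
  calc _ ≤ (Icc u₀ (u₀ + 2 * b * (b + 2 * H))).card := card_le_card key
    _ = 2 * b * (b + 2 * H) + 1 := by rw [Nat.card_Icc]; omega

/-- the frequencies which are hit belong to a short interval -/
lemma hit_range (B M H m x W : ℕ) (hB1 : 1 ≤ B) (hm : m ≤ 2 * M) (hMB : 2 * M ≤ B) (τ : ℕ) (hτ1 : x ≤ τ) (hτ2 : τ ≤ x + W)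
    (t : ℤ) (ht : |(B : ℤ) * t - m * τ| ≤ H * B) :
    ((m * x / B : ℕ) : ℤ) - H ≤ t ∧ t < ((m * x / B : ℕ) : ℤ) - H + (W + 2 * H + 1 : ℕ) := by
  have a := abs_le.1 ht
  have hBz : (0 : ℤ) < B := by exact_mod_cast hB1
  have hmB : (m : ℤ) ≤ B := by exact_mod_cast (by omega : m ≤ B)
  have hm0 : (0 : ℤ) ≤ m := Int.natCast_nonneg _
  have hW0 : (0 : ℤ) ≤ W := Int.natCast_nonneg _
  have e1 : (x : ℤ) ≤ τ := by exact_mod_cast hτ1
  have e2 : (τ : ℤ) ≤ x + W := by exact_mod_cast hτ2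
  have f1 : ((m * x / B : ℕ) : ℤ) * B ≤ m * x := by exact_mod_cast Nat.div_mul_le_self (m * x) B
  have f2 : (m : ℤ) * x < (((m * x / B : ℕ) : ℤ) + 1) * B := by
    have : m * x < (m * x / B + 1) * B := by
      rw [mul_comm (m * x / B + 1)]
      exact Nat.lt_mul_div_succ (m * x) (by omega)
    exact_mod_cast this
  obtain ⟨c, hc⟩ : ∃ c : ℤ, c = ((m * x / B : ℕ) : ℤ) := ⟨_, rfl⟩
  rw [← hc] at f1 f2 ⊢
  have g1 : (m : ℤ) * x ≤ m * τ := mul_le_mul_of_nonneg_left e1 hm0
  have g2 : (m : ℤ) * τ ≤ m * (x + W) := mul_le_mul_of_nonneg_left e2 hm0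
  have g3 : (m : ℤ) * W ≤ B * W := mul_le_mul_of_nonneg_right hmB hW0
  constructor
  · have h1 : B * (c - H) ≤ B * t := by nlinarith [a.1]
    exact le_of_mul_le_mul_left h1 hBz
  · have h1 : B * t < B * (c - H + (W + 2 * H + 1 : ℕ)) := by
      push_cast
      nlinarith [a.2]
    exact lt_of_mul_lt_mul_left h1 hBz.le

/-- the cells of a periodic set in an interval -/
lemma per_cells (N l Nc L : ℕ) (hN : N = l * Nc) (hl : 1 ≤ l) (hNc : 1 ≤ Nc) (P : Finset ℕ) (T : Finset ℤ) (y : ℤ)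
    (hT : ∀ t ∈ T, y ≤ t ∧ t < y + L ∧ (t % (N : ℤ)).toNat ∈ P) :
    (T.image (fun t => t / (l : ℤ))).card ≤ (L / N + 2) * (P.image (fun t => t / l)).card := by
  classical
  have hN1 : 1 ≤ N := by rw [hN]; exact Nat.mul_pos hl hNc
  have hNz : (0 : ℤ) < N := by exact_mod_cast hN1
  have hlz : (0 : ℤ) < l := by exact_mod_cast hl
  have h1 : T.image (fun t => t / (l : ℤ)) ⊆
      ((Icc (y / N) ((y + L) / N)) ×ˢ (P.image (fun t => t / l))).image (fun x : ℤ × ℕ => Nc * x.1 + (x.2 : ℤ)) := by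
    intro v hv
    obtain ⟨t, ht, rfl⟩ := mem_image.1 hv
    obtain ⟨a1, a2, a3⟩ := hT t ht
    rw [mem_image]
    refine ⟨(t / N, (t % (N : ℤ)).toNat / l), ?_, ?_⟩
    · rw [mem_product, mem_Icc, mem_image]
      exact ⟨⟨Int.ediv_le_ediv hNz a1, Int.ediv_le_ediv hNz a2.le⟩, _, a3, rfl⟩
    · have h2 : t = t % N + l * (Nc * (t / N)) := by
        have := Int.emod_add_mul_ediv t N
        have hNe : (N : ℤ) = l * Nc := by exact_mod_cast hN
        calc t = t % N + N * (t / N) := this.symm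
          _ = t % N + l * (Nc * (t / N)) := by
            conv_lhs => rw [show (N : ℤ) * (t / N) = l * Nc * (t / N) by rw [← hNe]]
            ring
      have h3 : t / (l : ℤ) = (t % N) / l + Nc * (t / N) := by
        conv_lhs => rw [h2]
        exact Int.add_mul_ediv_left _ _ hlz.ne'
      have h4 : (((t % (N : ℤ)).toNat / l : ℕ) : ℤ) = (t % N) / l := by
        rw [Int.natCast_ediv, Int.toNat_of_nonneg (Int.emod_nonneg _ hNz.ne')]
      simp only
      rw [h4, h3]
      ring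
  refine (card_le_card h1).trans (card_image_le.trans ?_)
  rw [card_product, Int.card_Icc]
  apply Nat.mul_le_mul_right
  obtain ⟨q, hq⟩ : ∃ q : ℕ, q = L / N := ⟨_, rfl⟩
  rw [← hq]
  have h2 : (y + L) / (N : ℤ) ≤ y / N + q + 1 := by
    have g1 := Int.lt_ediv_add_one_mul_self y hNz
    have g2 : (L : ℤ) < (q + 1) * N := by
      have := Nat.lt_mul_div_succ L (by omega : 0 < N)
      have h5 : L < (q + 1) * N := by rw [mul_comm, hq]; exact this
      exact_mod_cast h5
    have g3 : (y + L) / (N : ℤ) < y / N + q + 2 := by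
      apply Int.ediv_lt_of_lt_mul hNz
      nlinarith
    omega
  omega

/-- the members of a periodic set in a window -/
lemma per_window (N Lw X : ℕ) (hN : 1 ≤ N) (hL : Lw ≤ N) (P : Finset ℕ)
    (hP : ∀ x : ℕ, (P.filter (fun t => x ≤ t ∧ t < x + Lw)).card ≤ X) (T : Finset ℤ) (y : ℤ)
    (hT : ∀ t ∈ T, y ≤ t ∧ t < y + Lw ∧ (t % (N : ℤ)).toNat ∈ P) : T.card ≤ 2 * X := by
  classical
  have hNz : (0 : ℤ) < N := by exact_mod_cast hN
  have hLz : (Lw : ℤ) ≤ N := by exact_mod_cast hL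
  rw [← card_filter_add_card_filter_not (s := T) (fun t => t / (N : ℤ) = y / N), two_mul]
  apply add_le_add
  · refine le_trans ?_ (hP (y % (N : ℤ)).toNat)
    apply card_le_card_of_injOn (fun t => (t % (N : ℤ)).toNat)
    · intro t ht
      have ht' := mem_filter.1 (mem_coe.1 ht)
      obtain ⟨a1, a2, a3⟩ := hT t ht'.1
      have e1 := Int.emod_add_mul_ediv t N
      have e2 := Int.emod_add_mul_ediv y N
      have e3 := Int.emod_nonneg t hNz.ne'
      have e4 := Int.emod_nonneg y hNz.ne'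
      rw [ht'.2] at e1
      rw [mem_coe, mem_filter]
      beta_reduce
      exact ⟨a3, by omega, by omega⟩
    · intro t ht t' ht' h
      have h1 := mem_filter.1 (mem_coe.1 ht)
      have h2 := mem_filter.1 (mem_coe.1 ht')
      have e1 := Int.emod_add_mul_ediv t N
      have e2 := Int.emod_add_mul_ediv t' N
      have e3 := Int.emod_nonneg t hNz.ne'
      have e4 := Int.emod_nonneg t' hNz.ne'
      rw [h1.2] at e1
      rw [h2.2] at e2
      simp only at h
      omega
  · refine le_trans ?_ (hP 0)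
    apply card_le_card_of_injOn (fun t => (t % (N : ℤ)).toNat)
    · intro t ht
      have ht' := mem_filter.1 (mem_coe.1 ht)
      obtain ⟨a1, a2, a3⟩ := hT t ht'.1
      have e1 := Int.emod_add_mul_ediv t N
      have e2 := Int.emod_add_mul_ediv y N
      have e3 := Int.emod_nonneg t hNz.ne'
      have e4 := Int.emod_lt_of_pos y hNz
      have e5 : y / N + 1 ≤ t / N := by
        have := Int.ediv_le_ediv hNz a1
        omega
      have e6 : (N : ℤ) * (y / N + 1) ≤ N * (t / N) := mul_le_mul_of_nonneg_left e5 hNz.le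
      rw [mem_coe, mem_filter]
      beta_reduce
      refine ⟨a3, by omega, ?_⟩
      have : t % N < Lw := by
        have e7 : (N : ℤ) * (y / N + 1) = N * (y / N) + N := by ring
        linarith
      omega
    · intro t ht t' ht' h
      have h1 := mem_filter.1 (mem_coe.1 ht)
      have h2 := mem_filter.1 (mem_coe.1 ht')
      obtain ⟨a1, a2, a3⟩ := hT t h1.1
      obtain ⟨b1, b2, b3⟩ := hT t' h2.1
      have e1 := Int.emod_add_mul_ediv t N
      have e2 := Int.emod_add_mul_ediv t' N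
      have e3 := Int.emod_nonneg t hNz.ne'
      have e4 := Int.emod_nonneg t' hNz.ne'
      simp only at h
      have e5 : t % N = t' % N := by omega
      by_contra hne
      have e6 : t / N ≠ t' / N := by
        intro h6
        rw [h6] at e1
        omega
      have e7 : N ≤ |t - t'| := by
        have e8 : t - t' = N * (t / N - t' / N) := by linear_combination -e1 + e2 + e5
        rw [e8, abs_mul, abs_of_pos hNz]
        have e9 : 1 ≤ |t / (N : ℤ) - t' / N| := Int.one_le_abs (sub_ne_zero.2 e6)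
        nlinarith
      have e8 : |t - t'| < N := by
        rw [abs_lt]
        constructor <;> linarith
      omega

lemma per_windows (N Lw X G : ℕ) (hN : 1 ≤ N) (hL : Lw ≤ N) (hLw : 1 ≤ Lw) (P : Finset ℕ)
    (hP : ∀ x : ℕ, (P.filter (fun t => x ≤ t ∧ t < x + Lw)).card ≤ X) (T : Finset ℤ) (y : ℤ)
    (hT : ∀ t ∈ T, y ≤ t ∧ t < y + (G * Lw : ℕ) ∧ (t % (N : ℤ)).toNat ∈ P) : T.card ≤ 2 * X * G := by
  classical
  have hLz : (0 : ℤ) < Lw := by exact_mod_cast hLw
  have h1 : ∀ t ∈ T, ((t - y) / (Lw : ℤ)).toNat ∈ range G := by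
    intro t ht
    obtain ⟨a1, a2, a3⟩ := hT t ht
    have h2 : (t - y) / (Lw : ℤ) < G := by
      apply Int.ediv_lt_of_lt_mul hLz
      push_cast at a2
      linarith
    have h3 : 0 ≤ (t - y) / (Lw : ℤ) := Int.ediv_nonneg (by linarith) hLz.le
    rw [mem_range]
    omega
  have h2 : T.card ≤ 2 * X * (range G).card := by
    apply card_le_mul_card_image_of_maps_to h1
    intro g hg
    apply per_window N Lw X hN hL P hP _ (y + g * Lw)
    intro t ht
    rw [mem_filter] at ht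
    obtain ⟨a1, a2, a3⟩ := hT t ht.1
    have h3 : 0 ≤ (t - y) / (Lw : ℤ) := Int.ediv_nonneg (by linarith) hLz.le
    have h4 : (t - y) / (Lw : ℤ) = g := by omega
    have h5 := Int.ediv_mul_le (t - y) hLz.ne'
    have h6 := Int.lt_ediv_add_one_mul_self (t - y) hLz
    rw [h4] at h5 h6
    refine ⟨by linarith, by linarith, a3⟩
  rwa [card_range] at h2

end Pool.Agent.Q259.TM
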