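import Pool.Agent.Q259.AS.Fou3

set_option autoImplicit false

/-! Large values of a characteristic function at arbitrary frequencies, and at the frequencies of a grid. -/

namespace Pool.Agent.Q259.TM

open Finset
open Pool.Agent.H807R2.Dav
open Pool.Agent.H373R2.T7 (orth)

/-- the characteristic function of the weights `w` on `S` -/
noncomputable def CF (S : Finset ℤ) (w : ℤ → ℝ) (β : ℝ) : ℂ := ∑ n ∈ S, ((w n : ℝ) : ℂ) * ee ((n : ℝ) * β)

/-- the kernel -/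
noncomputable def kap (N D q : ℕ) (x : ℝ) : ℂ :=
  ∑ l ∈ range q, ∑ j ∈ range N, ee ((((j : ℤ) - l - D : ℤ) : ℝ) * x)

lemma kap_eq (N D q : ℕ) (x : ℝ) : kap N D q x =
    ee (-((D : ℝ) * x)) * ((∑ l ∈ Ico 0 q, ee ((l : ℝ) * (-x))) * ∑ j ∈ Ico 0 N, ee ((j : ℝ) * x)) := by
  unfold kap
  rw [sum_mul_sum, mul_sum, range_eq_Ico]
  apply sum_congr rfl
  intro l _
  rw [mul_sum, range_eq_Ico]
  apply sum_congr rfl
  intro j _
  rw [← ee_add, ← ee_add]
  congr 1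
  push_cast
  ring

lemma kap_triv (N D q : ℕ) (x : ℝ) : ‖kap N D q x‖ ≤ q * N := by
  unfold kap
  refine (norm_sum_le _ _).trans ?_
  have h1 : ∀ l ∈ range q, ‖∑ j ∈ range N, ee ((((j : ℤ) - l - D : ℤ) : ℝ) * x)‖ ≤ N := by
    intro l _
    refine (norm_sum_le _ _).trans (le_of_eq ?_)
    simp [norm_ee]
  refine (sum_le_sum h1).trans (le_of_eq ?_)
  rw [sum_const, card_range, nsmul_eq_mul]

lemma kap_dec (N D q : ℕ) (x d : ℝ) (hd : 0 < d) (hdx : d ≤ dd x) : ‖kap N D q x‖ ≤ 9 / d ^ 2 := by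
  rw [kap_eq, norm_mul, norm_ee, one_mul, norm_mul]
  have h1 := (geo_bound 0 q (Nat.zero_le _) (M := (q : ℝ)) (by push_cast; linarith) (-x)).trans
    (KK_le' (Nat.cast_nonneg q) hd (by rw [dd_neg]; exact hdx))
  have h2 := (geo_bound 0 N (Nat.zero_le _) (M := (N : ℝ)) (by push_cast; linarith) x).trans
    (KK_le' (Nat.cast_nonneg N) hd hdx)
  calc _ ≤ (3 / d) * (3 / d) := mul_le_mul h1 h2 (norm_nonneg _) (by positivity)
    _ = _ := by field_simp; ring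

lemma ker_id (N D q : ℕ) (hN : 1 ≤ N) (hq : q + 2 * D ≤ N) (n : ℤ) (hn : |n| ≤ D) (z : ℤ) (β : ℝ) :
    ∑ i ∈ range N, ee ((n : ℝ) * (((z + i : ℤ) : ℝ) / N)) * kap N D q (β - ((z + i : ℤ) : ℝ) / N) =
      (q : ℂ) * N * ee ((n : ℝ) * β) := by
  have hN0 : (N : ℝ) ≠ 0 := by
    have : (0 : ℝ) < N := by exact_mod_cast hN
    exact this.ne'
  have hn' := abs_le.1 hn
  unfold kap
  simp only [mul_sum]
  rw [sum_comm]
  have h1 : ∀ l ∈ range q, ∑ i ∈ range N, ∑ j ∈ range N, ee ((n : ℝ) * (((z + i : ℤ) : ℝ) / N)) *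
      ee ((((j : ℤ) - l - D : ℤ) : ℝ) * (β - ((z + i : ℤ) : ℝ) / N)) = (N : ℂ) * ee ((n : ℝ) * β) := by
    intro l hl
    rw [mem_range] at hl
    rw [sum_comm]
    obtain ⟨j₀, hj₀⟩ : ∃ j₀ : ℕ, (j₀ : ℤ) = n + D + l := ⟨(n + D + l).toNat, by omega⟩
    have hj₀N : j₀ ∈ range N := by rw [mem_range]; omega
    have h2 : ∀ j ∈ range N, ∑ i ∈ range N, ee ((n : ℝ) * (((z + i : ℤ) : ℝ) / N)) *
        ee ((((j : ℤ) - l - D : ℤ) : ℝ) * (β - ((z + i : ℤ) : ℝ) / N)) = if j = j₀ then (N : ℂ) * ee ((n : ℝ) * β) else 0 := by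
      intro j hj
      rw [mem_range] at hj
      have h3 : ∀ i ∈ range N, ee ((n : ℝ) * (((z + i : ℤ) : ℝ) / N)) *
          ee ((((j : ℤ) - l - D : ℤ) : ℝ) * (β - ((z + i : ℤ) : ℝ) / N)) =
          ee ((((j : ℤ) - l - D : ℤ) : ℝ) * β + ((n - (j - l - D) : ℤ) : ℝ) * ((z : ℝ) / N)) *
            ee ((i : ℝ) * (((n - (j - l - D) : ℤ) : ℝ) / N)) := by
        intro i _
        rw [← ee_add, ← ee_add]
        congr 1
        push_cast
        ring
      rw [sum_congr rfl h3, ← mul_sum, orth N hN]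
      by_cases h4 : j = j₀
      · rw [if_pos h4]
        have h5 : n - ((j : ℤ) - l - D) = 0 := by rw [h4, hj₀]; ring
        rw [h5, if_pos (dvd_zero _)]
        have h6 : ((j : ℤ) - l - D : ℤ) = n := by linarith
        rw [h6]
        push_cast
        rw [zero_mul, add_zero]
        ring
      · rw [if_neg h4, if_neg, mul_zero]
        intro hdv
        have h5 : |n - ((j : ℤ) - l - D)| < N := by
          rw [abs_lt]
          constructor <;> omega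
        have h6 := Int.eq_zero_of_abs_lt_dvd hdv h5
        apply h4
        have : (j : ℤ) = j₀ := by rw [hj₀]; linarith
        exact_mod_cast this
    rw [sum_congr rfl h2, sum_ite_eq' (range N) j₀, if_pos hj₀N]
  rw [sum_congr rfl h1, sum_const, card_range, nsmul_eq_mul]
  ring

lemma dd_mid (x : ℝ) (hx : |x| ≤ 3 / 4) : |x| ≤ dd x := by
  have h1 : dd x = dd |x| := by
    rcases abs_choice x with h | h
    · rw [h]
    · rw [h, dd_neg]
  rw [h1]
  have h2 := dd_ge (abs_nonneg x) (by linarith)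
  refine le_trans ?_ h2
  rcases min_choice |x| (1 - |x|) with h | h
  · rw [h]; linarith [abs_nonneg x]
  · rw [h]; linarith

/-- the interpolation formula -/
lemma interp (N D : ℕ) (hN : 16 * D ≤ N) (hN4 : 4 ≤ N) (S : Finset ℤ) (w : ℤ → ℝ) (hS : ∀ n ∈ S, |n| ≤ D) (β : ℝ) (z : ℤ)
    (hz : ∀ i ∈ range N, |(N : ℝ) * β - ((z + i : ℤ) : ℝ)| ≤ 3 / 4 * N) :
    ‖CF S w β‖ ≤ ∑ i ∈ range N, ‖CF S w (((z + i : ℤ) : ℝ) / N)‖ * min 1 (36 / ((N : ℝ) * β - ((z + i : ℤ) : ℝ)) ^ 2) ∨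
      ∃ i ∈ range N, (N : ℝ) * β = ((z + i : ℤ) : ℝ) := by
  by_cases hex : ∃ i ∈ range N, (N : ℝ) * β = ((z + i : ℤ) : ℝ)
  · right; exact hex
  left
  push Not at hex
  have hN1 : (4 : ℝ) ≤ N := by exact_mod_cast hN4
  have hN0 : (0 : ℝ) < N := by linarith
  obtain ⟨q, hq⟩ : ∃ q, q = N / 2 := ⟨_, rfl⟩
  have hq1 : q + 2 * D ≤ N := by omega
  have hq2 : N ≤ 4 * q := by omega
  have hq0 : (0 : ℝ) < q := by
    have : 0 < q := by omega
    exact_mod_cast this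
  have hq2r : (N : ℝ) ≤ 4 * q := by exact_mod_cast hq2
  have h1 : ∑ i ∈ range N, CF S w (((z + i : ℤ) : ℝ) / N) * kap N D q (β - ((z + i : ℤ) : ℝ) / N) =
      (q : ℂ) * N * CF S w β := by
    unfold CF
    simp only [sum_mul]
    rw [sum_comm, mul_sum]
    apply sum_congr rfl
    intro n hn
    have h2 := ker_id N D q (by omega) hq1 n (hS n hn) z β
    calc ∑ i ∈ range N, ((w n : ℝ) : ℂ) * ee ((n : ℝ) * (((z + i : ℤ) : ℝ) / N)) * kap N D q (β - ((z + i : ℤ) : ℝ) / N) =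
        ((w n : ℝ) : ℂ) * ∑ i ∈ range N, ee ((n : ℝ) * (((z + i : ℤ) : ℝ) / N)) * kap N D q (β - ((z + i : ℤ) : ℝ) / N) := by
          rw [mul_sum]
          apply sum_congr rfl
          intro i _
          ring
      _ = _ := by rw [h2]; ring
  have h2 : (q : ℝ) * N * ‖CF S w β‖ = ‖(q : ℂ) * N * CF S w β‖ := by
    rw [norm_mul, norm_mul, Complex.norm_natCast, Complex.norm_natCast]
  have h3 : (q : ℝ) * N * ‖CF S w β‖ ≤ (q : ℝ) * N * ∑ i ∈ range N, ‖CF S w (((z + i : ℤ) : ℝ) / N)‖ *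
      min 1 (36 / ((N : ℝ) * β - ((z + i : ℤ) : ℝ)) ^ 2) := by
    rw [h2, ← h1, mul_sum]
    refine (norm_sum_le _ _).trans (sum_le_sum fun i hi => ?_)
    rw [norm_mul]
    obtain ⟨y, hy⟩ : ∃ y, y = (N : ℝ) * β - ((z + i : ℤ) : ℝ) := ⟨_, rfl⟩
    have hy0 : y ≠ 0 := by
      intro h
      rw [hy] at h
      exact hex i hi (by linarith)
    have hyb := hz i hi
    rw [← hy] at hyb ⊢
    have hx : β - ((z + i : ℤ) : ℝ) / N = y / N := by rw [hy]; field_simp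
    rw [hx]
    have hax : |y / N| = |y| / N := by rw [abs_div, abs_of_pos hN0]
    have hyp : 0 < |y| := abs_pos.2 hy0
    have h4 : |y / N| ≤ 3 / 4 := by
      rw [hax, div_le_iff₀ hN0]
      exact hyb
    have h5 := kap_dec N D q (y / N) |y / N| (by rw [hax]; positivity) (dd_mid _ h4)
    have h6 := kap_triv N D q (y / N)
    have h7 : ‖kap N D q (y / N)‖ ≤ q * N * min 1 (36 / y ^ 2) := by
      rcases min_choice (1 : ℝ) (36 / y ^ 2) with h | h
      · rw [h, mul_one]; exact h6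
      · rw [h]
        refine h5.trans ?_
        rw [sq_abs, div_pow, mul_div_assoc', div_div_eq_mul_div]
        apply div_le_div_of_nonneg_right _ (by positivity)
        nlinarith
    calc _ ≤ ‖CF S w (((z + i : ℤ) : ℝ) / N)‖ * (q * N * min 1 (36 / y ^ 2)) :=
          mul_le_mul_of_nonneg_left h7 (norm_nonneg _)
      _ = _ := by ring
  exact le_of_mul_le_mul_left h3 (by positivity)

lemma CF_le (S : Finset ℤ) (w : ℤ → ℝ) (hw : ∀ n ∈ S, 0 ≤ w n) (hw1 : ∑ n ∈ S, w n ≤ 1) (β : ℝ) : ‖CF S w β‖ ≤ 1 := by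
  unfold CF
  refine (norm_sum_le _ _).trans (le_trans (sum_le_sum fun n hn => ?_) hw1)
  rw [norm_mul, norm_ee, mul_one, Complex.norm_real, Real.norm_of_nonneg (hw n hn)]

/-- the tail of the kernel -/
lemma far_sum (N H : ℕ) (hH : 1 ≤ H) (c : ℝ) : ∑ i ∈ (range N).filter (fun i : ℕ => (H : ℝ) < |c - i|), 36 / (c - (i : ℝ)) ^ 2 ≤ 144 / (H : ℝ) := by
  classical
  obtain ⟨J, hJ⟩ : ∃ J : ℕ, ∀ i ∈ range N, ⌊|c - i|⌋₊ < J := by
    refine ⟨(range N).sup (fun i : ℕ => ⌊|c - i|⌋₊) + 1, fun i hi => ?_⟩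
    exact Nat.lt_succ_of_le (le_sup (f := fun i : ℕ => ⌊|c - i|⌋₊) hi)
  have h1 : ∀ i ∈ (range N).filter (fun i : ℕ => (H : ℝ) < |c - i|), ⌊|c - (i : ℝ)|⌋₊ ∈ Ioo (H - 1) J := by
    intro i hi
    rw [mem_filter] at hi
    rw [mem_Ioo]
    refine ⟨?_, hJ i hi.1⟩
    have : H ≤ ⌊|c - (i : ℝ)|⌋₊ := Nat.le_floor hi.2.le
    omega
  rw [← sum_fiberwise_of_maps_to h1]
  have h2 : ∀ j ∈ Ioo (H - 1) J, ∑ i ∈ ((range N).filter (fun i : ℕ => (H : ℝ) < |c - i|)).filter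
      (fun i : ℕ => ⌊|c - (i : ℝ)|⌋₊ = j), 36 / (c - (i : ℝ)) ^ 2 ≤ 72 * ((j : ℝ) ^ 2)⁻¹ := by
    intro j hj
    rw [mem_Ioo] at hj
    have hj0 : (0 : ℝ) < j := by
      have : 0 < j := by omega
      exact_mod_cast this
    have h3 : (((range N).filter (fun i : ℕ => (H : ℝ) < |c - i|)).filter (fun i : ℕ => ⌊|c - (i : ℝ)|⌋₊ = j)).card ≤ 2 := by
      have h4 : ∀ i ∈ ((range N).filter (fun i : ℕ => (H : ℝ) < |c - i|)).filter (fun i : ℕ => ⌊|c - (i : ℝ)|⌋₊ = j),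
          (i : ℤ) ∈ ({⌊c⌋ - j, ⌈c⌉ + j} : Finset ℤ) := by
        intro i hi
        rw [mem_filter] at hi
        have h5 := (Nat.floor_eq_iff (abs_nonneg (c - (i : ℝ)))).1 hi.2
        rw [mem_insert, mem_singleton]
        rcases le_total 0 (c - (i : ℝ)) with h6 | h6
        · left
          rw [abs_of_nonneg h6] at h5
          have h7 : ⌊c⌋ = (i : ℤ) + j := by
            rw [Int.floor_eq_iff]
            push_cast
            constructor <;> linarith [h5.1, h5.2]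
          omega
        · right
          rw [abs_of_nonpos h6] at h5
          have h7 : ⌈c⌉ = (i : ℤ) - j := by
            rw [Int.ceil_eq_iff]
            push_cast
            constructor <;> linarith [h5.1, h5.2]
          omega
      calc _ ≤ ({⌊c⌋ - (j : ℤ), ⌈c⌉ + (j : ℤ)} : Finset ℤ).card :=
            card_le_card_of_injOn (fun i : ℕ => (i : ℤ)) (fun i hi => h4 i hi) (fun i _ i' _ h => by
              simpa using h)
        _ ≤ 2 := card_le_two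
    have h5 : ∀ i ∈ ((range N).filter (fun i : ℕ => (H : ℝ) < |c - i|)).filter (fun i : ℕ => ⌊|c - (i : ℝ)|⌋₊ = j),
        36 / (c - (i : ℝ)) ^ 2 ≤ 36 * ((j : ℝ) ^ 2)⁻¹ := by
      intro i hi
      rw [mem_filter] at hi
      have h5 := (Nat.floor_eq_iff (abs_nonneg (c - (i : ℝ)))).1 hi.2
      rw [div_eq_mul_inv]
      apply mul_le_mul_of_nonneg_left _ (by norm_num)
      apply inv_anti₀ (by positivity)
      rw [← sq_abs (c - (i : ℝ))]
      exact pow_le_pow_left₀ hj0.le h5.1 2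
    refine (sum_le_sum h5).trans ?_
    rw [sum_const, nsmul_eq_mul]
    have h6 : ((((range N).filter (fun i : ℕ => (H : ℝ) < |c - i|)).filter (fun i : ℕ => ⌊|c - (i : ℝ)|⌋₊ = j)).card : ℝ) ≤ 2 := by
      exact_mod_cast h3
    have h7 : 0 ≤ 36 * ((j : ℝ) ^ 2)⁻¹ := by positivity
    nlinarith
  refine (sum_le_sum h2).trans ?_
  rw [← mul_sum]
  have h3 := sum_Ioo_inv_sq_le (α := ℝ) (H - 1) J
  have h4 : (((H - 1 : ℕ) : ℝ)) + 1 = H := by
    rw [Nat.cast_sub hH]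
    push_cast
    ring
  rw [h4] at h3
  calc 72 * ∑ i ∈ Ioo (H - 1) J, ((i : ℝ) ^ 2)⁻¹ ≤ 72 * (2 / H) := mul_le_mul_of_nonneg_left h3 (by norm_num)
    _ = _ := by ring

lemma near_card (N H : ℕ) (c : ℝ) : ((range N).filter (fun i : ℕ => |c - i| ≤ (H : ℝ))).card ≤ 2 * H + 1 := by
  classical
  have h1 : ∀ i ∈ (range N).filter (fun i : ℕ => |c - i| ≤ (H : ℝ)), (i : ℤ) ∈ Icc ⌈c - H⌉ (⌈c - H⌉ + 2 * H) := by
    intro i hi
    rw [mem_filter] at hi
    have h2 := abs_le.1 hi.2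
    rw [mem_Icc]
    constructor
    · rw [Int.ceil_le]
      push_cast
      linarith
    · have h3 : c - H ≤ ⌈c - H⌉ := Int.le_ceil _
      have h4 : (i : ℝ) ≤ ((⌈c - H⌉ + 2 * H : ℤ) : ℝ) := by
        push_cast
        linarith
      exact_mod_cast h4
  calc _ ≤ (Icc ⌈c - (H : ℝ)⌉ (⌈c - (H : ℝ)⌉ + 2 * H)).card :=
        card_le_card_of_injOn (fun i : ℕ => (i : ℤ)) (fun i hi => h1 i hi) (fun i _ i' _ h => by simpa using h)
    _ = 2 * H + 1 := by
      rw [Int.card_Icc]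
      omega

/-- if the characteristic function is large at `β`, it is large at a frequency of the grid near `β` -/
theorem fat (N D : ℕ) (hN : 16 * D ≤ N) (hN4 : 4 ≤ N) (S : Finset ℤ) (w : ℤ → ℝ) (hw : ∀ n ∈ S, 0 ≤ w n)
    (hw1 : ∑ n ∈ S, w n ≤ 1) (hS : ∀ n ∈ S, |n| ≤ D) (β ν : ℝ) (hν : 0 < ν) (H : ℕ) (hH : 300 / ν ≤ H)
    (h : ν ≤ ‖CF S w β‖) : ∃ t : ℤ, |(N : ℝ) * β - t| ≤ H ∧ ν / (2 * (2 * H + 1)) ≤ ‖CF S w ((t : ℝ) / N)‖ := by
  classical
  have hN1 : (4 : ℝ) ≤ N := by exact_mod_cast hN4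
  have hH0 : (0 : ℝ) < H := lt_of_lt_of_le (by positivity) hH
  have hH1 : 1 ≤ H := by
    have : 0 < H := by exact_mod_cast hH0
    omega
  obtain ⟨N2, hN2⟩ : ∃ N2 : ℕ, N2 = N / 2 := ⟨_, rfl⟩
  obtain ⟨z, hz⟩ : ∃ z : ℤ, z = ⌊(N : ℝ) * β⌋ - (N2 : ℤ) := ⟨_, rfl⟩
  have hf1 := Int.floor_le ((N : ℝ) * β)
  have hf2 := Int.lt_floor_add_one ((N : ℝ) * β)
  have hhalf1 : 2 * (N2 : ℝ) ≤ N := by exact_mod_cast (by omega : 2 * N2 ≤ N)
  have hhalf2 : (N : ℝ) ≤ 2 * (N2 : ℝ) + 1 := by exact_mod_cast (by omega : N ≤ 2 * N2 + 1)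
  have hzb : ∀ i ∈ range N, |(N : ℝ) * β - ((z + i : ℤ) : ℝ)| ≤ 3 / 4 * N := by
    intro i hi
    rw [mem_range] at hi
    have hi' : (i : ℝ) + 1 ≤ N := by exact_mod_cast hi
    have hi0 : (0 : ℝ) ≤ i := Nat.cast_nonneg i
    rw [hz, abs_le]
    push_cast
    constructor <;> linarith
  by_contra hcon
  push Not at hcon
  rcases interp N D hN hN4 S w hS β z hzb with h1 | ⟨i, _, h1⟩
  · have h2 : ∑ i ∈ range N, ‖CF S w (((z + i : ℤ) : ℝ) / N)‖ * min 1 (36 / ((N : ℝ) * β - ((z + i : ℤ) : ℝ)) ^ 2) ≤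
        (2 * H + 1) * (ν / (2 * (2 * H + 1))) + 144 / H := by
      obtain ⟨c, hc⟩ : ∃ c, c = (N : ℝ) * β - z := ⟨_, rfl⟩
      have hci : ∀ i : ℕ, (N : ℝ) * β - ((z + i : ℤ) : ℝ) = c - i := by
        intro i
        rw [hc]
        push_cast
        ring
      rw [← sum_filter_add_sum_filter_not (range N) (fun i : ℕ => |c - i| ≤ (H : ℝ))]
      apply add_le_add
      · have h3 : ∀ i ∈ (range N).filter (fun i : ℕ => |c - i| ≤ (H : ℝ)), ‖CF S w (((z + i : ℤ) : ℝ) / N)‖ *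
            min 1 (36 / ((N : ℝ) * β - ((z + i : ℤ) : ℝ)) ^ 2) ≤ ν / (2 * (2 * H + 1)) := by
          intro i hi
          rw [mem_filter] at hi
          have h4 := hcon (z + i) (by rw [hci]; exact hi.2)
          have h5 : min 1 (36 / ((N : ℝ) * β - ((z + i : ℤ) : ℝ)) ^ 2) ≤ 1 := min_le_left _ _
          exact (mul_le_of_le_one_right (norm_nonneg _) h5).trans h4.le
        refine (sum_le_sum h3).trans ?_
        rw [sum_const, nsmul_eq_mul]
        apply mul_le_mul_of_nonneg_right _ (by positivity)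
        exact_mod_cast near_card N H c
      · have h3 : ∀ i ∈ (range N).filter (fun i : ℕ => ¬ |c - i| ≤ (H : ℝ)), ‖CF S w (((z + i : ℤ) : ℝ) / N)‖ *
            min 1 (36 / ((N : ℝ) * β - ((z + i : ℤ) : ℝ)) ^ 2) ≤ 36 / (c - (i : ℝ)) ^ 2 := by
          intro i _
          rw [hci]
          have h4 := CF_le S w hw hw1 (((z + i : ℤ) : ℝ) / N)
          have h5 : min 1 (36 / (c - (i : ℝ)) ^ 2) ≤ 36 / (c - (i : ℝ)) ^ 2 := min_le_right _ _
          have h6 : 0 ≤ min 1 (36 / (c - (i : ℝ)) ^ 2) := le_min (by norm_num) (by positivity)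
          exact (mul_le_of_le_one_left h6 h4).trans h5
        refine (sum_le_sum h3).trans ?_
        have h4 := far_sum N H hH1 c
        have h5 : (range N).filter (fun i : ℕ => ¬ |c - i| ≤ (H : ℝ)) = (range N).filter (fun i : ℕ => (H : ℝ) < |c - i|) := by
          apply filter_congr
          intro i _
          rw [not_le]
        rw [h5]
        exact h4
    have h3 : (2 * (H : ℝ) + 1) * (ν / (2 * (2 * H + 1))) = ν / 2 := by
      field_simp
    rw [h3] at h2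
    have h4 : 144 / (H : ℝ) < ν / 2 := by
      rw [div_lt_iff₀ hH0]
      rw [div_le_iff₀ hν] at hH
      nlinarith
    linarith
  · have h2 := hcon (z + i) (by rw [h1, sub_self, abs_zero]; positivity)
    have h3 : (((z + i : ℤ) : ℝ) / N) = β := by
      rw [← h1]
      field_simp
    rw [h3] at h2
    have h4 : ν / (2 * (2 * (H : ℝ) + 1)) ≤ ν := by
      apply div_le_self hν.le
      linarith
    linarith

end Pool.Agent.Q259.TM
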