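import Pool.Agent.Q259.TM.DivS
import Pool.Agent.Q259.TM.Fat

set_option autoImplicit false

/-! Measures whose Fourier transform belongs to some `L^p`: the probability that the integer part of a dilate is divisible
by `d`. -/

namespace Pool.Agent.Q259.TM

open MeasureTheory ProbabilityTheory Finset
open Pool.Agent.Q259.AS
open Pool.Agent.H807R2.Dav (ee)
open Pool.Agent.H373R2.T7 (orth)

theorem dvb_of_fourier (μ : Measure ℝ) [IsProbabilityMeasure μ] (p : ℕ)
    (hp : Integrable (fun t : ℝ => ‖charFun μ t‖ ^ p)) : Dvb μ := by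
  classical
  obtain ⟨h, hh⟩ : ∃ h, h = p + 1 := ⟨_, rfl⟩
  have hh1 : 1 ≤ h := by omega
  have hint : Integrable (fun t : ℝ => ‖charFun μ t‖ ^ (2 * h)) := by
    apply hp.mono
    · exact (measurable_charFun.norm.pow_const _).aestronglyMeasurable
    · apply Filter.Eventually.of_forall
      intro t
      rw [Real.norm_eq_abs, Real.norm_eq_abs, abs_of_nonneg (by positivity), abs_of_nonneg (by positivity)]
      exact pow_le_pow_of_le_one (norm_nonneg _) (norm_charFun_le_one t) (by omega)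
  obtain ⟨I, hI⟩ : ∃ I, I = ∫ t, ‖charFun μ t‖ ^ (2 * h) := ⟨_, rfl⟩
  have hI0 : 0 ≤ I := by rw [hI]; exact integral_nonneg fun t => by positivity
  have h2h : 2 * h ≠ 0 := by omega
  refine ⟨((2 * h : ℕ) : ℝ)⁻¹, by positivity, fun B => ?_⟩
  obtain ⟨C₁, hC₁⟩ : ∃ C₁ : ℝ, C₁ = (2 * h * (2 * B + 2) + B) * (2 * h) * I := ⟨_, rfl⟩
  have hC₁0 : 0 ≤ C₁ := by rw [hC₁]; positivity
  refine ⟨C₁ ^ (((2 * h : ℕ) : ℝ)⁻¹), by positivity, fun a y ha hy d hd hdB => ?_⟩
  have ha0 : 0 < a := by linarith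
  have hd0 : (0 : ℝ) < d := by exact_mod_cast hd
  have hB0 : (0 : ℝ) ≤ B := Nat.cast_nonneg _
  obtain ⟨L, hL⟩ : ∃ L : ℕ, L = ⌈2 * B * a⌉₊ + 1 := ⟨_, rfl⟩
  have hLr : 2 * B * a + 1 ≤ L := by
    rw [hL]; push_cast
    linarith [Nat.le_ceil (2 * B * a)]
  have hLr2 : (L : ℝ) ≤ (2 * B + 2) * a := by
    rw [hL]; push_cast
    have := Nat.ceil_lt_add_one (a := 2 * B * a) (by positivity)
    linarith
  obtain ⟨m, hm⟩ : ∃ m, m = 2 * h * L / d + 1 := ⟨_, rfl⟩
  obtain ⟨M, hM⟩ : ∃ M, M = d * m := ⟨_, rfl⟩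
  have hM1 : 2 * h * L < M := by
    rw [hM, hm]
    exact Nat.lt_mul_div_succ (2 * h * L) (by omega)
  have hM2 : M ≤ 2 * h * L + d := by
    rw [hM, hm, mul_add, mul_one]
    exact Nat.add_le_add_right (Nat.mul_div_le _ _) _
  have hm0 : 0 < m := by rw [hm]; exact Nat.succ_pos _
  have hMr : (M : ℝ) ≤ (2 * h * (2 * B + 2) + B) * a := by
    have h1 : (M : ℝ) ≤ 2 * h * L + d := by exact_mod_cast hM2
    have h2 : 2 * (h : ℝ) * L ≤ 2 * h * ((2 * B + 2) * a) := mul_le_mul_of_nonneg_left hLr2 (by positivity)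
    linarith
  obtain ⟨w, hw⟩ : ∃ w : ℤ → ℝ, w = fun n => μ.real (cell B a y n) := ⟨_, rfl⟩
  have hw0 : ∀ n, 0 ≤ w n := fun n => by rw [hw]; exact measureReal_nonneg
  obtain ⟨S, hS⟩ : ∃ S : Finset ℤ, S = Icc (-(L : ℤ)) L := ⟨_, rfl⟩
  have hmom := moment M (by omega) h S w L (by
    intro n hn
    rw [hS, mem_Icc, ← abs_le] at hn
    exact hn) (by exact_mod_cast hM1)
  have hen := energy_le μ h hh1 hint B a y ha0 S
  rw [← hI] at hen
  -- the sum over the multiples of `d`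
  obtain ⟨P, hP⟩ : ∃ P, P = ∑ n ∈ S.filter (fun n => (d : ℤ) ∣ n), w n := ⟨_, rfl⟩
  have hP0 : 0 ≤ P := by rw [hP]; exact sum_nonneg fun n _ => hw0 n
  have hμP : μ.real {x | |x| ≤ B ∧ (d : ℤ) ∣ ⌊a * x + y⌋} ≤ P := by
    have h1 : {x : ℝ | |x| ≤ B ∧ (d : ℤ) ∣ ⌊a * x + y⌋} ⊆ ⋃ n ∈ S.filter (fun n => (d : ℤ) ∣ n), cell B a y n := by
      rintro x ⟨hx1, hx2⟩
      rw [Set.mem_iUnion₂]
      refine ⟨⌊a * x + y⌋, ?_, hx1, rfl⟩
      rw [mem_filter, hS, mem_Icc]
      refine ⟨?_, hx2⟩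
      have h2 : |a * x + y| ≤ 2 * B * a := by
        calc |a * x + y| ≤ |a * x| + |y| := abs_add_le _ _
          _ ≤ a * B + B * a := by
              apply add_le_add _ hy
              rw [abs_mul, abs_of_pos ha0]
              exact mul_le_mul_of_nonneg_left hx1 ha0.le
          _ = _ := by ring
      have h3 := abs_le.1 h2
      constructor
      · rw [Int.le_floor]
        push_cast
        linarith
      · have h4 := Int.floor_le (a * x + y)
        have h5 : (⌊a * x + y⌋ : ℝ) ≤ (L : ℤ) := by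
          push_cast
          linarith
        exact_mod_cast h5
    refine (measureReal_mono h1 (measure_ne_top _ _)).trans ((measureReal_biUnion_finset_le _ _).trans ?_)
    rw [hP, hw]
  have hPd : (d : ℝ) * P ≤ ∑ j ∈ range d, ‖CF S w ((j : ℝ) / d)‖ := by
    have h1 : ((d * P : ℝ) : ℂ) = ∑ j ∈ range d, CF S w ((j : ℝ) / d) := by
      unfold CF
      rw [sum_comm]
      have h2 : ∀ n ∈ S, ∑ j ∈ range d, ((w n : ℝ) : ℂ) * ee ((n : ℝ) * ((j : ℝ) / d)) =
          if (d : ℤ) ∣ n then (d : ℂ) * ((w n : ℝ) : ℂ) else 0 := by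
        intro n _
        rw [← mul_sum]
        have h3 : ∀ j ∈ range d, ee ((n : ℝ) * ((j : ℝ) / d)) = ee ((j : ℝ) * ((n : ℝ) / d)) := by
          intro j _
          congr 1
          ring
        rw [sum_congr rfl h3, orth d hd]
        split_ifs
        · ring
        · ring
      rw [sum_congr rfl h2, ← sum_filter, hP]
      push_cast
      rw [mul_sum]
    have h2 : (d : ℝ) * P = ‖((d * P : ℝ) : ℂ)‖ := by
      rw [Complex.norm_real, Real.norm_of_nonneg (by positivity)]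
    rw [h2, h1]
    exact norm_sum_le _ _
  have hpow : P ^ (2 * h) ≤ ∑ j ∈ range d, (1 / (d : ℝ)) * ‖CF S w ((j : ℝ) / d)‖ ^ (2 * h) := by
    have h1 := Real.pow_arith_mean_le_arith_mean_pow (range d) (fun _ => 1 / (d : ℝ)) (fun j => ‖CF S w ((j : ℝ) / d)‖)
      (fun _ _ => by positivity) (by rw [sum_const, card_range, nsmul_eq_mul]; field_simp) (fun _ _ => norm_nonneg _) (2 * h)
    refine le_trans ?_ h1
    apply pow_le_pow_left₀ hP0
    rw [← mul_sum, one_div, inv_mul_eq_div, le_div_iff₀ hd0, mul_comm]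
    exact hPd
  have hsub : ∑ j ∈ range d, ‖CF S w ((j : ℝ) / d)‖ ^ (2 * h) ≤ ∑ t ∈ range M, ‖CF S w ((t : ℝ) / M)‖ ^ (2 * h) := by
    have h1 : ∀ j ∈ range d, ‖CF S w ((j : ℝ) / d)‖ ^ (2 * h) = ‖CF S w (((j * m : ℕ) : ℝ) / M)‖ ^ (2 * h) := by
      intro j _
      have h2 : ((j * m : ℕ) : ℝ) / M = (j : ℝ) / d := by
        rw [hM]
        push_cast
        have : (m : ℝ) ≠ 0 := by exact_mod_cast hm0.ne'
        field_simp
      rw [h2]
    rw [sum_congr rfl h1]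
    have h2 : ∑ j ∈ range d, ‖CF S w (((j * m : ℕ) : ℝ) / M)‖ ^ (2 * h) =
        ∑ t ∈ (range d).image (fun j => j * m), ‖CF S w ((t : ℝ) / M)‖ ^ (2 * h) := by
      rw [sum_image]
      intro i _ j _ hij
      exact Nat.eq_of_mul_eq_mul_right hm0 hij
    rw [h2]
    apply sum_le_sum_of_subset_of_nonneg
    · intro t ht
      obtain ⟨j, hj, rfl⟩ := mem_image.1 ht
      rw [mem_range] at hj ⊢
      rw [hM]
      exact Nat.mul_lt_mul_of_pos_right hj hm0
    · intro t _ _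
      positivity
  have hfin : P ^ (2 * h) ≤ C₁ / d := by
    rw [← mul_sum] at hpow
    have h1 : ∑ t ∈ range M, ‖CF S w ((t : ℝ) / M)‖ ^ (2 * h) ≤ M * (2 * (h / a) * I) := by
      unfold CF
      rw [hmom]
      apply mul_le_mul_of_nonneg_left _ (Nat.cast_nonneg _)
      rw [hw]
      exact hen
    calc P ^ (2 * h) ≤ 1 / d * ∑ j ∈ range d, ‖CF S w ((j : ℝ) / d)‖ ^ (2 * h) := hpow
      _ ≤ 1 / d * (M * (2 * (h / a) * I)) := mul_le_mul_of_nonneg_left (hsub.trans h1) (by positivity)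
      _ ≤ 1 / d * (((2 * h * (2 * B + 2) + B) * a) * (2 * (h / a) * I)) := by
          apply mul_le_mul_of_nonneg_left _ (by positivity)
          exact mul_le_mul_of_nonneg_right hMr (by positivity)
      _ = C₁ / d := by rw [hC₁]; field_simp
  refine hμP.trans ?_
  rw [← Real.div_rpow hC₁0 hd0.le]
  calc P = (P ^ (2 * h)) ^ (((2 * h : ℕ) : ℝ)⁻¹) := (Real.pow_rpow_inv_natCast hP0 h2h).symm
    _ ≤ (C₁ / d) ^ (((2 * h : ℕ) : ℝ)⁻¹) := Real.rpow_le_rpow (by positivity) hfin (by positivity)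

theorem dvb_of (μ : Measure ℝ) [IsProbabilityMeasure μ] (h : SelfSim μ ∨ FourLp μ) : Dvb μ := by
  rcases h with h | ⟨q, hq⟩
  · obtain ⟨m, Y, hY⟩ := sys_of_selfSim μ h
    exact dvb_of_sys μ Y hY
  · exact dvb_of_fourier μ q hq

end Pool.Agent.Q259.TM
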