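import Pool.Agent.Q259.TM.Hol

set_option autoImplicit false

/-! Invariant measures of systems of affine contractions: the probability that the integer part of a dilate is divisible
by `d`. -/

namespace Pool.Agent.Q259.TM

open MeasureTheory Finset
open Pool.Agent.Q259.AS

/-- the probability that the integer part of `a x + y` is divisible by `d` is at most a power of `1 / d` -/
def Dvb (μ : Measure ℝ) : Prop :=
  ∃ c : ℝ, 0 < c ∧ ∀ B : ℕ, ∃ C : ℝ, 0 ≤ C ∧ ∀ a y : ℝ, 1 ≤ a → |y| ≤ B * a → ∀ d : ℕ, 1 ≤ d → (d : ℝ) ≤ B * a →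
    μ.real {x | |x| ≤ B ∧ (d : ℤ) ∣ ⌊a * x + y⌋} ≤ C / (d : ℝ) ^ c

/-- the points within `δ` of an integer -/
def nearZ (δ : ℝ) : Set ℝ := {t | ∃ j : ℤ, |t - j| ≤ δ}

lemma nearZ_meas (δ : ℝ) : MeasurableSet (nearZ δ) := by
  have h : nearZ δ = ⋃ j : ℤ, {t : ℝ | |t - j| ≤ δ} := by
    ext t
    simp [nearZ]
  rw [h]
  exact MeasurableSet.iUnion fun j => measurableSet_le (by fun_prop) measurable_const

variable {Q : Type} [Fintype Q] [DecidableEq Q]

/-- dilates by bounded factors -/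
lemma near_base (μ : Measure ℝ) [IsProbabilityMeasure μ] (Y : Sys Q) (hμ : Inv μ Y) (α C : ℝ) (hC : 0 ≤ C)
    (hol : ∀ x δ : ℝ, 0 < δ → μ.real (Set.Icc x (x + δ)) ≤ C * δ ^ α) (s₀ s y δ : ℝ) (hs₀ : 0 < s₀) (hs : s₀ ≤ |s|)
    (hs1 : |s| ≤ 1) (hδ : 0 < δ) (hδ1 : δ ≤ 1) :
    μ.real {x | s * x + y ∈ nearZ δ} ≤ (2 * Y.X0 + 4) * (C * (2 / s₀) ^ α) * δ ^ α := by
  classical
  have hX0 : 1 ≤ Y.X0 := by
    unfold Sys.X0
    have : 0 ≤ Y.sm / (1 - Y.r1) := div_nonneg Y.sm_nonneg (by linarith [Y.h1])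
    linarith
  obtain ⟨J, hJ⟩ : ∃ J : Finset ℤ, J = Icc ⌈y - Y.X0 - 1⌉ ⌊y + Y.X0 + 1⌋ := ⟨_, rfl⟩
  have hJc : (J.card : ℝ) ≤ 2 * Y.X0 + 4 := by
    rw [hJ, Int.card_Icc]
    have h1 := Int.floor_le (y + Y.X0 + 1)
    have h2 := Int.le_ceil (y - Y.X0 - 1)
    rcases le_total 0 (⌊y + Y.X0 + 1⌋ + 1 - ⌈y - Y.X0 - 1⌉) with h | h
    · have h3 : (((⌊y + Y.X0 + 1⌋ + 1 - ⌈y - Y.X0 - 1⌉).toNat : ℕ) : ℝ) = ((⌊y + Y.X0 + 1⌋ + 1 - ⌈y - Y.X0 - 1⌉ : ℤ) : ℝ) := by
        have := Int.toNat_of_nonneg h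
        exact_mod_cast this
      rw [h3]
      push_cast
      linarith
    · rw [Int.toNat_of_nonpos h]
      push_cast
      linarith
  have hsub : {x | s * x + y ∈ nearZ δ} ⊆ {x | Y.X0 < |x|} ∪ ⋃ j ∈ J, {x : ℝ | s * x + y ∈ Set.Icc ((j : ℝ) - δ) ((j : ℝ) - δ + 2 * δ)} := by
    rintro x ⟨j, hj⟩
    by_cases hx : Y.X0 < |x|
    · exact Or.inl hx
    · right
      push Not at hx
      rw [Set.mem_iUnion₂]
      have h1 := abs_le.1 hj
      have h2 : |s * x| ≤ Y.X0 := by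
        rw [abs_mul]
        calc |s| * |x| ≤ 1 * Y.X0 := mul_le_mul hs1 hx (abs_nonneg _) zero_le_one
          _ = _ := one_mul _
      have h3 := abs_le.1 h2
      refine ⟨j, ?_, ?_, ?_⟩
      · rw [hJ, mem_Icc]
        constructor
        · rw [Int.ceil_le]; linarith [h1.1, h1.2, h3.1, h3.2]
        · rw [Int.le_floor]; linarith [h1.1, h1.2, h3.1, h3.2]
      · linarith [h1.1]
      · linarith [h1.2]
  have hone : ∀ j ∈ J, μ.real {x : ℝ | s * x + y ∈ Set.Icc ((j : ℝ) - δ) ((j : ℝ) - δ + 2 * δ)} ≤ C * (2 / s₀) ^ α * δ ^ α := by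
    intro j _
    obtain ⟨x', hx'⟩ := pre_interval s y ((j : ℝ) - δ) (2 * δ) (2 * δ / s₀) s₀ hs₀ hs (by
      apply le_of_eq
      field_simp) (by linarith)
    refine (measureReal_mono hx' (measure_ne_top _ _)).trans ((hol x' _ (by positivity)).trans (le_of_eq ?_))
    have h1 : 2 * δ / s₀ = (2 / s₀) * δ := by ring
    rw [h1, Real.mul_rpow (by positivity) hδ.le]
    ring
  refine (measureReal_mono hsub (measure_ne_top _ _)).trans ?_
  refine (measureReal_union_le _ _).trans ?_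
  rw [tail_zero μ Y hμ, zero_add]
  refine (measureReal_biUnion_finset_le _ _).trans ((sum_le_sum hone).trans ?_)
  rw [sum_const, nsmul_eq_mul]
  calc (J.card : ℝ) * (C * (2 / s₀) ^ α * δ ^ α) ≤ (2 * Y.X0 + 4) * (C * (2 / s₀) ^ α * δ ^ α) :=
        mul_le_mul_of_nonneg_right hJc (by positivity)
    _ = _ := by ring

/-- dilates by arbitrary factors -/
lemma near_all (μ : Measure ℝ) [IsProbabilityMeasure μ] (Y : Sys Q) (hμ : Inv μ Y) (s₀ δ Z : ℝ)
    (hs₀ : s₀ ≤ Y.r0)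
    (hbase : ∀ s y : ℝ, s₀ ≤ |s| → |s| ≤ 1 → μ.real {x | s * x + y ∈ nearZ δ} ≤ Z) :
    ∀ s y : ℝ, s₀ ≤ |s| → μ.real {x | s * x + y ∈ nearZ δ} ≤ Z := by
  have hr1 := Y.r1_pos
  have hr1' := Y.h1
  have key : ∀ n : ℕ, ∀ s y : ℝ, s₀ ≤ |s| → |s| * Y.r1 ^ n ≤ 1 → μ.real {x | s * x + y ∈ nearZ δ} ≤ Z := by
    intro n
    induction n with
    | zero =>
      intro s y h1 h2
      rw [pow_zero, mul_one] at h2
      exact hbase s y h1 h2
    | succ n ih =>
      intro s y h1 h2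
      rcases le_total |s| 1 with h3 | h3
      · exact hbase s y h1 h3
      · have hm : MeasurableSet {x : ℝ | s * x + y ∈ nearZ δ} :=
          (show Measurable (fun x : ℝ => s * x + y) by fun_prop) (nearZ_meas δ)
        rw [hμ _ hm]
        calc ∑ q, Y.P q * μ.real ((fun x => Y.r q * x + Y.s q) ⁻¹' {x | s * x + y ∈ nearZ δ}) ≤ ∑ q, Y.P q * Z := by
              apply sum_le_sum
              intro q _
              apply mul_le_mul_of_nonneg_left _ (Y.hP q)
              have h4 : (fun x => Y.r q * x + Y.s q) ⁻¹' {x | s * x + y ∈ nearZ δ} =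
                  {x | (s * Y.r q) * x + (s * Y.s q + y) ∈ nearZ δ} := by
                ext x
                simp only [Set.mem_preimage, Set.mem_ofPred_eq]
                have : s * (Y.r q * x + Y.s q) + y = s * Y.r q * x + (s * Y.s q + y) := by ring
                rw [this]
              rw [h4]
              have h5 := Y.hr q
              apply ih
              · rw [abs_mul]
                have := Y.h0
                nlinarith
              · rw [abs_mul]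
                refine le_trans ?_ h2
                rw [pow_succ']
                have h6 : 0 ≤ |s| * Y.r1 ^ n := by positivity
                nlinarith [h5.2]
          _ = Z := by rw [← sum_mul, Y.hP1, one_mul]
  intro s y hs
  obtain ⟨n, hn⟩ := exists_pow_lt_of_lt_one (show 0 < 1 / (|s| + 1) by positivity) hr1'
  apply key n s y hs
  rw [lt_div_iff₀ (by positivity)] at hn
  have : 0 ≤ Y.r1 ^ n := by positivity
  nlinarith

theorem dvb_of_sys (μ : Measure ℝ) [IsProbabilityMeasure μ] (Y : Sys Q) (hμ : Inv μ Y) : Dvb μ := by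
  obtain ⟨α, C, hα, hC, hol⟩ := holder μ Y hμ
  have hr0 := Y.h0
  refine ⟨α, hα, fun B => ?_⟩
  obtain ⟨s₀, hs₀⟩ : ∃ s₀, s₀ = min Y.r0 (1 / ((B : ℝ) + 1)) := ⟨_, rfl⟩
  have hs0 : 0 < s₀ := by rw [hs₀]; exact lt_min hr0 (by positivity)
  have hX0 : 0 ≤ Y.X0 := by
    unfold Sys.X0
    have : 0 ≤ Y.sm / (1 - Y.r1) := div_nonneg Y.sm_nonneg (by linarith [Y.h1])
    linarith
  refine ⟨(2 * Y.X0 + 4) * (C * (2 / s₀) ^ α), by positivity, fun a y ha hy d hd hdB => ?_⟩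
  have hd0 : (0 : ℝ) < d := by exact_mod_cast hd
  have hd1 : (1 : ℝ) ≤ d := by exact_mod_cast hd
  have h1 := near_all μ Y hμ s₀ (1 / d) ((2 * Y.X0 + 4) * (C * (2 / s₀) ^ α) * (1 / (d : ℝ)) ^ α)
    (by rw [hs₀]; exact min_le_left _ _)
    (fun s y h2 h3 => near_base μ Y hμ α C hC hol s₀ s y (1 / d) hs0 h2 h3 (by positivity)
      (by rw [div_le_one hd0]; exact hd1)) (a / d) (y / d) (by
      rw [abs_of_pos (by positivity), hs₀]
      refine (min_le_right _ _).trans ?_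
      rw [div_le_div_iff₀ (by positivity) hd0]
      nlinarith)
  have h2 : (1 / (d : ℝ)) ^ α = 1 / (d : ℝ) ^ α := by
    rw [Real.div_rpow zero_le_one hd0.le, Real.one_rpow]
  rw [h2, mul_one_div] at h1
  refine le_trans (measureReal_mono ?_ (measure_ne_top _ _)) h1
  rintro x ⟨_, j, hj⟩
  refine ⟨j, ?_⟩
  have h3 := Int.floor_le (a * x + y)
  have h4 := Int.lt_floor_add_one (a * x + y)
  rw [hj] at h3 h4
  push_cast at h3 h4
  have h5 : a / d * x + y / d - j = (a * x + y - d * j) / d := by field_simp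
  rw [h5, abs_div, abs_of_pos hd0, div_le_div_iff_of_pos_right hd0, abs_le]
  constructor <;> linarith

end Pool.Agent.Q259.TM
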