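import Pool.Agent.Q259.TM.Law
import Pool.Agent.Q259.AS.Gol

set_option autoImplicit false

/-! Goldbach's conjecture for the multiples of typical integers: the exceptional sets are rarely met. -/

namespace Pool.Agent.Q259.TM

open Finset
open Pool.Agent.Y885 (TLaw tl_goldbach)
open Pool.Agent.Q259.AS (LW Eng1)
open Pool.Agent.H560R3.GB (g HL)

/-- the formula of Hardy and Littlewood holds with the relative error `ε`, and `n` is a sum of two different primes -/
def Good (ε : ℝ) (n : ℕ) : Prop :=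
  |(g n : ℝ) - HL n| ≤ ε * HL n ∧ ∃ p q : ℕ, p.Prime ∧ q.Prime ∧ p ≠ q ∧ p + q = n

open Classical in
/-- the exceptional multiples `m n` with `2 ^ l ≤ m < 2 ^ (l + 1)` -/
noncomputable def badm (ε : ℝ) (l : ℕ) (n : ℤ) : Finset ℕ :=
  (Ico (2 ^ l) (2 * 2 ^ l)).filter (fun m : ℕ => 0 < (m : ℤ) * n ∧ 2 ∣ (m : ℤ) * n ∧ ¬ Good ε ((m : ℤ) * n).toNat)

/-- the integers with many exceptional multiples -/
def BadM (ε : ℝ) (T A X : ℕ) : Set ℤ :=
  {n : ℤ | ∃ l : ℕ, l ≤ Nat.log 2 X ^ T ∧ 2 ^ l < Nat.log 2 X ^ A * (badm ε l n).card}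

theorem eng_multiples (ε : ℝ) (hε : 0 < ε) (T A : ℕ) : Eng1 ℕ id (BadM ε T A) := by
  classical
  intro b E hb hE c k₀ B U
  have hbn : 0 < b := by omega
  obtain ⟨U', hU'⟩ : ∃ U', U' = U + 2 * A + 2 * T + 1 := ⟨_, rfl⟩
  obtain ⟨c', hc'⟩ := tlaw_mul b (E + 2) hb (by omega) c k₀ (2 * T + 2)
  obtain ⟨V, hV⟩ := tl_goldbach b hb (E + 2) (c' (U' + 2)) U' (by omega) ε hε
  obtain ⟨K₀, hK₀⟩ := hV (c' V)
  obtain ⟨K₁, hK₁⟩ := hc' (U' + 2)
  obtain ⟨K₂, hK₂⟩ := hc' V
  refine ⟨K₀ + K₁ + K₂ + b + 4, fun K hK S w hw₀ hS q hq1 hq2 => ?_⟩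
  simp only [id] at hq1 hq2
  have hK4 : 4 ≤ K := by omega
  have hKr : (1 : ℝ) ≤ K := by exact_mod_cast (by omega : 1 ≤ K)
  have hK0 : (0 : ℝ) < K := by linarith
  have hw : LW b (E + 2) c k₀ K S w :=
    hw₀.mono (by omega) hE (by omega) (fun _ => le_rfl) (fun _ => le_rfl) (by omega)
  obtain ⟨Lg, hLg⟩ : ∃ Lg, Lg = Nat.log 2 q := ⟨_, rfl⟩
  have hLgK : Lg ≤ K ^ 2 := by
    have h1 : q < 2 ^ (b * K) := by
      calc q ≤ b ^ 3 * q := Nat.le_mul_of_pos_left _ (Nat.pow_pos hbn)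
        _ ≤ b ^ K := hq2
        _ < (2 ^ b) ^ K := Nat.pow_lt_pow_left (Nat.lt_two_pow_self) (by omega)
        _ = 2 ^ (b * K) := (pow_mul _ _ _).symm
    have h2 : Lg ≤ b * K := by
      rw [hLg]
      by_cases hq0 : q = 0
      · rw [hq0, Nat.log_zero_right]; exact Nat.zero_le _
      · exact (Nat.log_lt_of_lt_pow hq0 h1).le
    calc Lg ≤ b * K := h2
      _ ≤ K * K := Nat.mul_le_mul_right _ (by omega)
      _ = K ^ 2 := by ring
  have hLgT : ∀ t : ℕ, Lg ^ t ≤ K ^ (2 * t) := by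
    intro t
    rw [pow_mul]
    exact Nat.pow_le_pow_left hLgK t
  -- one scale
  have hone : ∀ l : ℕ, l ≤ Lg ^ T → ∑ n ∈ S, (if 2 ^ l < Lg ^ A * (badm ε l n).card then w n else 0) ≤
      (K : ℝ) ^ (2 * A) / (K : ℝ) ^ U' := by
    intro l hl
    obtain ⟨M, hM⟩ : ∃ M, M = 2 ^ l := ⟨_, rfl⟩
    obtain ⟨s, hs⟩ : ∃ s, s = Nat.log b (2 * M) + 1 := ⟨_, rfl⟩
    have hM1 : 1 ≤ M := by rw [hM]; exact Nat.one_le_two_pow
    have hMr : (0 : ℝ) < M := by exact_mod_cast hM1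
    have hs1 : 2 * M ≤ b ^ s := by
      rw [hs]
      exact (Nat.lt_pow_succ_log_self (by omega) _).le
    have hs2 : b ^ s ≤ 2 * b * M := by
      rw [hs, pow_succ]
      calc b ^ Nat.log b (2 * M) * b ≤ (2 * M) * b := Nat.mul_le_mul_right _ (Nat.pow_log_le_self b (by omega))
        _ = _ := by ring
    have hs3 : s ≤ l + 2 := by
      have h1 : b ^ (s - 1) ≤ 2 ^ (l + 1) := by
        have : s - 1 = Nat.log b (2 * M) := by omega
        rw [this, pow_succ, mul_comm, ← hM]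
        exact Nat.pow_log_le_self b (by omega)
      have h2 : 2 ^ (s - 1) ≤ 2 ^ (l + 1) := (Nat.pow_le_pow_left hb _).trans h1
      have h3 := (Nat.pow_le_pow_iff_right (by norm_num : 1 < 2)).1 h2
      omega
    have hKs : K + s ≤ K ^ (2 * T + 2) := by
      have h1 := hLgT T
      have h2 : 1 ≤ K ^ (2 * T) := Nat.one_le_pow _ _ (by omega)
      have h3 : K ^ (2 * T + 2) = K ^ (2 * T) * (K * K) := by ring
      rw [h3]
      have h4 : K + 3 * K ^ (2 * T) ≤ K ^ (2 * T) * (K * K) := by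
        have h5 : K + 3 ≤ K * K := by nlinarith
        calc K + 3 * K ^ (2 * T) ≤ K ^ (2 * T) * K + 3 * K ^ (2 * T) :=
              Nat.add_le_add_right (Nat.le_mul_of_pos_left _ (by omega)) _
          _ = K ^ (2 * T) * (K + 3) := by ring
          _ ≤ _ := Nat.mul_le_mul_left _ h5
      omega
    have h1 := hK₀ (K + s) (by omega) (ℕ × ℤ) ((Ico M (2 * M)) ×ˢ S) (fun x => w x.2 / M) (fun x => (x.1 : ℤ) * x.2)
      (hK₁ K (by omega) S w hw hS M s hM1 hs1 hs2 hKs) (hK₂ K (by omega) S w hw hS M s hM1 hs1 hs2 hKs) (by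
        intro x hx
        rw [mem_product, mem_Ico] at hx
        have e1 := hS x.2 hx.2
        have e2 : |x.2| ≤ (b : ℤ) ^ K := by
          have e3 : (1 : ℤ) ≤ (b : ℤ) ^ 3 := by exact_mod_cast Nat.one_le_pow _ _ hbn
          exact (le_mul_of_one_le_left (abs_nonneg _) e3).trans e1
        have e3 : (x.1 : ℤ) ≤ (b : ℤ) ^ s := by
          have : x.1 ≤ b ^ s := by omega
          exact_mod_cast this
        calc (x.1 : ℤ) * x.2 ≤ (x.1 : ℤ) * |x.2| := mul_le_mul_of_nonneg_left (le_abs_self _) (Int.natCast_nonneg _)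
          _ ≤ (b : ℤ) ^ s * (b : ℤ) ^ K := mul_le_mul e3 e2 (abs_nonneg _) (by positivity)
          _ = _ := by rw [← pow_add, add_comm])
    rw [sum_product_right] at h1
    have h2 : ∀ n ∈ S, (if 2 ^ l < Lg ^ A * (badm ε l n).card then w n else 0) ≤ (Lg : ℝ) ^ A *
        ∑ m ∈ Ico M (2 * M), (if 0 < (m : ℤ) * n ∧ 2 ∣ (m : ℤ) * n ∧
          ¬ (|(g ((m : ℤ) * n).toNat : ℝ) - HL ((m : ℤ) * n).toNat| ≤ ε * HL ((m : ℤ) * n).toNat ∧
            ∃ p q : ℕ, p.Prime ∧ q.Prime ∧ p ≠ q ∧ p + q = ((m : ℤ) * n).toNat) then w n / M else 0) := by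
      intro n hn
      have hwn := hw.nonneg n hn
      have h3 : ∑ m ∈ Ico M (2 * M), (if 0 < (m : ℤ) * n ∧ 2 ∣ (m : ℤ) * n ∧
          ¬ (|(g ((m : ℤ) * n).toNat : ℝ) - HL ((m : ℤ) * n).toNat| ≤ ε * HL ((m : ℤ) * n).toNat ∧
            ∃ p q : ℕ, p.Prime ∧ q.Prime ∧ p ≠ q ∧ p + q = ((m : ℤ) * n).toNat) then w n / (M : ℝ) else 0) =
          (badm ε l n).card * (w n / M) := by
        unfold badm Good
        rw [← hM, ← sum_filter, sum_const, nsmul_eq_mul]
        congr!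
      rw [h3]
      split_ifs with h4
      · have h5 : (M : ℝ) < (Lg : ℝ) ^ A * (badm ε l n).card := by
          rw [hM]
          exact_mod_cast h4
        calc w n = M * (w n / M) := by field_simp
          _ ≤ ((Lg : ℝ) ^ A * (badm ε l n).card) * (w n / M) := mul_le_mul_of_nonneg_right h5.le (by positivity)
          _ = _ := by ring
      · positivity
    refine (sum_le_sum h2).trans ?_
    rw [← mul_sum]
    have h5 : (Lg : ℝ) ^ A ≤ (K : ℝ) ^ (2 * A) := by exact_mod_cast hLgT A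
    have h6 : 1 / (((K + s : ℕ) : ℝ)) ^ U' ≤ 1 / (K : ℝ) ^ U' := by
      apply one_div_le_one_div_of_le (by positivity)
      apply pow_le_pow_left₀ hK0.le
      push_cast
      linarith [(Nat.cast_nonneg s : (0 : ℝ) ≤ s)]
    rw [div_eq_mul_one_div]
    apply mul_le_mul h5 _ (sum_nonneg fun n hn => sum_nonneg fun m _ => ?_) (by positivity)
    · refine le_trans (le_of_eq ?_) (h1.trans h6)
      apply sum_congr rfl
      intro n _
      apply sum_congr rfl
      intro m _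
      exact Pool.Agent.Q259.AS.ite_inst _ _ _ _
    · have hwn := hw.nonneg n hn
      split_ifs
      · positivity
      · exact le_rfl
  -- all scales
  have hall : ∑ n ∈ S, (if n ∈ BadM ε T A q then w n else 0) ≤
      ∑ l ∈ range (Lg ^ T + 1), ∑ n ∈ S, (if 2 ^ l < Lg ^ A * (badm ε l n).card then w n else 0) := by
    rw [sum_comm]
    apply sum_le_sum
    intro n hn
    have hwn := hw.nonneg n hn
    split_ifs with h1
    · obtain ⟨l, h2, h3⟩ := h1
      rw [← hLg] at h2 h3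
      have h4 := single_le_sum (f := fun l => (if 2 ^ l < Lg ^ A * (badm ε l n).card then w n else 0))
        (s := range (Lg ^ T + 1)) (fun l _ => by
          split_ifs
          · exact hwn
          · exact le_rfl) (mem_range.2 (Nat.lt_succ_of_le h2))
      rwa [if_pos h3] at h4
    · apply sum_nonneg
      intro l _
      split_ifs
      · exact hwn
      · exact le_rfl
  refine hall.trans ?_
  have h1 : ∀ l ∈ range (Lg ^ T + 1), ∑ n ∈ S, (if 2 ^ l < Lg ^ A * (badm ε l n).card then w n else 0) ≤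
      (K : ℝ) ^ (2 * A) / (K : ℝ) ^ U' := fun l hl => hone l (by
        have := mem_range.1 hl
        omega)
  refine (sum_le_sum h1).trans ?_
  rw [sum_const, card_range, nsmul_eq_mul, mul_div_assoc', div_le_div_iff₀ (by positivity) (by positivity), one_mul, hU']
  have h2 : ((Lg ^ T + 1 : ℕ) : ℝ) ≤ (K : ℝ) ^ (2 * T + 1) := by
    have h3 : Lg ^ T + 1 ≤ K ^ (2 * T + 1) := by
      have h4 := hLgT T
      have h5 : 1 ≤ K ^ (2 * T) := Nat.one_le_pow _ _ (by omega)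
      calc Lg ^ T + 1 ≤ 2 * K ^ (2 * T) := by omega
        _ ≤ K * K ^ (2 * T) := Nat.mul_le_mul_right _ (by omega)
        _ = _ := by rw [pow_succ, mul_comm]
    exact_mod_cast h3
  calc ((Lg ^ T + 1 : ℕ) : ℝ) * (K : ℝ) ^ (2 * A) * (K : ℝ) ^ U ≤ (K : ℝ) ^ (2 * T + 1) * (K : ℝ) ^ (2 * A) * (K : ℝ) ^ U := by
        gcongr
    _ = _ := by rw [← pow_add, ← pow_add]; congr 1; ring

end Pool.Agent.Q259.TM
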