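import Pool.Agent.Q259.AS.Sel7

set_option autoImplicit false

/-! Invariant measures of systems of affine contractions: the measure of a short interval, and the probability that the
integer part of a dilate is divisible by `d`. -/

namespace Pool.Agent.Q259.TM

open MeasureTheory Finset
open Pool.Agent.Q259.AS

variable {Q : Type} [Fintype Q] [DecidableEq Q]

lemma RR_const' (Y : Sys Q) (q₀ q : Q) (M n : ℕ) (hn : n ≤ M) : RR Y (ext q₀ (fun _ : Fin M => q)) n = Y.r q ^ n := by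
  unfold RR
  rw [← card_range n, ← prod_const, card_range]
  apply prod_congr rfl
  intro i hi
  rw [mem_range] at hi
  unfold AS.ext
  rw [dif_pos (by omega)]

lemma GG_const (Y : Sys Q) (q₀ q : Q) (M : ℕ) (x : ℝ) : GG Y (ext q₀ (fun _ : Fin M => q)) M x =
    Y.r q ^ M * x + (∑ n ∈ range M, Y.r q ^ n) * Y.s q := by
  unfold GG
  rw [RR_const' Y q₀ q M M le_rfl, sum_mul]
  congr 1
  apply sum_congr rfl
  intro n hn
  rw [mem_range] at hn
  rw [RR_const' Y q₀ q M n hn.le]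
  unfold AS.ext
  rw [dif_pos hn]

lemma RR_low (Y : Sys Q) (τ : ℕ → Q) (n : ℕ) : Y.r0 ^ n ≤ |RR Y τ n| := by
  unfold RR
  rw [abs_prod, ← card_range n, ← prod_const, card_range]
  exact prod_le_prod (fun _ _ => Y.h0.le) (fun i _ => (Y.hr (τ i)).1)

lemma sum_P (μ : Measure ℝ) [IsProbabilityMeasure μ] (Y : Sys Q) (hμ : Inv μ Y) (q₀ : Q) (M : ℕ) :
    ∑ τ : Fin M → Q, ∏ i, Y.P (τ i) = 1 := by
  have h := iterate μ Y hμ q₀ M Set.univ MeasurableSet.univ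
  simp only [Set.preimage_univ, probReal_univ, mul_one] at h
  exact h.symm

/-- the preimage of a short interval is contained in an interval -/
lemma pre_interval (R b x δ L c : ℝ) (hc : 0 < c) (hR : c ≤ |R|) (hδ : δ ≤ c * L) (hδ0 : 0 ≤ δ) :
    ∃ x' : ℝ, {z : ℝ | R * z + b ∈ Set.Icc x (x + δ)} ⊆ Set.Icc x' (x' + L) := by
  have hL : 0 ≤ L := by
    by_contra h
    push Not at h
    nlinarith
  rcases lt_trichotomy R 0 with h | h | h
  · rw [abs_of_neg h] at hR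
    refine ⟨(x + δ - b) / R, fun z hz => ?_⟩
    obtain ⟨h1, h2⟩ := hz
    have e1 : R * ((x + δ - b) / R) = x + δ - b := by
      have := h.ne
      field_simp
    constructor
    · by_contra hcon
      push Not at hcon
      have := mul_lt_mul_of_neg_left hcon h
      linarith
    · by_contra hcon
      push Not at hcon
      have h3 := mul_lt_mul_of_neg_left hcon h
      have h4 : c * L ≤ -R * L := mul_le_mul_of_nonneg_right hR hL
      nlinarith
  · rw [h, abs_zero] at hR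
    linarith
  · rw [abs_of_pos h] at hR
    refine ⟨(x - b) / R, fun z hz => ?_⟩
    obtain ⟨h1, h2⟩ := hz
    have e1 : R * ((x - b) / R) = x - b := by
      have := h.ne'
      field_simp
    constructor
    · by_contra hcon
      push Not at hcon
      have := mul_lt_mul_of_pos_left hcon h
      linarith
    · by_contra hcon
      push Not at hcon
      have h3 := mul_lt_mul_of_pos_left hcon h
      have h4 : c * L ≤ R * L := mul_le_mul_of_nonneg_right hR hL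
      nlinarith

/-- one step of the iteration -/
lemma hol_step (μ : Measure ℝ) [IsProbabilityMeasure μ] (Y : Sys Q) (hμ : Inv μ Y) : ∃ (M : ℕ) (p δ₀ : ℝ), 1 ≤ M ∧ 0 < p ∧
    p < 1 ∧ 0 < δ₀ ∧ ∀ (L θ : ℝ), (∀ x, μ.real (Set.Icc x (x + L)) ≤ θ) → ∀ δ : ℝ, 0 ≤ δ → δ ≤ δ₀ → δ ≤ Y.r0 ^ M * L →
      ∀ x, μ.real (Set.Icc x (x + δ)) ≤ (1 - p) * θ := by
  obtain ⟨q₁, hq₁, hP₁⟩ : ∃ q ∈ Y.F, 0 < Y.P q := by
    by_contra hcon
    push Not at hcon
    have h1 := Y.hF0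
    have h2 : ∑ q ∈ Y.F, Y.P q ≤ 0 := sum_nonpos hcon
    linarith
  have hr1 := Y.r1_pos
  have hr1' := Y.h1
  have hd := Y.hd
  have hX0 : 1 ≤ Y.X0 := by
    unfold Sys.X0
    have : 0 ≤ Y.sm / (1 - Y.r1) := div_nonneg Y.sm_nonneg (by linarith)
    linarith
  obtain ⟨M₀, hM₀⟩ := exists_pow_lt_of_lt_one (show 0 < min (1 / 2) (Y.d / (16 * Y.X0)) by
    apply lt_min (by norm_num)
    positivity) hr1'
  obtain ⟨M, hM⟩ : ∃ M, M = M₀ + 1 := ⟨_, rfl⟩
  have hM1 : Y.r1 ^ M ≤ min (1 / 2) (Y.d / (16 * Y.X0)) := by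
    rw [hM, pow_succ]
    have : Y.r1 ^ M₀ * Y.r1 ≤ Y.r1 ^ M₀ := mul_le_of_le_one_right (by positivity) hr1'.le
    linarith
  have hMa : Y.r1 ^ M ≤ 1 / 2 := hM1.trans (min_le_left _ _)
  have hMb : Y.r1 ^ M * Y.X0 ≤ Y.d / 16 := by
    have h1 := hM1.trans (min_le_right _ _)
    rw [le_div_iff₀ (by positivity)] at h1
    linarith
  obtain ⟨r, hr⟩ : ∃ r, r = Y.r q₁ := ⟨_, rfl⟩
  have hrb := Y.hr q₁
  rw [← hr] at hrb
  have hrM : |r ^ M| ≤ Y.r1 ^ M := by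
    rw [abs_pow]
    exact pow_le_pow_left₀ (abs_nonneg _) hrb.2 M
  obtain ⟨SM, hSM⟩ : ∃ SM, SM = ∑ n ∈ range M, r ^ n := ⟨_, rfl⟩
  have hS : 1 / 4 ≤ |SM| := by
    have h1 : SM * (1 - r) = 1 - r ^ M := by
      rw [hSM]
      have := mul_neg_geom_sum r M
      linarith
    have h2 : 1 / 2 ≤ |1 - r ^ M| := by
      have := abs_sub_abs_le_abs_sub (1 : ℝ) (r ^ M)
      rw [abs_one] at this
      linarith
    rw [← h1, abs_mul] at h2
    have h3 : |1 - r| ≤ 2 := by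
      have := abs_sub (1 : ℝ) r
      rw [abs_one] at this
      linarith [hrb.2]
    have h4 := abs_nonneg SM
    nlinarith
  have hsep : ∀ z z' : ℝ, |z| ≤ Y.X0 → |z'| ≤ Y.X0 →
      Y.d / 8 ≤ |(r ^ M * z + SM * Y.s q₁) - (r ^ M * z' + SM * Y.s (Y.σ q₁))| := by
    intro z z' hz hz'
    have h1 := Y.hFd q₁ hq₁
    have h2 : Y.d / 4 ≤ |SM * (Y.s (Y.σ q₁) - Y.s q₁)| := by
      rw [abs_mul]
      calc Y.d / 4 = 1 / 4 * Y.d := by ring
        _ ≤ |SM| * |Y.s (Y.σ q₁) - Y.s q₁| := mul_le_mul hS h1 hd.le (abs_nonneg _)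
    have h3 : |r ^ M * (z - z')| ≤ Y.d / 8 := by
      rw [abs_mul]
      have h4 : |z - z'| ≤ 2 * Y.X0 := by
        have := abs_sub z z'
        linarith
      calc |r ^ M| * |z - z'| ≤ Y.r1 ^ M * (2 * Y.X0) := mul_le_mul hrM h4 (abs_nonneg _) (by positivity)
        _ = 2 * (Y.r1 ^ M * Y.X0) := by ring
        _ ≤ 2 * (Y.d / 16) := by linarith
        _ = _ := by ring
    have h5 : (r ^ M * z + SM * Y.s q₁) - (r ^ M * z' + SM * Y.s (Y.σ q₁)) = r ^ M * (z - z') - SM * (Y.s (Y.σ q₁) - Y.s q₁) := by ring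
    rw [h5]
    have h6 := abs_sub_abs_le_abs_sub (SM * (Y.s (Y.σ q₁) - Y.s q₁)) (r ^ M * (z - z'))
    rw [abs_sub_comm] at h6
    linarith
  obtain ⟨p, hp⟩ : ∃ p, p = Y.P q₁ ^ M := ⟨_, rfl⟩
  have hp0 : 0 < p := by rw [hp]; positivity
  obtain ⟨u, hu⟩ : ∃ u : Fin M → Q, u = fun _ => q₁ := ⟨_, rfl⟩
  obtain ⟨v, hv⟩ : ∃ v : Fin M → Q, v = fun _ => Y.σ q₁ := ⟨_, rfl⟩
  have hPu : ∏ i, Y.P (u i) = p := by rw [hu, hp]; simp
  have hPv : ∏ i, Y.P (v i) = p := by rw [hv, hp]; simp [Y.hPσ]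
  have huv : u ≠ v := by
    intro h
    have h1 := congrFun h ⟨0, by omega⟩
    rw [hu, hv] at h1
    have h2 := Y.hFd q₁ hq₁
    simp only at h1
    rw [← h1, sub_self, abs_zero] at h2
    linarith
  have hsumP := sum_P μ Y hμ q₁ M
  have hprodnn : ∀ τ : Fin M → Q, 0 ≤ ∏ i, Y.P (τ i) := fun τ => prod_nonneg fun i _ => Y.hP _
  have hp1 : p < 1 := by
    have h1 : ∑ τ ∈ ({u, v} : Finset (Fin M → Q)), ∏ i, Y.P (τ i) ≤ ∑ τ : Fin M → Q, ∏ i, Y.P (τ i) :=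
      sum_le_sum_of_subset_of_nonneg (subset_univ _) fun τ _ _ => hprodnn τ
    rw [sum_pair huv, hPu, hPv, hsumP] at h1
    linarith
  refine ⟨M, p, Y.d / 16, by omega, hp0, hp1, by positivity, fun L θ hL δ hδ0 hδ1 hδ2 x => ?_⟩
  have hθ : 0 ≤ θ := measureReal_nonneg.trans (hL 0)
  rw [iterate μ Y hμ q₁ M _ measurableSet_Icc]
  -- the word without contribution
  have hstar : ∃ w : Fin M → Q, ∏ i, Y.P (w i) = p ∧ μ.real (GG Y (ext q₁ w) M ⁻¹' (Set.Icc x (x + δ))) = 0 := by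
    have hz : ∀ w : Fin M → Q, (∀ z, |z| ≤ Y.X0 → GG Y (ext q₁ w) M z ∉ Set.Icc x (x + δ)) →
        μ.real (GG Y (ext q₁ w) M ⁻¹' (Set.Icc x (x + δ))) = 0 := by
      intro w hw
      apply le_antisymm _ measureReal_nonneg
      rw [← tail_zero μ Y hμ]
      apply measureReal_mono _ (measure_ne_top _ _)
      intro z hzz
      by_contra hcon
      simp only [Set.mem_ofPred_eq, not_lt] at hcon
      exact hw z hcon hzz
    by_cases hcase : ∀ z, |z| ≤ Y.X0 → GG Y (ext q₁ u) M z ∉ Set.Icc x (x + δ)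
    · exact ⟨u, hPu, hz u hcase⟩
    · push Not at hcase
      obtain ⟨z, hz1, hz2⟩ := hcase
      refine ⟨v, hPv, hz v fun z' hz' hcon => ?_⟩
      rw [hu, GG_const, ← hr, ← hSM] at hz2
      rw [hv, GG_const, Y.hrσ, ← hr, ← hSM] at hcon
      have h1 := hsep z z' hz1 hz'
      have h2 : |(r ^ M * z + SM * Y.s q₁) - (r ^ M * z' + SM * Y.s (Y.σ q₁))| ≤ δ := by
        rw [abs_le]
        constructor <;> linarith [hz2.1, hz2.2, hcon.1, hcon.2]
      linarith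
  obtain ⟨w, hw1, hw2⟩ := hstar
  have hterm : ∀ τ : Fin M → Q, (∏ i, Y.P (τ i)) * μ.real (GG Y (ext q₁ τ) M ⁻¹' (Set.Icc x (x + δ))) ≤
      (∏ i, Y.P (τ i)) * (if τ = w then 0 else θ) := by
    intro τ
    apply mul_le_mul_of_nonneg_left _ (hprodnn τ)
    split_ifs with h
    · rw [h, hw2]
    · obtain ⟨x', hx'⟩ := pre_interval (RR Y (ext q₁ τ) M) (∑ n ∈ range M, RR Y (ext q₁ τ) n * Y.s (ext q₁ τ n)) x δ L
        (Y.r0 ^ M) (pow_pos Y.h0 M) (RR_low Y _ M) hδ2 hδ0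
      exact (measureReal_mono hx' (measure_ne_top _ _)).trans (hL x')
  refine (sum_le_sum fun τ _ => hterm τ).trans (le_of_eq ?_)
  have h1 : ∀ τ : Fin M → Q, (∏ i, Y.P (τ i)) * (if τ = w then 0 else θ) =
      (∏ i, Y.P (τ i)) * θ - (if τ = w then (∏ i, Y.P (τ i)) * θ else 0) := by
    intro τ
    split_ifs <;> ring
  rw [sum_congr rfl fun τ _ => h1 τ, sum_sub_distrib, ← sum_mul, hsumP, sum_ite_eq' univ w, if_pos (mem_univ _), hw1]
  ring

/-- **The measure of a short interval is at most a power of its length.** -/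
theorem holder (μ : Measure ℝ) [IsProbabilityMeasure μ] (Y : Sys Q) (hμ : Inv μ Y) : ∃ α C : ℝ, 0 < α ∧ 0 ≤ C ∧
    ∀ x δ : ℝ, 0 < δ → μ.real (Set.Icc x (x + δ)) ≤ C * δ ^ α := by
  obtain ⟨M, p, δ₀, hM, hp0, hp1, hδ₀, hstep⟩ := hol_step μ Y hμ
  have hr0 := Y.h0
  have hr01 : Y.r0 < 1 := by
    have hne : ∃ q : Q, True := by
      by_contra hcon
      push Not at hcon
      have := Y.hP1
      rw [sum_eq_zero (fun q _ => (hcon q).elim)] at this
      exact zero_ne_one this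
    obtain ⟨q, _⟩ := hne
    have h1 := Y.hr q
    have := Y.h1
    linarith [h1.1, h1.2]
  obtain ⟨κ, hκ⟩ : ∃ κ, κ = Y.r0 ^ M := ⟨_, rfl⟩
  have hκ0 : 0 < κ := by rw [hκ]; positivity
  have hκ1 : κ < 1 := by rw [hκ]; exact pow_lt_one₀ hr0.le hr01 (by omega)
  obtain ⟨θ, hθ⟩ : ∃ θ, θ = 1 - p := ⟨_, rfl⟩
  have hθ0 : 0 < θ := by rw [hθ]; linarith
  have hθ1 : θ < 1 := by rw [hθ]; linarith
  have hH : ∀ k : ℕ, ∀ x, μ.real (Set.Icc x (x + δ₀ * κ ^ k)) ≤ θ ^ k := by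
    intro k
    induction k with
    | zero =>
      intro x
      rw [pow_zero]
      exact measureReal_le_one
    | succ k ih =>
      intro x
      have h1 : κ ^ (k + 1) ≤ 1 := pow_le_one₀ hκ0.le hκ1.le
      have h2 := hstep (δ₀ * κ ^ k) (θ ^ k) ih (δ₀ * κ ^ (k + 1)) (by positivity) (by nlinarith) (by
        rw [← hκ, pow_succ]
        apply le_of_eq
        ring) x
      rw [← hθ] at h2
      rw [pow_succ θ k, mul_comm (θ ^ k) θ]
      exact h2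
  obtain ⟨α, hα⟩ : ∃ α, α = Real.log θ / Real.log κ := ⟨_, rfl⟩
  have hlκ : Real.log κ < 0 := Real.log_neg hκ0 hκ1
  have hlθ : Real.log θ < 0 := Real.log_neg hθ0 hθ1
  have hα0 : 0 < α := by rw [hα]; exact div_pos_of_neg_of_neg hlθ hlκ
  have hκα : κ ^ α = θ := by
    rw [Real.rpow_def_of_pos hκ0, hα, mul_div_cancel₀ _ hlκ.ne, Real.exp_log hθ0]
  refine ⟨α, θ⁻¹ * (δ₀ ^ α)⁻¹, hα0, by positivity, fun x δ hδ => ?_⟩
  have hq : θ⁻¹ * (δ₀ ^ α)⁻¹ * δ ^ α = θ⁻¹ * (δ / δ₀) ^ α := by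
    rw [Real.div_rpow hδ.le hδ₀.le]
    field_simp
  rw [hq]
  rcases le_total δ₀ δ with h | h
  · have h1 : 1 ≤ (δ / δ₀) ^ α := Real.one_le_rpow ((one_le_div hδ₀).2 h) hα0.le
    have h2 : 1 ≤ θ⁻¹ := (one_le_inv₀ hθ0).2 hθ1.le
    calc μ.real (Set.Icc x (x + δ)) ≤ 1 := measureReal_le_one
      _ = 1 * 1 := (one_mul _).symm
      _ ≤ _ := mul_le_mul h2 h1 zero_le_one (by positivity)
  · obtain ⟨k, hk1, hk2⟩ := exists_nat_pow_near_of_lt_one (show 0 < δ / δ₀ by positivity) ((div_le_one hδ₀).2 h) hκ0 hκ1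
    have h1 : δ ≤ δ₀ * κ ^ k := by
      rw [div_le_iff₀ hδ₀] at hk2
      linarith
    have h2 : μ.real (Set.Icc x (x + δ)) ≤ θ ^ k := by
      refine (measureReal_mono ?_ (measure_ne_top _ _)).trans (hH k x)
      intro z hz
      exact ⟨hz.1, hz.2.trans (by linarith)⟩
    refine h2.trans ?_
    have h3 : θ ^ k = θ⁻¹ * (κ ^ (k + 1)) ^ α := by
      have h4 : (κ ^ (k + 1)) ^ α = θ ^ (k + 1) := by
        rw [← Real.rpow_natCast, ← Real.rpow_mul hκ0.le, mul_comm, Real.rpow_mul hκ0.le, hκα, Real.rpow_natCast]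
      rw [h4, pow_succ]
      field_simp
    rw [h3]
    apply mul_le_mul_of_nonneg_left _ (by positivity)
    exact Real.rpow_le_rpow (by positivity) hk1.le hα0.le

end Pool.Agent.Q259.TM
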