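import Pool.Agent.Q259.TM.Thi
import Pool.Agent.Q259.TM.Fat
import Pool.Agent.Q259.AS.Rare2

set_option autoImplicit false

/-! The product of a random integer with a thin large spectrum and a uniformly distributed integer has a thin large
spectrum. -/

namespace Pool.Agent.Q259.TM

open Finset
open Pool.Agent.Y885 (TLaw Thin Spec)
open Pool.Agent.Q259.AS (LW pow_ev)
open Pool.Agent.H807R2.Dav

lemma CF_mod (N : ℕ) (hN : 1 ≤ N) (S : Finset ℤ) (w : ℤ → ℝ) (t : ℤ) :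
    CF S w ((t : ℝ) / N) = CF S w ((((t % (N : ℤ)).toNat : ℕ) : ℝ) / N) := by
  have hNz : (0 : ℤ) < N := by exact_mod_cast hN
  have hN0 : (0 : ℝ) < N := by exact_mod_cast hN
  unfold CF
  apply sum_congr rfl
  intro n _
  congr 1
  have h1 : (((t % (N : ℤ)).toNat : ℕ) : ℤ) = t % N := Int.toNat_of_nonneg (Int.emod_nonneg _ hNz.ne')
  have h2 : (t : ℝ) = (((t % (N : ℤ)).toNat : ℕ) : ℝ) + N * ((t / N : ℤ) : ℝ) := by
    have h3 : t = (((t % (N : ℤ)).toNat : ℕ) : ℤ) + N * (t / N) := by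
      rw [h1]
      exact (Int.emod_add_mul_ediv _ _).symm
    exact_mod_cast h3
  have h3 : (n : ℝ) * ((t : ℝ) / N) = (n : ℝ) * ((((t % (N : ℤ)).toNat : ℕ) : ℝ) / N) + ((n * (t / N) : ℤ) : ℝ) := by
    rw [Int.cast_mul]
    conv_lhs => rw [h2]
    field_simp
  rw [h3, ee_add_int]

/-- the law of the product -/
theorem tlaw_mul (b E : ℕ) (hb : 2 ≤ b) (hE : 3 ≤ E) (c k₀ : ℕ → ℕ) (T : ℕ) : ∃ c' : ℕ → ℕ, ∀ V : ℕ, ∃ K₀ : ℕ,
    ∀ K : ℕ, K₀ ≤ K → ∀ (S : Finset ℤ) (w : ℤ → ℝ), LW b E c k₀ K S w → (∀ n ∈ S, (b : ℤ) ^ 3 * |n| ≤ (b : ℤ) ^ K) →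
    ∀ M s : ℕ, 1 ≤ M → 2 * M ≤ b ^ s → b ^ s ≤ 2 * b * M → K + s ≤ K ^ T →
    TLaw b E (c' V) V (K + s) ((Ico M (2 * M)) ×ˢ S) (fun x : ℕ × ℤ => w x.2 / M) (fun x : ℕ × ℤ => (x.1 : ℤ) * x.2) := by
  classical
  have hbn : 0 < b := by omega
  have hbr : (0 : ℝ) < b := by exact_mod_cast hbn
  refine ⟨fun V => 7 * V + 5 * c (2 * T * V + 1) + 1, fun V => ?_⟩
  obtain ⟨V₂, hV₂⟩ : ∃ V₂, V₂ = 2 * T * V + 1 := ⟨_, rfl⟩
  obtain ⟨d, hd⟩ : ∃ d, d = c V₂ := ⟨_, rfl⟩
  obtain ⟨C, hC⟩ : ∃ C, C = 4 * b ^ 2 * 24 ^ 4 * 2 * (2 * b ^ 2 + 2400 * b + 1) * (4 * b + 3) * b * 1201 := ⟨_, rfl⟩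
  obtain ⟨K1, hK1⟩ := pow_ev (3 * T * V + 2 * d + 1) b hb
  refine ⟨k₀ V₂ + K1 + C + 345600 + 4, fun K hK S w hw hS M s hM hM1 hM2 hKT => ?_⟩
  simp only
  rw [← hV₂, ← hd]
  obtain ⟨K', hK'⟩ : ∃ K', K' = K + s := ⟨_, rfl⟩
  rw [← hK'] at hKT ⊢
  have hK'1 : 1 ≤ K' := by omega
  have hK'r : (1 : ℝ) ≤ K' := by exact_mod_cast hK'1
  obtain ⟨a, ha⟩ : ∃ a, a = K' ^ V := ⟨_, rfl⟩
  have ha1 : 1 ≤ a := by rw [ha]; exact Nat.one_le_pow _ _ hK'1
  have har : (1 : ℝ) ≤ a := by exact_mod_cast ha1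
  have haT : a ≤ K ^ (T * V) := by
    rw [ha, pow_mul]
    exact Nat.pow_le_pow_left hKT V
  obtain ⟨Q, hQ⟩ : ∃ Q, Q = K ^ d := ⟨_, rfl⟩
  have hQ1 : 1 ≤ Q := by rw [hQ]; exact Nat.one_le_pow _ _ (by omega)
  obtain ⟨q, hq⟩ : ∃ q, q = K' ^ d := ⟨_, rfl⟩
  have hQq : Q ≤ q := by rw [hQ, hq]; exact Nat.pow_le_pow_left (by omega) d
  obtain ⟨N, hN⟩ : ∃ N, N = b ^ (K + 1) := ⟨_, rfl⟩
  obtain ⟨B, hB⟩ : ∃ B, B = b ^ s := ⟨_, rfl⟩
  have hN1 : 1 ≤ N := by rw [hN]; exact Nat.pow_pos hbn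
  have hB1 : 1 ≤ B := by rw [hB]; exact Nat.pow_pos hbn
  have hNr : (0 : ℝ) < N := by exact_mod_cast hN1
  have hBr : (0 : ℝ) < B := by exact_mod_cast hB1
  have hMr : (0 : ℝ) < M := by exact_mod_cast hM
  have hNB : b ^ (K' + 1) = N * B := by
    rw [hN, hB, hK', ← pow_add]
    congr 1
    omega
  have hlaw := hw.law V₂ (by omega)
  rw [← hd] at hlaw
  have hthin := hlaw.thin
  rw [← hQ] at hthin
  obtain ⟨P, hP⟩ : ∃ P, P = Spec b V₂ K S w (fun n => n) := ⟨_, rfl⟩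
  rw [← hP] at hthin
  -- the frequencies in the large spectrum
  obtain ⟨T', hT'⟩ : ∃ T', T' = Spec b V K' ((Ico M (2 * M)) ×ˢ S) (fun x : ℕ × ℤ => w x.2 / M)
    (fun x : ℕ × ℤ => (x.1 : ℤ) * x.2) := ⟨_, rfl⟩
  have hchar : ∀ t : ℕ, ∑ ω ∈ (Ico M (2 * M)) ×ˢ S, (((w ω.2 / M : ℝ) : ℝ) : ℂ) *
      ee ((((ω.1 : ℤ) * ω.2 : ℤ) : ℝ) * ((t : ℝ) / ((N * B : ℕ) : ℝ))) =
      (1 / M : ℂ) * ∑ m ∈ Ico M (2 * M), CF S w ((m : ℝ) * ((t : ℝ) / ((N * B : ℕ) : ℝ))) := by
    intro t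
    rw [sum_product, mul_sum]
    apply sum_congr rfl
    intro m _
    unfold CF
    rw [mul_sum]
    apply sum_congr rfl
    intro n _
    push_cast
    rw [show ((m : ℝ) * (n : ℝ) * ((t : ℝ) / ((N : ℝ) * (B : ℝ)))) = (n : ℝ) * ((m : ℝ) * ((t : ℝ) / ((N : ℝ) * (B : ℝ)))) by ring]
    ring
  have hhit : ∀ t ∈ T', M ≤ (2 * a) * ((Ico M (2 * M)).filter (fun m => Hit N B (600 * a) P m t)).card := by
    intro t ht
    have h1 : 1 / (K' : ℝ) ^ V < ‖∑ ω ∈ (Ico M (2 * M)) ×ˢ S, (((w ω.2 / M : ℝ) : ℝ) : ℂ) *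
      ee ((((ω.1 : ℤ) * ω.2 : ℤ) : ℝ) * ((t : ℝ) / ((N * B : ℕ) : ℝ)))‖ := by
      rw [hT'] at ht
      have := (mem_filter.1 ht).2
      rwa [hNB] at this
    rw [hchar, norm_mul] at h1
    have h2 : ‖(1 / M : ℂ)‖ = 1 / M := by
      rw [norm_div, norm_one, Complex.norm_natCast]
    have haR : (K' : ℝ) ^ V = a := by rw [ha]; push_cast; rfl
    rw [h2, haR] at h1
    obtain ⟨G, hG⟩ : ∃ G, G = (Ico M (2 * M)).filter (fun m : ℕ => 1 / (2 * (a : ℝ)) ≤
      ‖CF S w ((m : ℝ) * ((t : ℝ) / ((N * B : ℕ) : ℝ)))‖) := ⟨_, rfl⟩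
    have h3 : ‖∑ m ∈ Ico M (2 * M), CF S w ((m : ℝ) * ((t : ℝ) / ((N * B : ℕ) : ℝ)))‖ ≤ G.card + M * (1 / (2 * (a : ℝ))) := by
      refine (norm_sum_le _ _).trans ?_
      rw [← sum_filter_add_sum_filter_not (Ico M (2 * M)) (fun m : ℕ => 1 / (2 * (a : ℝ)) ≤
        ‖CF S w ((m : ℝ) * ((t : ℝ) / ((N * B : ℕ) : ℝ)))‖)]
      apply add_le_add
      · rw [← hG]
        refine (sum_le_sum (fun m _ => CF_le S w hw.nonneg hw.sum.le _)).trans (le_of_eq ?_)
        simp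
      · have h4 : ∀ m ∈ (Ico M (2 * M)).filter (fun m : ℕ => ¬ 1 / (2 * (a : ℝ)) ≤
            ‖CF S w ((m : ℝ) * ((t : ℝ) / ((N * B : ℕ) : ℝ)))‖), ‖CF S w ((m : ℝ) * ((t : ℝ) / ((N * B : ℕ) : ℝ)))‖ ≤
            1 / (2 * (a : ℝ)) := by
          intro m hm
          exact (not_le.1 (mem_filter.1 hm).2).le
        refine (sum_le_sum h4).trans ?_
        rw [sum_const, nsmul_eq_mul]
        apply mul_le_mul_of_nonneg_right _ (by positivity)
        have h5 : ((Ico M (2 * M)).filter (fun m : ℕ => ¬ 1 / (2 * (a : ℝ)) ≤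
            ‖CF S w ((m : ℝ) * ((t : ℝ) / ((N * B : ℕ) : ℝ)))‖)).card ≤ M := by
          refine (card_filter_le _ _).trans ?_
          rw [Nat.card_Ico]
          omega
        exact_mod_cast h5
    have h4 : (M : ℝ) ≤ 2 * a * G.card := by
      have h5 : 1 / (a : ℝ) < 1 / M * (G.card + M * (1 / (2 * (a : ℝ)))) :=
        lt_of_lt_of_le h1 (mul_le_mul_of_nonneg_left h3 (by positivity))
      have ha0 : (0 : ℝ) < a := by linarith
      have h6 : 1 / M * ((G.card : ℝ) + M * (1 / (2 * (a : ℝ)))) = G.card / M + 1 / (2 * a) := by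
        field_simp
      rw [h6] at h5
      have h7 : 1 / (a : ℝ) = 1 / (2 * a) + 1 / (2 * a) := by
        field_simp
        norm_num
      have h8 : 1 / (2 * (a : ℝ)) < G.card / M := by linarith
      rw [div_lt_div_iff₀ (by positivity) hMr] at h8
      linarith
    have h5 : G.card ≤ ((Ico M (2 * M)).filter (fun m => Hit N B (600 * a) P m t)).card := by
      apply card_le_card
      intro m hm
      rw [hG, mem_filter] at hm
      rw [mem_filter]
      refine ⟨hm.1, ?_⟩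
      obtain ⟨t', g1, g2⟩ := fat N (b ^ (K - 3)) (by
          have e1 : N = b ^ 4 * b ^ (K - 3) := by
            rw [hN, ← pow_add]
            congr 1
            omega
          rw [e1]
          apply Nat.mul_le_mul_right
          calc 16 = 2 ^ 4 := by norm_num
            _ ≤ b ^ 4 := Nat.pow_le_pow_left hb 4) (by
          rw [hN]
          calc 4 = 2 ^ 2 := by norm_num
            _ ≤ b ^ 2 := Nat.pow_le_pow_left hb 2
            _ ≤ b ^ (K + 1) := Nat.pow_le_pow_right hbn (by omega)) S w hw.nonneg hw.sum.le (by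
          intro n hn
          have e1 := hS n hn
          have e2 : (b : ℤ) ^ K = (b : ℤ) ^ 3 * (b : ℤ) ^ (K - 3) := by
            rw [← pow_add]
            congr 1
            omega
          rw [e2] at e1
          have e3 : (0 : ℤ) < (b : ℤ) ^ 3 := by positivity
          have e4 := le_of_mul_le_mul_left e1 e3
          push_cast
          exact e4) ((m : ℝ) * ((t : ℝ) / ((N * B : ℕ) : ℝ))) (1 / (2 * (a : ℝ))) (by positivity) (600 * a) (by
          push_cast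
          rw [div_div_eq_mul_div, div_one]
          linarith) hm.2
      refine ⟨t', ?_, ?_⟩
      · have e1 : (N : ℝ) * ((m : ℝ) * ((t : ℝ) / ((N * B : ℕ) : ℝ))) - t' = -(((B : ℝ) * t' - m * t) / B) := by
          push_cast
          field_simp
          ring
        rw [e1, abs_neg, abs_div, abs_of_pos hBr, div_le_iff₀ hBr] at g1
        exact_mod_cast g1
      · rw [CF_mod N hN1] at g2
        rw [hP]
        unfold Spec
        rw [mem_filter, mem_range, ← hN]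
        have hNz : (0 : ℤ) < N := by exact_mod_cast hN1
        refine ⟨?_, lt_of_lt_of_le ?_ g2⟩
        · have := Int.emod_lt_of_pos t' hNz
          have := Int.emod_nonneg t' hNz.ne'
          omega
        · -- the level
          have e1 : 1 / (2 * (a : ℝ)) / (2 * (2 * ((600 * a : ℕ) : ℝ) + 1)) = 1 / (4 * a * (1200 * a + 1)) := by
            push_cast
            rw [div_div]
            congr 1
            ring
          rw [e1]
          apply one_div_lt_one_div_of_lt (by positivity)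
          have e2 : 4 * a * (1200 * a + 1) < K ^ V₂ := by
            have e3 : 4 * a * (1200 * a + 1) ≤ 4804 * (a * a) := by nlinarith
            have e4 : a * a ≤ K ^ (2 * T * V) := by
              calc a * a ≤ K ^ (T * V) * K ^ (T * V) := Nat.mul_le_mul haT haT
                _ = _ := by rw [← pow_add]; congr 1; ring
            have e5 : 0 < K ^ (2 * T * V) := Nat.pow_pos (by omega)
            calc 4 * a * (1200 * a + 1) ≤ 4804 * K ^ (2 * T * V) := e3.trans (Nat.mul_le_mul_left _ e4)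
              _ < K * K ^ (2 * T * V) := Nat.mul_lt_mul_of_pos_right (by omega) e5
              _ = _ := by rw [hV₂, pow_succ, mul_comm]
          exact_mod_cast e2
    have h6 : (M : ℝ) ≤ 2 * a * ((Ico M (2 * M)).filter (fun m => Hit N B (600 * a) P m t)).card := by
      refine h4.trans ?_
      apply mul_le_mul_of_nonneg_left _ (by positivity)
      exact_mod_cast h5
    exact_mod_cast h6
  -- the parameters
  obtain ⟨i₀, hi₀⟩ : ∃ i₀, i₀ = Nat.log b (12 * (2 * a) * Q) := ⟨_, rfl⟩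
  have hne : 12 * (2 * a) * Q ≠ 0 := by
    have : 0 < 12 * (2 * a) * Q := by positivity
    omega
  have hi1 : b ^ i₀ ≤ 12 * (2 * a) * Q := by rw [hi₀]; exact Nat.pow_log_le_self b hne
  have hi2 : 12 * (2 * a) * Q < b ^ (i₀ + 1) := by rw [hi₀]; exact Nat.lt_pow_succ_log_self (by omega) _
  have hbig : b ^ (2 * i₀) * (600 * a) ≤ b ^ K := by
    have e1 : b ^ (2 * i₀) ≤ (12 * (2 * a) * Q) ^ 2 := by
      rw [mul_comm 2 i₀, pow_mul]
      exact Nat.pow_le_pow_left hi1 2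
    have e2 := hK1 K (by omega)
    calc b ^ (2 * i₀) * (600 * a) ≤ (12 * (2 * a) * Q) ^ 2 * (600 * a) := Nat.mul_le_mul_right _ e1
      _ = 345600 * (a ^ 3 * Q ^ 2) := by ring
      _ ≤ K * (K ^ (3 * T * V + 2 * d)) := by
          apply Nat.mul_le_mul (by omega)
          calc a ^ 3 * Q ^ 2 ≤ (K ^ (T * V)) ^ 3 * (K ^ d) ^ 2 :=
                Nat.mul_le_mul (Nat.pow_le_pow_left haT 3) (by rw [hQ])
            _ = _ := by rw [← pow_mul, ← pow_mul, ← pow_add]; congr 1; ring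
      _ = K ^ (3 * T * V + 2 * d + 1) := by rw [pow_succ, mul_comm]
      _ ≤ 4 * b ^ 3 * K ^ (3 * T * V + 2 * d + 1) := Nat.le_mul_of_pos_left _ (by positivity)
      _ ≤ b ^ K := e2
  have h2i : 2 * i₀ ≤ K := by
    have e1 : b ^ (2 * i₀) ≤ b ^ K := (Nat.le_mul_of_pos_right _ (by omega)).trans hbig
    exact (Nat.pow_le_pow_iff_right (by omega)).1 e1
  have hHi : 600 * a ≤ b ^ (K - 2 * i₀) := by
    have e1 : b ^ K = b ^ (2 * i₀) * b ^ (K - 2 * i₀) := by
      rw [← pow_add]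
      congr 1
      omega
    rw [e1] at hbig
    exact Nat.le_of_mul_le_mul_left hbig (Nat.pow_pos hbn)
  have hH1 : 2 * (600 * a) + 2 ≤ b ^ (K + 1) := by
    have e1 : 12 * (2 * a) * Q < b ^ (i₀ + 1) := hi2
    have e2 : b ^ (K - 2 * i₀) ≤ b ^ K := Nat.pow_le_pow_right hbn (by omega)
    have e3 : 1 ≤ b ^ (2 * i₀) := Nat.pow_pos hbn
    by_cases hi0 : i₀ = 0
    · rw [hi0, zero_add, pow_one] at e1
      have e5 : 24 < b := by
        have : 24 ≤ 12 * (2 * a) * Q := by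
          calc 24 = 12 * (2 * 1) * 1 := by norm_num
            _ ≤ 12 * (2 * a) * Q := Nat.mul_le_mul (Nat.mul_le_mul_left _ (Nat.mul_le_mul_left _ ha1)) hQ1
        omega
      calc 2 * (600 * a) + 2 ≤ 4 * (600 * a) := by omega
        _ ≤ b * b ^ K := Nat.mul_le_mul (by omega) (hHi.trans e2)
        _ = _ := by rw [pow_succ, mul_comm]
    · have e4 : b ^ 2 ≤ b ^ (2 * i₀) := Nat.pow_le_pow_right hbn (by omega)
      have e5 : 4 ≤ b ^ 2 := by nlinarith
      calc 2 * (600 * a) + 2 ≤ 4 * (600 * a) := by omega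
        _ ≤ b ^ (2 * i₀) * (600 * a) := Nat.mul_le_mul_right _ (e5.trans e4)
        _ ≤ b ^ K := hbig
        _ ≤ b ^ (K + 1) := Nat.pow_le_pow_right hbn (by omega)
  have hfin := thin_mul b E K s M (600 * a) (2 * a) Q i₀ hb hE hM hM1 hM2 (by omega) hQ1 h2i hHi hi2 hH1 P hthin T'
    (by
      intro t ht
      rw [hT'] at ht
      have := mem_range.1 (mem_filter.1 ht).1
      rwa [hK'] at this) (by
      rw [← hN, ← hB]
      exact hhit)
  rw [← hK'] at hfin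
  refine ⟨?_, ?_, ?_⟩
  · intro x hx
    exact div_nonneg (hw.nonneg _ (mem_product.1 hx).2) hMr.le
  · rw [sum_product]
    have h1 : ∀ m ∈ Ico M (2 * M), ∑ n ∈ S, w n / (M : ℝ) = 1 / M := by
      intro m _
      rw [← sum_div, hw.sum]
    simp only
    rw [sum_congr rfl h1, sum_const, Nat.card_Ico, nsmul_eq_mul]
    have h2 : 2 * M - M = M := by omega
    rw [h2]
    exact le_of_eq (mul_one_div_cancel hMr.ne')
  · rw [← hT']
    apply Pool.Agent.Q259.AS.thin_mono (by omega) (by omega) le_rfl _ hfin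
    have hR : b ^ (2 * i₀ + 1) ≤ b * (24 * a * q) ^ 2 := by
      rw [pow_succ', mul_comm 2 i₀, pow_mul]
      apply Nat.mul_le_mul_left
      apply Nat.pow_le_pow_left
      refine hi1.trans ?_
      calc 12 * (2 * a) * Q ≤ 12 * (2 * a) * q := Nat.mul_le_mul_left _ hQq
        _ = _ := by ring
    have hκ : 2 * b * (b + 2 * (600 * a)) + 1 ≤ (2 * b ^ 2 + 2400 * b + 1) * a := by
      have e1 : 2 * b * (b + 2 * (600 * a)) + 1 = 2 * b ^ 2 * 1 + 2400 * b * a + 1 * 1 := by ring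
      have e2 : (2 * b ^ 2 + 2400 * b + 1) * a = 2 * b ^ 2 * a + 2400 * b * a + 1 * a := by ring
      rw [e1, e2]
      have e3 : 2 * b ^ 2 * 1 ≤ 2 * b ^ 2 * a := Nat.mul_le_mul_left _ ha1
      omega
    calc 4 * (b ^ (2 * i₀ + 1)) ^ 2 * (2 * a) * (2 * b * (b + 2 * (600 * a)) + 1) * (4 * b + 3) * b * Q * (2 * (600 * a) + 1) ≤
        4 * (b * (24 * a * q) ^ 2) ^ 2 * (2 * a) * ((2 * b ^ 2 + 2400 * b + 1) * a) * (4 * b + 3) * b * q * (1201 * a) := by
          apply Nat.mul_le_mul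
          · apply Nat.mul_le_mul _ hQq
            apply Nat.mul_le_mul_right
            apply Nat.mul_le_mul_right
            apply Nat.mul_le_mul _ hκ
            apply Nat.mul_le_mul_right
            apply Nat.mul_le_mul_left
            exact Nat.pow_le_pow_left hR 2
          · omega
      _ = C * (a ^ 7 * q ^ 5) := by rw [hC]; ring
      _ ≤ K' * (a ^ 7 * q ^ 5) := Nat.mul_le_mul_right _ (by omega)
      _ = K' ^ (7 * V + 5 * d + 1) := by
          rw [ha, hq, ← pow_mul, ← pow_mul, ← pow_add, ← pow_succ']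
          congr 1
          ring

end Pool.Agent.Q259.TM
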