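import Pool.Agent.Q259.TM.Rat

set_option autoImplicit false

/-! Frequencies whose multiples are often near a thin set of frequencies: local counts. -/

namespace Pool.Agent.Q259.TM

open Finset

open Classical in
lemma local_gen (b N B M H Z l l' x W V : ℕ) (hM : 1 ≤ M) (hB1 : 2 * M ≤ B) (hB2 : B ≤ 2 * b * M)
    (hl : l ≤ b * l') (hl' : 1 ≤ l') (hl1 : 1 ≤ l) (P : Finset ℕ) (T : Finset ℕ)
    (hT : ∀ t ∈ T, x ≤ t ∧ t ≤ x + W)
    (hit : ∀ t ∈ T, M ≤ Z * ((Ico M (2 * M)).filter (fun m => Hit N B H P m t)).card)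
    (hV : ∀ (F : Finset ℤ) (y : ℤ), (∀ t ∈ F, y ≤ t ∧ t < y + (W + 2 * H + 1 : ℕ) ∧ (t % (N : ℤ)).toNat ∈ P) →
      (F.image (fun t => t / (l : ℤ))).card ≤ V) :
    (T.image (fun t => t / l')).card ≤ Z * ((2 * b * (b + 2 * H) + 1) * V) := by
  have hex : ∀ u : ℕ, ∃ τ : ℕ, u ∈ T.image (fun t => t / l') → τ ∈ T ∧ τ / l' = u := by
    intro u
    by_cases hu : u ∈ T.image (fun t => t / l')
    · obtain ⟨τ, h1, h2⟩ := mem_image.1 hu
      exact ⟨τ, fun _ => ⟨h1, h2⟩⟩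
    · exact ⟨0, fun h => absurd h hu⟩
  choose τ hτ using hex
  apply double_count M Z _ hM (T.image (fun t => t / l')) (fun m u => Hit N B H P m (τ u))
  · intro u hu
    exact hit _ (hτ u hu).1
  · intro m hm
    rw [mem_Ico] at hm
    obtain ⟨U, hU⟩ : ∃ U, U = (T.image (fun t => t / l')).filter (fun u => Hit N B H P m (τ u)) := ⟨_, rfl⟩
    rw [← hU]
    have hUm : ∀ u ∈ U, u ∈ T.image (fun t => t / l') ∧ Hit N B H P m (τ u) := by
      intro u hu
      rwa [hU, mem_filter] at hu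
    have hex2 : ∀ u : ℕ, ∃ t : ℤ, u ∈ U → |(B : ℤ) * t - m * (τ u)| ≤ H * B ∧ (t % (N : ℤ)).toNat ∈ P := by
      intro u
      by_cases hu : u ∈ U
      · obtain ⟨t, h1, h2⟩ := (hUm u hu).2
        exact ⟨t, fun _ => ⟨h1, h2⟩⟩
      · exact ⟨0, fun h => absurd h hu⟩
    choose t ht using hex2
    have h1 := fiber b B M H l l' m hm.1 hM hB2 hl hl' hl1 U τ (fun u hu => (hτ u (hUm u hu).1).2) t (fun u hu => (ht u hu).1)
    refine h1.trans (Nat.mul_le_mul_left _ ?_)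
    have h2 : U.image (fun u => t u / (l : ℤ)) = (U.image t).image (fun t => t / (l : ℤ)) := by
      rw [image_image]
      rfl
    rw [h2]
    apply hV _ (((m * x / B : ℕ) : ℤ) - H)
    intro t' ht'
    obtain ⟨u, hu, rfl⟩ := mem_image.1 ht'
    have h3 := hT _ (hτ u (hUm u hu).1).1
    obtain ⟨h4, h5⟩ := hit_range B M H m x W (by omega) (by omega) hB1 (τ u) h3.1 h3.2 (t u) (ht u hu).1
    exact ⟨h4, h5, (ht u hu).2⟩

open Classical in
/-- the cells which are met by the frequencies of an interval -/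
lemma local_cells (b N B M H Z l l' Nc x W : ℕ) (hN : N = l * Nc) (hNc : 1 ≤ Nc) (hM : 1 ≤ M) (hB1 : 2 * M ≤ B)
    (hB2 : B ≤ 2 * b * M) (hl : l ≤ b * l') (hl' : 1 ≤ l') (hl1 : 1 ≤ l) (P : Finset ℕ) (T : Finset ℕ)
    (hT : ∀ t ∈ T, x ≤ t ∧ t ≤ x + W)
    (hit : ∀ t ∈ T, M ≤ Z * ((Ico M (2 * M)).filter (fun m => Hit N B H P m t)).card) :
    (T.image (fun t => t / l')).card ≤
      Z * ((2 * b * (b + 2 * H) + 1) * (((W + 2 * H + 1) / N + 2) * (P.image (fun t => t / l)).card)) :=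
  local_gen b N B M H Z l l' x W _ hM hB1 hB2 hl hl' hl1 P T hT hit
    (fun F y hF => per_cells N l Nc _ hN hl1 hNc P F y hF)

open Classical in
/-- the frequencies of a short interval -/
lemma local_top (b N B M H Z Lw X G x W : ℕ) (hb : 1 ≤ b) (hN : 1 ≤ N) (hM : 1 ≤ M) (hB1 : 2 * M ≤ B)
    (hB2 : B ≤ 2 * b * M) (hL : Lw ≤ N) (hLw : 1 ≤ Lw) (P : Finset ℕ)
    (hP : ∀ x : ℕ, (P.filter (fun t => x ≤ t ∧ t < x + Lw)).card ≤ X) (T : Finset ℕ)
    (hT : ∀ t ∈ T, x ≤ t ∧ t ≤ x + W) (hW : W + 2 * H + 1 ≤ G * Lw)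
    (hit : ∀ t ∈ T, M ≤ Z * ((Ico M (2 * M)).filter (fun m => Hit N B H P m t)).card) :
    T.card ≤ Z * ((2 * b * (b + 2 * H) + 1) * (2 * X * G)) := by
  have h1 := local_gen b N B M H Z 1 1 x W (2 * X * G) hM hB1 hB2 (by omega) le_rfl le_rfl P T hT hit
    (fun F y hF => by
      refine card_image_le.trans ?_
      apply per_windows N Lw X G hN hL hLw P hP F y
      intro t ht
      obtain ⟨h1, h2, h3⟩ := hF t ht
      refine ⟨h1, ?_, h3⟩
      have : ((W + 2 * H + 1 : ℕ) : ℤ) ≤ ((G * Lw : ℕ) : ℤ) := by exact_mod_cast hW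
      linarith)
  have h2 : T.image (fun t => t / 1) = T := by
    ext t
    simp
  rwa [h2] at h1

/-- the frequencies belong to few intervals -/
lemma cover (N B M R H Z Lc Nc : ℕ) (b : ℕ) (P : Finset ℕ) (hN : N = Lc * Nc) (hLc : 1 ≤ Lc) (hH : H ≤ Lc) (hM : 1 ≤ M)
    (hB1 : 2 * M ≤ B) (hB2 : B ≤ 2 * b * M) (hR : R = Nc) (T : Finset ℕ) (hTN : ∀ t ∈ T, t < N * B)
    (hit : ∀ t ∈ T, M ≤ Z * (@filter ℕ (fun m => Hit N B H P m t) (Classical.decPred _) (Ico M (2 * M))).card)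
    (hZ : 12 * Z * (P.image (fun t => t / Lc)).card < Nc) :
    ∃ X : Finset ℕ, X.card ≤ 4 * R ^ 2 ∧ ∀ t ∈ T, ∃ x ∈ X, x ≤ t ∧ t ≤ x + (4 * b * N + 1) := by
  classical
  obtain ⟨f, hf⟩ : ∃ f : ℕ × ℤ → ℕ, f = fun p => ⌊((N * B : ℕ) : ℝ) * ((p.2 : ℝ) / (p.1 : ℝ) - 1 / M)⌋₊ := ⟨_, rfl⟩
  refine ⟨((range R) ×ˢ (Icc (-(R : ℤ)) (2 * R))).image f, ?_, ?_⟩
  · refine card_image_le.trans ?_
    rw [card_product, card_range, Int.card_Icc]
    have h1 : (2 * (R : ℤ) + 1 - -(R : ℤ)).toNat = 3 * R + 1 := by omega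
    rw [h1]
    rcases Nat.eq_zero_or_pos R with h | h
    · rw [h]; norm_num
    · nlinarith
  · intro t ht
    have hN1 : 1 ≤ N := by
      rw [hN]
      apply Nat.mul_pos hLc
      omega
    obtain ⟨r, a, hr1, hr2, hra⟩ := small_den N B M H Z Lc Nc P hN hLc hH hM (by omega) t (hit t ht) hZ
    have hMr : (1 : ℝ) ≤ M := by exact_mod_cast hM
    have hrr : (1 : ℝ) ≤ r := by exact_mod_cast hr1
    have hr0 : (0 : ℝ) < r := by linarith
    have hNB : (0 : ℝ) < ((N * B : ℕ) : ℝ) := by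
      have : 0 < N * B := Nat.mul_pos hN1 (by omega)
      exact_mod_cast this
    have htB := hTN t ht
    have ht1 : (t : ℝ) / ((N * B : ℕ) : ℝ) < 1 := by
      rw [div_lt_one hNB]
      exact_mod_cast htB
    have ht0 : 0 ≤ (t : ℝ) / ((N * B : ℕ) : ℝ) := by positivity
    have hM1 : 1 / (M : ℝ) ≤ 1 := by
      rw [div_le_one (by linarith)]
      exact hMr
    have hra' := abs_le.1 hra
    refine ⟨f (r, a), mem_image_of_mem f ?_, ?_, ?_⟩
    · rw [mem_product, mem_range, mem_Icc]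
      refine ⟨by simp only; omega, ?_, ?_⟩
      · have h1 : -(1 : ℝ) ≤ a / r := by linarith [hra'.2]
        have h2 : -(r : ℝ) ≤ a := by
          rw [le_div_iff₀ hr0] at h1
          linarith
        have h3 : -(r : ℤ) ≤ a := by exact_mod_cast h2
        simp only
        omega
      · have h1 : (a : ℝ) / r ≤ 2 := by linarith [hra'.1]
        have h2 : (a : ℝ) ≤ 2 * r := by
          rw [div_le_iff₀ hr0] at h1
          exact h1
        have h3 : a ≤ 2 * (r : ℤ) := by exact_mod_cast h2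
        simp only
        omega
    · rw [hf]
      simp only
      apply Nat.floor_le_of_le
      have h1 : (a : ℝ) / r - 1 / M ≤ (t : ℝ) / ((N * B : ℕ) : ℝ) := by linarith [hra'.1]
      have h2 := mul_le_mul_of_nonneg_left h1 hNB.le
      rwa [mul_div_cancel₀ _ hNB.ne'] at h2
    · have h1 : (t : ℝ) / ((N * B : ℕ) : ℝ) ≤ ((a : ℝ) / r - 1 / M) + 2 / M := by
        have : (2 : ℝ) / M = 1 / M + 1 / M := by ring
        rw [this]
        linarith [hra'.2]
      have h2 := mul_le_mul_of_nonneg_left h1 hNB.le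
      rw [mul_div_cancel₀ _ hNB.ne', mul_add] at h2
      have h3 : ((N * B : ℕ) : ℝ) * (2 / M) ≤ 4 * b * N := by
        rw [mul_div_assoc', div_le_iff₀ (by linarith)]
        have h4 : (B : ℝ) ≤ 2 * b * M := by exact_mod_cast hB2
        push_cast
        have h5 : (0 : ℝ) ≤ N := Nat.cast_nonneg _
        nlinarith
      have h4 := Nat.lt_floor_add_one (((N * B : ℕ) : ℝ) * ((a : ℝ) / r - 1 / M))
      have h5 : (t : ℝ) < ((f (r, a) + (4 * b * N + 1) : ℕ) : ℝ) := by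
        rw [hf]
        simp only
        push_cast at h2 h3 h4 ⊢
        linarith
      exact le_of_lt (by exact_mod_cast h5)

end Pool.Agent.Q259.TM
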