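import Pool.Agent.Q259.TM.Cnt

set_option autoImplicit false

/-! Frequencies whose multiples are often near a sparse set of frequencies are near fractions with small
denominators. -/

namespace Pool.Agent.Q259.TM

open Finset

open Classical in
lemma small_den (N B M H Z Lc Nc : ℕ) (P : Finset ℕ) (hN : N = Lc * Nc) (hLc : 1 ≤ Lc) (hH : H ≤ Lc) (hM : 1 ≤ M)
    (hB : 1 ≤ B) (t' : ℕ) (ht : M ≤ Z * ((Ico M (2 * M)).filter (fun m => Hit N B H P m t')).card)
    (hZ : 12 * Z * (P.image (fun t => t / Lc)).card < Nc) :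
    ∃ r : ℕ, ∃ a : ℤ, 1 ≤ r ∧ r < Nc ∧ |(t' : ℝ) / ((N * B : ℕ) : ℝ) - a / r| ≤ 1 / M := by
  obtain ⟨ξ, hξ⟩ : ∃ ξ : ℝ, ξ = (t' : ℝ) / ((N * B : ℕ) : ℝ) := ⟨_, rfl⟩
  rw [← hξ]
  obtain ⟨q, hq1, hq2⟩ := Real.exists_rat_abs_sub_le_and_den_le ξ (by omega : 0 < M)
  obtain ⟨r, hr⟩ : ∃ r, r = q.den := ⟨_, rfl⟩
  obtain ⟨a, ha⟩ : ∃ a, a = q.num := ⟨_, rfl⟩
  have hqe : (q : ℝ) = (a : ℝ) / r := by
    rw [ha, hr]
    exact Rat.cast_def q
  rw [hqe, ← hr] at hq1
  rw [← hr] at hq2
  have hr1 : 1 ≤ r := by rw [hr]; exact q.pos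
  have hcop : Nat.Coprime a.natAbs r := by rw [ha, hr]; exact q.reduced
  have hMr : (1 : ℝ) ≤ M := by exact_mod_cast hM
  have hrr : (1 : ℝ) ≤ r := by exact_mod_cast hr1
  by_cases hrN : r < Nc
  · refine ⟨r, a, hr1, hrN, hq1.trans ?_⟩
    apply one_div_le_one_div_of_le (by linarith)
    nlinarith
  exfalso
  push Not at hrN
  have hNc : 1 ≤ Nc := by omega
  have hN1 : 1 ≤ N := by rw [hN]; exact Nat.mul_pos hLc hNc
  have hNz : (0 : ℤ) < N := by exact_mod_cast hN1
  have hNr : (0 : ℝ) < N := by exact_mod_cast hN1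
  have hBr : (0 : ℝ) < B := by exact_mod_cast hB
  have hLr : (0 : ℝ) < Lc := by exact_mod_cast hLc
  have hNcr : (0 : ℝ) < Nc := by exact_mod_cast hNc
  have hNe : (N : ℝ) = Lc * Nc := by exact_mod_cast hN
  obtain ⟨G, hG⟩ : ∃ G, G = (Ico M (2 * M)).filter (fun m => Hit N B H P m t') := ⟨_, rfl⟩
  rw [← hG] at ht
  have hex : ∀ m : ℕ, ∃ t : ℤ, m ∈ G → |(B : ℤ) * t - m * t'| ≤ H * B ∧ (t % (N : ℤ)).toNat ∈ P := by
    intro m
    by_cases hm : m ∈ G
    · have hm' := hm
      rw [hG, mem_filter] at hm'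
      obtain ⟨t, h1, h2⟩ := hm'.2
      exact ⟨t, fun _ => ⟨h1, h2⟩⟩
    · exact ⟨0, fun h => absurd h hm⟩
  choose t ht1 using hex
  have hmaps : ∀ m ∈ G, ((t m % (N : ℤ)).toNat / Lc, (m - M) / r) ∈
      (P.image (fun t => t / Lc)) ×ˢ (range (M / r + 1)) := by
    intro m hm
    rw [mem_product, mem_image, mem_range]
    refine ⟨⟨_, (ht1 m hm).2, rfl⟩, ?_⟩
    rw [hG, mem_filter, mem_Ico] at hm
    have : (m - M) / r ≤ M / r := Nat.div_le_div_right (by omega)
    simp only
    omega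
  have hfib : ∀ cg ∈ (P.image (fun t => t / Lc)) ×ˢ (range (M / r + 1)),
      (G.filter (fun m => ((t m % (N : ℤ)).toNat / Lc, (m - M) / r) = cg)).card ≤ ⌊6 * (r : ℝ) / Nc⌋₊ := by
    rintro ⟨c, g⟩ _
    apply Nat.le_floor
    obtain ⟨F, hF⟩ : ∃ F, F = G.filter (fun m => ((t m % (N : ℤ)).toNat / Lc, (m - M) / r) = (c, g)) := ⟨_, rfl⟩
    rw [← hF]
    have hFm : ∀ m ∈ F, m ∈ G ∧ (t m % (N : ℤ)).toNat / Lc = c ∧ (m - M) / r = g := by
      intro m hm
      rw [hF, mem_filter, Prod.mk.injEq] at hm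
      exact hm
    have hlm : ∀ m ∈ F, (M : ℤ) + r * g ≤ m ∧ (m : ℤ) < M + r * g + r := by
      intro m hm
      obtain ⟨h1, _, h3⟩ := hFm m hm
      rw [hG, mem_filter, mem_Ico] at h1
      have h4 := Nat.div_mul_le_self (m - M) r
      have h5 := Nat.lt_mul_div_succ (m - M) (by omega : 0 < r)
      rw [h3] at h4 h5
      have h6 : M + r * g ≤ m := by
        rw [mul_comm r g]
        omega
      have h7 : m < M + r * g + r := by
        rw [mul_add, mul_one] at h5
        omega
      exact ⟨by exact_mod_cast h6, by exact_mod_cast h7⟩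
    have h1 := card_le_interval F (fun m : ℕ => ((m : ℤ) - M - r * g) * a - r * (t m / N)) (by
      intro m hm m' hm' heq
      have a1 := hlm m (mem_coe.1 hm)
      have a2 := hlm m' (mem_coe.1 hm')
      simp only at heq
      have h2 : (r : ℤ) ∣ (a * ((m : ℤ) - m')) := ⟨t m / N - t m' / N, by linear_combination heq⟩
      have h3 : IsCoprime (r : ℤ) a := by
        rw [Int.isCoprime_iff_gcd_eq_one, Int.gcd_comm]
        simpa [Int.gcd, Nat.Coprime] using hcop
      have h4 : (r : ℤ) ∣ (m : ℤ) - m' := h3.dvd_of_dvd_mul_left h2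
      have h5 : |(m : ℤ) - m'| < r := by
        rw [abs_lt]
        constructor <;> linarith [a1.1, a1.2, a2.1, a2.2]
      have h6 := Int.eq_zero_of_abs_lt_dvd h4 h5
      have h7 : (m : ℤ) = m' := by linarith
      exact_mod_cast h7) (r * (-(H : ℝ) / N + c * Lc / N - (M + r * g) * ξ) - 1) (3 * r / Nc + 2) (by positivity) (by
      intro m hm
      obtain ⟨b1, b2, _⟩ := hFm m hm
      obtain ⟨c1, c2⟩ := hlm m hm
      have d1 := (ht1 m b1).1
      obtain ⟨k, hk⟩ : ∃ k, k = t m / N := ⟨_, rfl⟩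
      obtain ⟨s, hs⟩ : ∃ s, s = t m % N := ⟨_, rfl⟩
      have e1 : t m = s + N * k := by rw [hk, hs]; exact (Int.emod_add_mul_ediv _ _).symm
      have e2 : 0 ≤ s := by rw [hs]; exact Int.emod_nonneg _ hNz.ne'
      rw [← hs] at b2
      have e3 := Nat.div_mul_le_self s.toNat Lc
      have e4 := Nat.lt_mul_div_succ s.toNat (by omega : 0 < Lc)
      rw [b2] at e3 e4
      have e5 : (c : ℝ) * Lc ≤ s := by
        have : ((c * Lc : ℕ) : ℤ) ≤ s := by
          have := Int.toNat_of_nonneg e2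
          omega
        exact_mod_cast this
      have e6 : (s : ℝ) ≤ (c + 1) * Lc := by
        have : s ≤ ((Lc * (c + 1) : ℕ) : ℤ) := by
          have := Int.toNat_of_nonneg e2
          omega
        have : (s : ℝ) ≤ ((Lc * (c + 1) : ℕ) : ℝ) := by exact_mod_cast this
        push_cast at this
        linarith
      obtain ⟨l, hl⟩ : ∃ l : ℤ, l = (m : ℤ) - M - r * g := ⟨_, rfl⟩
      have hl0 : 0 ≤ l := by rw [hl]; linarith
      have hlr : l < r := by rw [hl]; linarith
      have hl0r : (0 : ℝ) ≤ l := by exact_mod_cast hl0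
      have hlrr : (l : ℝ) ≤ r := by exact_mod_cast hlr.le
      have hmr : (m : ℝ) = l + (M + r * g) := by
        have : (m : ℤ) = l + (M + r * g) := by rw [hl]; ring
        exact_mod_cast this
      rw [← hk, ← hl]
      have f1 : |(t m : ℝ) / N - m * ξ| ≤ H / N := by
        have g1 : |(B : ℝ) * t m - m * t'| ≤ H * B := by exact_mod_cast d1
        have g2 : (t m : ℝ) / N - m * ξ = ((B : ℝ) * t m - m * t') / (N * B) := by
          rw [hξ]
          push_cast
          field_simp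
        rw [g2, abs_div, abs_of_pos (by positivity : (0 : ℝ) < N * B), div_le_div_iff₀ (by positivity) hNr]
        nlinarith
      have f2 : |(l : ℝ) * (ξ - a / r)| ≤ 1 / r := by
        rw [abs_mul, abs_of_nonneg hl0r]
        have g1 : (l : ℝ) * |ξ - a / r| ≤ r * (1 / ((M + 1) * r)) := mul_le_mul hlrr hq1 (abs_nonneg _) (by linarith)
        refine g1.trans ?_
        rw [mul_one_div, div_le_div_iff₀ (by positivity) (by linarith)]
        have g2 : (r : ℝ) ≤ M := by exact_mod_cast hq2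
        nlinarith
      have f3 : ((l * a - r * k : ℤ) : ℝ) = r * ((m * ξ - (t m : ℝ) / N) - l * (ξ - a / r) + s / N - (M + r * g) * ξ) := by
        have g1 : (t m : ℝ) = s + N * k := by exact_mod_cast e1
        rw [hmr, g1]
        push_cast
        field_simp
        ring
      have f4 := abs_le.1 f1
      have f5 := abs_le.1 f2
      have hr0 : (0 : ℝ) < r := by linarith
      rw [f3]
      have k1 : (c : ℝ) * Lc / N ≤ s / N := div_le_div_of_nonneg_right e5 hNr.le
      have k2 : (s : ℝ) / N ≤ (c + 1) * Lc / N := div_le_div_of_nonneg_right e6 hNr.le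
      have k3 : (r : ℝ) * (1 / r) = 1 := by field_simp
      have k4 : 2 * (H : ℝ) / N ≤ 2 * Lc / N := by
        apply div_le_div_of_nonneg_right _ hNr.le
        have : (H : ℝ) ≤ Lc := by exact_mod_cast hH
        linarith
      have k5 : (Lc : ℝ) / N = 1 / Nc := by rw [hNe]; field_simp
      constructor
      · have k6 : -(H : ℝ) / N + c * Lc / N - (M + r * g) * ξ - 1 / r ≤
            (m * ξ - (t m : ℝ) / N) - l * (ξ - a / r) + s / N - (M + r * g) * ξ := by
          have : -(H : ℝ) / N = -(H / N) := neg_div _ _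
          rw [this]
          linarith [f4.2, f5.2]
        have k7 := mul_le_mul_of_nonneg_left k6 hr0.le
        nlinarith
      · have k6 : (m * ξ - (t m : ℝ) / N) - l * (ξ - a / r) + s / N - (M + r * g) * ξ ≤
            H / N + 1 / r + (c + 1) * Lc / N - (M + r * g) * ξ := by
          linarith [f4.1, f5.1]
        have k7 := mul_le_mul_of_nonneg_left k6 hr0.le
        refine k7.trans ?_
        have k8 : (r : ℝ) * (H / N + 1 / r + (c + 1) * Lc / N - (M + r * g) * ξ) =
            r * (-(H : ℝ) / N + c * Lc / N - (M + r * g) * ξ) - 1 + (r * (2 * H / N + Lc / N) + 2) := by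
          have : (r : ℝ) * (1 / r) = 1 := k3
          field_simp
          ring
        rw [k8]
        have k9 : (r : ℝ) * (2 * H / N + Lc / N) ≤ 3 * r / Nc := by
          have : 2 * (H : ℝ) / N + Lc / N ≤ 3 / Nc := by
            have e7 : 2 * (Lc : ℝ) / N = 2 * (Lc / N) := by ring
            rw [e7, k5] at k4
            rw [k5]
            have e8 : (3 : ℝ) / Nc = 2 * (1 / Nc) + 1 / Nc := by ring
            linarith
          calc _ ≤ (r : ℝ) * (3 / Nc) := mul_le_mul_of_nonneg_left this hr0.le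
            _ = _ := by ring
        linarith)
    refine h1.trans ?_
    have h2 : (1 : ℝ) ≤ r / Nc := by
      rw [le_div_iff₀ hNcr, one_mul]
      exact_mod_cast hrN
    have h3 : 6 * (r : ℝ) / Nc = 3 * r / Nc + 3 * (r / Nc) := by ring
    rw [h3]
    linarith
  have hcard := card_le_mul_card_image_of_maps_to hmaps _ hfib
  rw [card_product, card_range] at hcard
  have h1 : (G.card : ℝ) ≤ 6 * r / Nc * ((P.image (fun t => t / Lc)).card * (2 * M / r)) := by
    have h2 : (G.card : ℝ) ≤ (⌊6 * (r : ℝ) / Nc⌋₊ : ℝ) * ((P.image (fun t => t / Lc)).card * ((M / r : ℕ) + 1)) := by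
      exact_mod_cast hcard
    refine h2.trans ?_
    apply mul_le_mul (Nat.floor_le (by positivity)) _ (by positivity) (by positivity)
    apply mul_le_mul_of_nonneg_left _ (Nat.cast_nonneg _)
    have h3 : ((M / r : ℕ) : ℝ) ≤ M / r := Nat.cast_div_le
    have h4 : (1 : ℝ) ≤ M / r := by
      rw [le_div_iff₀ (by linarith), one_mul]
      exact_mod_cast hq2
    have h5 : 2 * (M : ℝ) / r = M / r + M / r := by ring
    rw [h5]
    linarith
  have h2 : 6 * (r : ℝ) / Nc * ((P.image (fun t => t / Lc)).card * (2 * M / r)) =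
      M * (12 * (P.image (fun t => t / Lc)).card / Nc) := by
    field_simp
    ring
  rw [h2] at h1
  have h3 : (M : ℝ) ≤ Z * G.card := by exact_mod_cast ht
  have h4 : (M : ℝ) ≤ M * (12 * Z * (P.image (fun t => t / Lc)).card / Nc) := by
    calc (M : ℝ) ≤ Z * G.card := h3
      _ ≤ Z * (M * (12 * (P.image (fun t => t / Lc)).card / Nc)) := mul_le_mul_of_nonneg_left h1 (Nat.cast_nonneg _)
      _ = _ := by ring
  have h5 : 12 * (Z : ℝ) * (P.image (fun t => t / Lc)).card / Nc < 1 := by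
    rw [div_lt_one hNcr]
    exact_mod_cast hZ
  have h6 : (M : ℝ) * (12 * Z * (P.image (fun t => t / Lc)).card / Nc) < M * 1 :=
    mul_lt_mul_of_pos_left h5 (by linarith)
  linarith

end Pool.Agent.Q259.TM
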