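import Pool.Agent.Q259.TM.Loc
import Pool.Agent.Y885.TH

set_option autoImplicit false

/-! Frequencies whose multiples are often near a thin set of frequencies form a thin set. -/

namespace Pool.Agent.Q259.TM

open Finset
open Pool.Agent.Y885 (Thin)

open Classical in
/-- **The set of the frequencies many of whose multiples are near a thin set is thin.** -/
theorem thin_mul (b E K s M H Z Q i₀ : ℕ) (hb : 2 ≤ b) (hE : 3 ≤ E) (hM : 1 ≤ M) (hM1 : 2 * M ≤ b ^ s)
    (hM2 : b ^ s ≤ 2 * b * M) (hZ : 1 ≤ Z) (hQ : 1 ≤ Q) (hi₀ : 2 * i₀ ≤ K) (hHi : H ≤ b ^ (K - 2 * i₀))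
    (h12 : 12 * Z * Q < b ^ (i₀ + 1)) (hH1 : 2 * H + 2 ≤ b ^ (K + 1)) (P : Finset ℕ) (hP : Thin b E Q K (2 * K / 5) P)
    (T : Finset ℕ) (hT : ∀ t ∈ T, t < b ^ (K + s + 1))
    (hit : ∀ t ∈ T, M ≤ Z * ((Ico M (2 * M)).filter (fun m => Hit (b ^ (K + 1)) (b ^ s) H P m t)).card) :
    Thin b E (4 * (b ^ (2 * i₀ + 1)) ^ 2 * Z * (2 * b * (b + 2 * H) + 1) * (4 * b + 3) * b * Q * (2 * H + 1))
      (K + s) (2 * (K + s) / 5) T := by
  have hbn : 0 < b := by omega
  obtain ⟨R, hR⟩ : ∃ R, R = b ^ (2 * i₀ + 1) := ⟨_, rfl⟩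
  obtain ⟨κ, hκ⟩ : ∃ κ, κ = 2 * b * (b + 2 * H) + 1 := ⟨_, rfl⟩
  obtain ⟨N, hN⟩ : ∃ N, N = b ^ (K + 1) := ⟨_, rfl⟩
  obtain ⟨B, hB⟩ : ∃ B, B = b ^ s := ⟨_, rfl⟩
  rw [← hR, ← hκ]
  rw [← hN] at hH1
  rw [← hB] at hM1 hM2
  have hR1 : 1 ≤ R := by rw [hR]; exact Nat.pow_pos hbn
  have hN1 : 1 ≤ N := by rw [hN]; exact Nat.pow_pos hbn
  have hκ1 : 1 ≤ κ := by omega
  have hTN : ∀ t ∈ T, t < N * B := by
    intro t ht
    have h1 := hT t ht
    have h2 : N * B = b ^ (K + s + 1) := by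
      rw [hN, hB, ← pow_add]
      congr 1
      omega
    rw [h2]
    exact h1
  have hPc : (P.image (fun t => t / b ^ (K - 2 * i₀))).card ≤ Q * b ^ i₀ :=
    (Nat.le_mul_of_pos_right _ (Nat.pow_pos hbn)).trans (hP.bot i₀ hi₀)
  have hNfac : ∀ i, 2 * i ≤ K → N = b ^ (K - 2 * i) * b ^ (2 * i + 1) := by
    intro i hi
    rw [hN, ← pow_add]
    congr 1
    omega
  have hZc : 12 * Z * (P.image (fun t => t / b ^ (K - 2 * i₀))).card < b ^ (2 * i₀ + 1) := by
    calc 12 * Z * (P.image (fun t => t / b ^ (K - 2 * i₀))).card ≤ 12 * Z * (Q * b ^ i₀) := Nat.mul_le_mul_left _ hPc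
      _ = (12 * Z * Q) * b ^ i₀ := by ring
      _ < b ^ (i₀ + 1) * b ^ i₀ := Nat.mul_lt_mul_of_pos_right h12 (Nat.pow_pos hbn)
      _ = _ := by rw [← pow_add]; congr 1; omega
  rw [← hN, ← hB] at hit
  obtain ⟨X, hX1, hX2⟩ := cover N B M R H Z (b ^ (K - 2 * i₀)) (b ^ (2 * i₀ + 1)) b P (hNfac i₀ hi₀) (Nat.pow_pos hbn)
    hHi hM hM1 hM2 hR T hTN hit hZc
  -- the cells of all frequencies
  have hcov : ∀ (l' V : ℕ), (∀ x ∈ X, ((T.filter (fun t => x ≤ t ∧ t ≤ x + (4 * b * N + 1))).image (fun t => t / l')).card ≤ V) →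
      (T.image (fun t => t / l')).card ≤ 4 * R ^ 2 * V := by
    intro l' V hV
    have h1 : T.image (fun t => t / l') ⊆
        X.biUnion (fun x => (T.filter (fun t => x ≤ t ∧ t ≤ x + (4 * b * N + 1))).image (fun t => t / l')) := by
      intro u hu
      obtain ⟨t, ht, rfl⟩ := mem_image.1 hu
      obtain ⟨x, hx, hx1, hx2⟩ := hX2 t ht
      rw [mem_biUnion]
      exact ⟨x, hx, mem_image_of_mem _ (mem_filter.2 ⟨ht, hx1, hx2⟩)⟩
    refine (card_le_card h1).trans (card_biUnion_le.trans ?_)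
    refine (sum_le_sum hV).trans ?_
    rw [sum_const, smul_eq_mul]
    exact Nat.mul_le_mul_right _ hX1
  have hglob : ∀ l l' Nc : ℕ, N = l * Nc → 1 ≤ Nc → l ≤ b * l' → 1 ≤ l' → 1 ≤ l →
      (T.image (fun t => t / l')).card ≤ 4 * R ^ 2 * (Z * (κ * ((4 * b + 3) * (P.image (fun t => t / l)).card))) := by
    intro l l' Nc h1 h2 h3 h4 h5
    apply hcov
    intro x _
    have h6 := local_cells b N B M H Z l l' Nc x (4 * b * N + 1) h1 h2 hM hM1 hM2 h3 h4 h5 P
      (T.filter (fun t => x ≤ t ∧ t ≤ x + (4 * b * N + 1))) (fun t ht => (mem_filter.1 ht).2)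
      (fun t ht => hit t (mem_filter.1 ht).1)
    refine h6.trans ?_
    rw [← hκ]
    apply Nat.mul_le_mul_left
    apply Nat.mul_le_mul_left
    apply Nat.mul_le_mul_right
    have h7 : (4 * b * N + 1 + 2 * H + 1) / N ≤ 4 * b + 1 := by
      calc (4 * b * N + 1 + 2 * H + 1) / N ≤ ((4 * b + 1) * N) / N := Nat.div_le_div_right (by
            have : (4 * b + 1) * N = 4 * b * N + N := by ring
            omega)
        _ = 4 * b + 1 := Nat.mul_div_cancel _ (by omega)
    omega
  have hall : T.card ≤ 4 * R ^ 2 * (Z * (κ * ((4 * b + 3) * P.card))) := by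
    have h1 := hglob 1 1 N (by rw [one_mul]) hN1 (by omega) le_rfl le_rfl
    have h2 : ∀ F : Finset ℕ, F.image (fun t => t / 1) = F := by
      intro F
      ext t
      simp
    rwa [h2, h2] at h1
  have hbig : 1 ≤ 4 * R ^ 2 * Z * κ * (4 * b + 3) := by
    have : 0 < 4 * R ^ 2 * Z * κ * (4 * b + 3) := by positivity
    omega
  constructor
  · exact hT
  · -- cells
    intro i hi
    by_cases hcase : 2 * i ≤ s
    · -- long cells
      have h1 : (T.image (fun t => t / b ^ (K + s - 2 * i))).card ≤ 4 * R ^ 2 * (4 * b ^ 2 + 3) := by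
        apply hcov
        intro x _
        have hl' : b ^ K ≤ b ^ (K + s - 2 * i) := Nat.pow_le_pow_right hbn (by omega)
        have hl'0 : 0 < b ^ (K + s - 2 * i) := Nat.pow_pos hbn
        have h2 : ((T.filter (fun t => x ≤ t ∧ t ≤ x + (4 * b * N + 1))).image (fun t => t / b ^ (K + s - 2 * i))) ⊆
            Icc (x / b ^ (K + s - 2 * i)) (x / b ^ (K + s - 2 * i) + (4 * b ^ 2 + 2)) := by
          intro u hu
          obtain ⟨t, ht, rfl⟩ := mem_image.1 hu
          obtain ⟨_, h3, h4⟩ := mem_filter.1 ht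
          rw [mem_Icc]
          refine ⟨Nat.div_le_div_right h3, ?_⟩
          rw [← Nat.add_mul_div_right x _ hl'0]
          apply Nat.div_le_div_right
          refine h4.trans ?_
          apply Nat.add_le_add_left
          have h5 : 4 * b * N + 1 ≤ (4 * b ^ 2 + 2) * b ^ K := by
            have h6 : 1 ≤ b ^ K := Nat.pow_pos hbn
            have h7 : 4 * b * N = 4 * b ^ 2 * b ^ K := by rw [hN, pow_succ]; ring
            rw [h7, add_mul]
            omega
          exact h5.trans (Nat.mul_le_mul_left _ hl')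
        refine (card_le_card h2).trans ?_
        rw [Nat.card_Icc]
        omega
      have h2 : 4 * b ^ 2 + 3 ≤ Z * κ * (4 * b + 3) * b * Q * (2 * H + 1) := by
        have h3 : 2 * b ^ 2 + 1 ≤ κ := by
          rw [hκ]
          nlinarith
        have h4 : 2 * b ^ 2 + 1 ≤ Z * κ := h3.trans (Nat.le_mul_of_pos_left _ hZ)
        calc 4 * b ^ 2 + 3 ≤ (2 * b ^ 2 + 1) * (4 * b + 3) := by nlinarith
          _ ≤ (Z * κ) * (4 * b + 3) := Nat.mul_le_mul_right _ h4
          _ ≤ (Z * κ) * (4 * b + 3) * b := Nat.le_mul_of_pos_right _ hbn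
          _ ≤ (Z * κ) * (4 * b + 3) * b * Q := Nat.le_mul_of_pos_right _ hQ
          _ ≤ _ := Nat.le_mul_of_pos_right _ (by omega)
      calc _ ≤ (4 * R ^ 2 * (4 * b ^ 2 + 3)) * b ^ (i / E) := Nat.mul_le_mul_right _ h1
        _ ≤ (4 * R ^ 2 * (Z * κ * (4 * b + 3) * b * Q * (2 * H + 1))) * b ^ i :=
            Nat.mul_le_mul (Nat.mul_le_mul_left _ h2) (Nat.pow_le_pow_right hbn (Nat.div_le_self _ _))
        _ = _ := by ring
    · -- short cells
      push Not at hcase
      obtain ⟨i', hi'⟩ : ∃ i', i' = (2 * i - s) / 2 := ⟨_, rfl⟩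
      have h2i' : 2 * i' ≤ K := by omega
      have h1 := hglob (b ^ (K - 2 * i')) (b ^ (K + s - 2 * i)) (b ^ (2 * i' + 1)) (hNfac i' h2i') (Nat.pow_pos hbn) (by
        rw [← pow_succ']
        exact Nat.pow_le_pow_right hbn (by omega)) (Nat.pow_pos hbn) (Nat.pow_pos hbn)
      have h2 := hP.bot i' h2i'
      have h3 : b ^ (i / E) ≤ b ^ (i' / E) * (b ^ (i - i') * b) := by
        rw [← pow_succ, ← pow_add]
        apply Nat.pow_le_pow_right hbn
        have h4 : i / E ≤ i' / E + (i - i') / E + 1 := by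
          have h5 : i = i' + (i - i') := by omega
          have h7 : (i' + (i - i')) / E ≤ i' / E + (i - i') / E + 1 := by
            have hE0 : 0 < E := by omega
            rw [Nat.div_le_iff_le_mul_add_pred hE0]
            have g1 := Nat.div_add_mod i' E
            have g2 := Nat.div_add_mod (i - i') E
            have g3 := Nat.mod_lt i' hE0
            have g4 := Nat.mod_lt (i - i') hE0
            have g5 : E * (i' / E + (i - i') / E + 1) = E * (i' / E) + E * ((i - i') / E) + E := by ring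
            omega
          rw [← h5] at h7
          exact h7
        have h5 : (i - i') / E ≤ i - i' := Nat.div_le_self _ _
        omega
      calc _ ≤ (4 * R ^ 2 * (Z * (κ * ((4 * b + 3) * (P.image (fun t => t / b ^ (K - 2 * i'))).card)))) *
            (b ^ (i' / E) * (b ^ (i - i') * b)) := Nat.mul_le_mul h1 h3
        _ = 4 * R ^ 2 * Z * κ * (4 * b + 3) * b * b ^ (i - i') * ((P.image (fun t => t / b ^ (K - 2 * i'))).card * b ^ (i' / E)) := by ring
        _ ≤ 4 * R ^ 2 * Z * κ * (4 * b + 3) * b * b ^ (i - i') * (Q * b ^ i') := Nat.mul_le_mul_left _ h2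
        _ = 4 * R ^ 2 * Z * κ * (4 * b + 3) * b * Q * b ^ i := by
            have : b ^ i = b ^ (i - i') * b ^ i' := by rw [← pow_add]; congr 1; omega
            rw [this]
            ring
        _ ≤ 4 * R ^ 2 * Z * κ * (4 * b + 3) * b * Q * (2 * H + 1) * b ^ i :=
            Nat.mul_le_mul_right _ (Nat.le_mul_of_pos_right _ (by omega))
  · -- short intervals
    intro j x hj
    by_cases hjK : j ≤ K
    · have hbj : b ^ (j / E) * 1 ≤ b ^ j := by
        rw [mul_one]
        exact Nat.pow_le_pow_right hbn (Nat.div_le_self _ _)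
      obtain ⟨X', hX'⟩ : ∃ X', X' = Q * b ^ j / b ^ (j / E) := ⟨_, rfl⟩
      have h1 := local_top b N B M H Z (b ^ j) X' (2 * H + 1) x (b ^ j - 1) (by omega) hN1 hM hM1 hM2 (by
        rw [hN]
        exact Nat.pow_le_pow_right hbn (by omega)) (Nat.pow_pos hbn) P (fun y => by
          rw [hX', Nat.le_div_iff_mul_le (Nat.pow_pos hbn)]
          exact hP.top j y hjK) (T.filter (fun t => x ≤ t ∧ t < x + b ^ j)) (by
          intro t ht
          have h2 := (mem_filter.1 ht).2
          omega) (by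
          have h2 : 1 ≤ b ^ j := Nat.pow_pos hbn
          have h3 : (2 * H + 1) * b ^ j = 2 * H * b ^ j + b ^ j := by ring
          have h4 : 2 * H ≤ 2 * H * b ^ j := Nat.le_mul_of_pos_right _ (by omega)
          omega) (fun t ht => hit t (mem_filter.1 ht).1)
      have h2 : X' * b ^ (j / E) ≤ Q * b ^ j := by
        rw [hX']
        exact Nat.div_mul_le_self _ _
      rw [← hκ] at h1
      calc _ ≤ (Z * (κ * (2 * X' * (2 * H + 1)))) * b ^ (j / E) := Nat.mul_le_mul_right _ h1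
        _ = Z * κ * 2 * (2 * H + 1) * (X' * b ^ (j / E)) := by ring
        _ ≤ Z * κ * 2 * (2 * H + 1) * (Q * b ^ j) := Nat.mul_le_mul_left _ h2
        _ = 2 * (Z * κ * Q * (2 * H + 1)) * b ^ j := by ring
        _ ≤ (4 * R ^ 2 * (4 * b + 3) * b) * (Z * κ * Q * (2 * H + 1)) * b ^ j := by
            apply Nat.mul_le_mul_right
            apply Nat.mul_le_mul_right
            have h3 : 1 ≤ R ^ 2 := Nat.one_le_pow _ _ hR1
            have h4 : 1 ≤ (4 * b + 3) * b := Nat.mul_pos (by omega) hbn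
            calc 2 ≤ 4 * 1 * 1 := by norm_num
              _ ≤ 4 * R ^ 2 * ((4 * b + 3) * b) := Nat.mul_le_mul (Nat.mul_le_mul_left _ h3) h4
              _ = _ := by ring
        _ = _ := by ring
    · push Not at hjK
      have h1 : (T.filter (fun t => x ≤ t ∧ t < x + b ^ j)).card ≤ 4 * R ^ 2 * (Z * (κ * ((4 * b + 3) * (Q * b ^ (2 * K / 5))))) := by
        refine (card_filter_le _ _).trans (hall.trans ?_)
        apply Nat.mul_le_mul_left
        apply Nat.mul_le_mul_left
        apply Nat.mul_le_mul_left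
        apply Nat.mul_le_mul_left
        exact (Nat.le_mul_of_pos_right _ (Nat.pow_pos hbn)).trans hP.all
      have h2 : b ^ (2 * K / 5) * b ^ (j / E) ≤ b ^ j := by
        rw [← pow_add]
        apply Nat.pow_le_pow_right hbn
        have : j / E ≤ j / 3 := Nat.div_le_div_left hE (by norm_num)
        omega
      calc _ ≤ (4 * R ^ 2 * (Z * (κ * ((4 * b + 3) * (Q * b ^ (2 * K / 5)))))) * b ^ (j / E) := Nat.mul_le_mul_right _ h1
        _ = 4 * R ^ 2 * Z * κ * (4 * b + 3) * Q * (b ^ (2 * K / 5) * b ^ (j / E)) := by ring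
        _ ≤ 4 * R ^ 2 * Z * κ * (4 * b + 3) * Q * b ^ j := Nat.mul_le_mul_left _ h2
        _ ≤ (4 * R ^ 2 * Z * κ * (4 * b + 3) * Q * b ^ j) * (b * (2 * H + 1)) :=
            Nat.le_mul_of_pos_right _ (Nat.mul_pos hbn (by omega))
        _ = _ := by ring
  · -- all
    have h1 := hP.all
    have h2 : b ^ ((K + s) / E) ≤ b ^ (K / E) * (b ^ (s / 3) * b) := by
      rw [← pow_succ, ← pow_add]
      apply Nat.pow_le_pow_right hbn
      have hE0 : 0 < E := by omega
      have h3 : (K + s) / E ≤ K / E + s / E + 1 := by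
        rw [Nat.div_le_iff_le_mul_add_pred hE0]
        have g1 := Nat.div_add_mod K E
        have g2 := Nat.div_add_mod s E
        have g3 := Nat.mod_lt K hE0
        have g4 := Nat.mod_lt s hE0
        have g5 : E * (K / E + s / E + 1) = E * (K / E) + E * (s / E) + E := by ring
        omega
      have h4 : s / E ≤ s / 3 := Nat.div_le_div_left hE (by norm_num)
      omega
    calc T.card * b ^ ((K + s) / E) ≤ (4 * R ^ 2 * (Z * (κ * ((4 * b + 3) * P.card)))) * (b ^ (K / E) * (b ^ (s / 3) * b)) :=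
          Nat.mul_le_mul hall h2
      _ = 4 * R ^ 2 * Z * κ * (4 * b + 3) * b * b ^ (s / 3) * (P.card * b ^ (K / E)) := by ring
      _ ≤ 4 * R ^ 2 * Z * κ * (4 * b + 3) * b * b ^ (s / 3) * (Q * b ^ (2 * K / 5)) := Nat.mul_le_mul_left _ h1
      _ = 4 * R ^ 2 * Z * κ * (4 * b + 3) * b * Q * b ^ (s / 3 + 2 * K / 5) := by rw [pow_add]; ring
      _ ≤ 4 * R ^ 2 * Z * κ * (4 * b + 3) * b * Q * b ^ (2 * (K + s) / 5) :=
          Nat.mul_le_mul_left _ (Nat.pow_le_pow_right hbn (by omega))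
      _ ≤ _ := Nat.mul_le_mul_right _ (Nat.le_mul_of_pos_right _ (by omega))

end Pool.Agent.Q259.TM
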